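import Mathlib
import Pool.Agent.SB.Defs

set_option autoImplicit false

/-! S13607, common definitions for the geometric part. `f` is the gauge of the star body `K` in
`E (k+1)`, `h` the gauge of the model section `K₀` in `E k`. -/

namespace Pool.Agent.BAN

open Pool.Agent.SB (E)

/-- `v ↦ A v + c` is an affine isomorphism of `E k` onto a LINEAR hyperplane of `E (k+1)` which maps
`K₀ = {h ≤ 1}` onto the section of `K = {f ≤ 1}`. -/
structure IsT {k : ℕ} (f : E (k + 1) → ℝ) (h : E k → ℝ) (A : E k →L[ℝ] E (k + 1))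
    (c : E (k + 1)) : Prop where
  inj : Function.Injective A
  mem : ∃ v, A v = c
  iff : ∀ v, f (A v + c) ≤ 1 ↔ h v ≤ 1

/-- every hyperplane section is the image of `K₀` -/
def HasT {k : ℕ} (f : E (k + 1) → ℝ) (h : E k → ℝ) : Prop :=
  ∀ u : E (k + 1), u ≠ 0 → ∃ A c, IsT f h A c ∧ ∀ v, inner ℝ u (A v) = 0

/-- (S): every boundary point of `K₀` can be placed at every boundary point of `K`. -/
def SurT {k : ℕ} (f : E (k + 1) → ℝ) (h : E k → ℝ) : Prop :=
  ∀ x y, h x = 1 → f y = 1 → ∃ A c, IsT f h A c ∧ A x + c = y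

/-- Minkowski functional: sublinear. -/
def Sub {n : ℕ} (f : E n → ℝ) : Prop := ∀ x y, f (x + y) ≤ f x + f y

/-- Strict convexity of the body. -/
def Str {n : ℕ} (f : E n → ℝ) : Prop :=
  ∀ x y, f x ≤ 1 → f y ≤ 1 → x ≠ y → f ((1 / 2 : ℝ) • (x + y)) < 1

/-- Unique supporting directions at boundary points. -/
def Smo {n : ℕ} (f : E n → ℝ) : Prop :=
  ∀ x, f x = 1 → ∀ ξ η : E n →L[ℝ] ℝ, (∀ v, f v ≤ 1 → ξ v ≤ ξ x) → (∀ v, f v ≤ 1 → η v ≤ η x) →
    ∀ v w, ξ v * η w = ξ w * η v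

/-- Point symmetry of the body `{h ≤ 1}` about `p`. -/
def SymAt {n : ℕ} (h : E n → ℝ) (p : E n) : Prop := ∀ v, h v ≤ 1 → h ((2 : ℝ) • p - v) ≤ 1

end Pool.Agent.BAN
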