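import Mathlib
import Pool.Agent.BAN.TDefs
import Pool.Agent.SB.Vol

set_option autoImplicit false

namespace Pool.Agent.BAN

open Pool.Agent.SB (E Iso)
open Pool.Agent.H87Star (IsGauge)

/-- an exposing functional at every boundary point of `K₀` -/
private theorem expo {k : ℕ} {f : E (k + 1) → ℝ} (hf : IsGauge f) {h : E k → ℝ}
    (hS : SurT f h) (x : E k) (hx : h x = 1) :
    ∃ ξ : E k →L[ℝ] ℝ, ∀ v, h v ≤ 1 → v ≠ x → ξ v < ξ x := by
  classical
  obtain ⟨y, hyb, hy⟩ : ∃ y, f y = 1 ∧ ∀ z, f z ≤ 1 → ‖z‖ ≤ ‖y‖ := by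
    have hc := Pool.Agent.SB.isCompact_body hf
    obtain ⟨y, hy1, hy2⟩ := hc.exists_isMaxOn (f := fun z : E (k + 1) => ‖z‖)
      ⟨0, by
        show f 0 ≤ 1
        rw [hf.zero]; norm_num⟩ continuous_norm.continuousOn
    have hy2' : ∀ z, f z ≤ 1 → ‖z‖ ≤ ‖y‖ := fun z hz => hy2 hz
    have hy1' : f y ≤ 1 := hy1
    have hy0 : y ≠ 0 := by
      intro h0
      obtain ⟨w, hw⟩ : ∃ w : E (k + 1), w ≠ 0 := exists_ne 0
      have hfw := hf.pos w hw
      have h1 := hy2' ((f w)⁻¹ • w) (by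
        rw [hf.hom _ (inv_nonneg.2 hfw.le), inv_mul_cancel₀ hfw.ne'])
      rw [h0, norm_zero] at h1
      have h2 := norm_le_zero_iff.1 h1
      rcases smul_eq_zero.1 h2 with h3 | h3
      · exact (inv_ne_zero hfw.ne') h3
      · exact hw h3
    refine ⟨y, ?_, hy2'⟩
    by_contra hne
    have hlt : f y < 1 := lt_of_le_of_ne hy1' hne
    have hfy := hf.pos y hy0
    have h1 := hy2' ((f y)⁻¹ • y) (by
      rw [hf.hom _ (inv_nonneg.2 hfy.le), inv_mul_cancel₀ hfy.ne'])
    rw [norm_smul, Real.norm_of_nonneg (inv_nonneg.2 hfy.le)] at h1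
    have hny : 0 < ‖y‖ := norm_pos_iff.2 hy0
    have h2 : 1 < (f y)⁻¹ := (one_lt_inv₀ hfy).2 hlt
    nlinarith
  obtain ⟨A, c, hT, hAx⟩ := hS x y hx hyb
  refine ⟨(innerSL ℝ y).comp A, fun v hv hvx => ?_⟩
  have h1 : ‖A v + c‖ ≤ ‖y‖ := hy _ ((hT.iff v).2 hv)
  have h2 : A v + c ≠ y := by
    intro h3
    apply hvx
    apply hT.inj
    have h4 : A v + c = A x + c := h3.trans hAx.symm
    exact add_right_cancel h4
  have h3 : 0 < ‖y - (A v + c)‖ ^ 2 := by
    have : 0 < ‖y - (A v + c)‖ := norm_pos_iff.2 (sub_ne_zero.2 (Ne.symm h2))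
    positivity
  rw [@norm_sub_sq_real] at h3
  have h4 : ‖A v + c‖ ^ 2 ≤ ‖y‖ ^ 2 := by
    have := norm_nonneg (A v + c)
    nlinarith
  have h5 : inner ℝ y (A v + c) < inner ℝ y y := by
    rw [real_inner_self_eq_norm_sq]
    nlinarith
  have h6 : inner ℝ y (A v) < inner ℝ y (A x) := by
    rw [inner_add_right] at h5
    rw [← hAx, inner_add_right] at h5
    rw [hAx] at h5
    linarith
  simpa using h6

/-- convexity gives sublinearity -/
private theorem sub_of_conv {n : ℕ} {f : E n → ℝ} (hf : IsGauge f)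
    (hc : ∀ x y, f x ≤ 1 → f y ≤ 1 → ∀ t : ℝ, 0 ≤ t → t ≤ 1 →
      f ((1 - t) • x + t • y) ≤ 1) : Sub f := by
  intro x y
  by_cases hx : x = 0
  · subst hx; rw [zero_add, hf.zero, zero_add]
  by_cases hy : y = 0
  · subst hy; rw [add_zero, hf.zero, add_zero]
  have hfx := hf.pos x hx
  have hfy := hf.pos y hy
  have hs : 0 < f x + f y := by positivity
  have h1 : f ((f x)⁻¹ • x) ≤ 1 := by
    rw [hf.hom _ (inv_nonneg.2 hfx.le), inv_mul_cancel₀ hfx.ne']
  have h2 : f ((f y)⁻¹ • y) ≤ 1 := by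
    rw [hf.hom _ (inv_nonneg.2 hfy.le), inv_mul_cancel₀ hfy.ne']
  have h3 := hc _ _ h1 h2 (f y / (f x + f y)) (by positivity)
    ((div_le_one hs).2 (by linarith))
  have h4 : (1 - f y / (f x + f y)) • ((f x)⁻¹ • x) + (f y / (f x + f y)) • ((f y)⁻¹ • y)
      = (f x + f y)⁻¹ • (x + y) := by
    rw [smul_smul, smul_smul, smul_add]
    congr 2
    · field_simp
      ring
    · field_simp
  rw [h4, hf.hom _ (inv_nonneg.2 hs.le)] at h3
  rw [inv_mul_le_iff₀ hs] at h3
  linarith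

private theorem conv_of_sub {n : ℕ} {f : E n → ℝ} (hf : IsGauge f) (hs : Sub f) :
    ∀ x y, f x ≤ 1 → f y ≤ 1 → ∀ t : ℝ, 0 ≤ t → t ≤ 1 →
      f ((1 - t) • x + t • y) ≤ 1 := by
  intro x y hx hy t h0 h1
  have h2 := hs ((1 - t) • x) (t • y)
  rw [hf.hom _ (by linarith), hf.hom _ h0] at h2
  nlinarith

/-- (i), convexity: farthest point `y₀` of `K`; for `x ∈ ∂K₀` choose `T x = y₀`; the affine function
`v ↦ ⟪T v, y₀⟫` is maximal on `K₀` exactly at `x`. -/
theorem cvx {k : ℕ} (hk : 1 ≤ k) {f : E (k + 1) → ℝ} (hf : IsGauge f) {h : E k → ℝ}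
    (hh : IsGauge h) (hS : SurT f h) : Sub h ∧ Str h := by
  have hconv : ∀ x y, h x ≤ 1 → h y ≤ 1 → ∀ t : ℝ, 0 ≤ t → t ≤ 1 →
      h ((1 - t) • x + t • y) ≤ 1 := by
    intro a b ha hb t h0 h1
    by_contra hcon
    push Not at hcon
    set z := (1 - t) • a + t • b with hz
    have hzp : 0 < h z := by linarith
    have hb1 : h ((h z)⁻¹ • z) = 1 := by
      rw [hh.hom _ (inv_nonneg.2 hzp.le), inv_mul_cancel₀ hzp.ne']
    obtain ⟨ξ, hξ⟩ := expo hf hS _ hb1
    have hle : ∀ v, h v ≤ 1 → ξ v ≤ ξ ((h z)⁻¹ • z) := by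
      intro v hv
      by_cases hvx : v = (h z)⁻¹ • z
      · rw [hvx]
      · exact (hξ v hv hvx).le
    have hz0 : (h z)⁻¹ • z ≠ 0 := by
      intro h3
      rw [h3, hh.zero] at hb1
      norm_num at hb1
    have hpos := hξ 0 (by rw [hh.zero]; norm_num) (Ne.symm hz0)
    rw [map_zero, map_smul, smul_eq_mul] at hpos
    have hzz : 0 < ξ z := by
      have := inv_pos.2 hzp
      by_contra h4
      push Not at h4
      nlinarith
    have h5 : ξ z ≤ ξ ((h z)⁻¹ • z) := by
      have ha' := hle a ha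
      have hb' := hle b hb
      have : ξ z = (1 - t) * ξ a + t * ξ b := by rw [hz]; simp
      rw [this]
      nlinarith
    rw [map_smul, smul_eq_mul] at h5
    have h6 : (h z)⁻¹ < 1 := inv_lt_one_of_one_lt₀ hcon
    nlinarith
  refine ⟨sub_of_conv hh hconv, ?_⟩
  intro x y hx hy hxy
  have hm : h ((1 / 2 : ℝ) • (x + y)) ≤ 1 := by
    have := hconv x y hx hy (1 / 2) (by norm_num) (by norm_num)
    have h2 : (1 - 1 / 2 : ℝ) • x + (1 / 2 : ℝ) • y = (1 / 2 : ℝ) • (x + y) := by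
      rw [smul_add]; norm_num
    rwa [h2] at this
  refine lt_of_le_of_ne hm fun heq => ?_
  obtain ⟨ξ, hξ⟩ := expo hf hS _ heq
  have hx1 : x ≠ (1 / 2 : ℝ) • (x + y) := by
    intro h3
    apply hxy
    have h4 : (2 : ℝ) • x = x + y := by
      conv_lhs => rw [h3]
      rw [smul_smul]; norm_num
    rw [two_smul] at h4
    exact add_left_cancel h4
  have hy1 : y ≠ (1 / 2 : ℝ) • (x + y) := by
    intro h3
    apply hxy
    have h4 : (2 : ℝ) • y = x + y := by
      conv_lhs => rw [h3]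
      rw [smul_smul]; norm_num
    rw [two_smul] at h4
    exact (add_right_cancel h4).symm
  have e1 := hξ x hx hx1
  have e2 := hξ y hy hy1
  have e3 : ξ ((1 / 2 : ℝ) • (x + y)) = (1 / 2) * (ξ x + ξ y) := by simp; ring
  rw [e3] at e1 e2
  linarith

/-- two points lie in a hyperplane section -/
private theorem common {k : ℕ} (hk : 2 ≤ k) {f : E (k + 1) → ℝ} {h : E k → ℝ} (hT : HasT f h)
    (x y : E (k + 1)) : ∃ A c, IsT f h A c ∧ ∃ v w, x = A v + c ∧ y = A w + c := by
  obtain ⟨u, hu0, hux, huy⟩ : ∃ u : E (k + 1), u ≠ 0 ∧ inner ℝ u x = 0 ∧ inner ℝ u y = 0 := by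
    let S : Submodule ℝ (E (k + 1)) := Submodule.span ℝ {x, y}
    have hS : Module.finrank ℝ S ≤ 2 := by
      have := finrank_span_le_card (R := ℝ) ({x, y} : Set (E (k + 1)))
      refine this.trans ?_
      rw [Set.toFinset_insert, Set.toFinset_singleton]
      exact (Finset.card_insert_le _ _).trans (by simp)
    have hne : S ≠ ⊤ := by
      intro h1
      have h2 : Module.finrank ℝ S = k + 1 := by
        rw [h1, finrank_top]; simp
      omega
    have h3 : Sᗮ ≠ ⊥ := by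
      intro h4
      exact hne ((Submodule.orthogonal_eq_bot_iff).1 h4)
    obtain ⟨u, hu, hu0⟩ := Submodule.exists_mem_ne_zero_of_ne_bot h3
    refine ⟨u, hu0, ?_, ?_⟩
    · rw [real_inner_comm]
      exact (Submodule.mem_orthogonal S u).1 hu x (Submodule.subset_span (by simp))
    · rw [real_inner_comm]
      exact (Submodule.mem_orthogonal S u).1 hu y (Submodule.subset_span (by simp))
  obtain ⟨A, c, hA, huA⟩ := hT u hu0
  refine ⟨A, c, hA, ?_⟩
  -- the range of `A` is the hyperplane orthogonal to `u`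
  have hrange : ∀ z : E (k + 1), inner ℝ u z = 0 → ∃ v, A v = z := by
    let H : Submodule ℝ (E (k + 1)) := (Submodule.span ℝ {u})ᗮ
    have hH : Module.finrank ℝ H = k := by
      have h1 := Submodule.finrank_add_finrank_orthogonal (𝕜 := ℝ) (K := Submodule.span ℝ {u})
      rw [finrank_span_singleton hu0] at h1
      have h2 : Module.finrank ℝ (E (k + 1)) = k + 1 := by simp
      have h3 : 1 + Module.finrank ℝ H = k + 1 := h1.trans h2
      omega
    have hle : LinearMap.range (A : E k →ₗ[ℝ] E (k + 1)) ≤ H := by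
      rintro z ⟨v, rfl⟩
      rw [Submodule.mem_orthogonal_singleton_iff_inner_right]
      exact huA v
    have hfr : Module.finrank ℝ (LinearMap.range (A : E k →ₗ[ℝ] E (k + 1))) = k := by
      rw [LinearMap.finrank_range_of_inj hA.inj]; simp
    have heq : LinearMap.range (A : E k →ₗ[ℝ] E (k + 1)) = H :=
      Submodule.eq_of_le_of_finrank_eq hle (by rw [hfr, hH])
    intro z hz
    have : z ∈ LinearMap.range (A : E k →ₗ[ℝ] E (k + 1)) := by
      rw [heq, Submodule.mem_orthogonal_singleton_iff_inner_right]; exact hz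
    obtain ⟨v, hv⟩ := this
    exact ⟨v, hv⟩
  have huc : inner ℝ u c = 0 := by
    obtain ⟨a, ha⟩ := hA.mem
    rw [← ha]; exact huA a
  obtain ⟨v, hv⟩ := hrange (x - c) (by rw [inner_sub_right, hux, huc, sub_zero])
  obtain ⟨w, hw⟩ := hrange (y - c) (by rw [inner_sub_right, huy, huc, sub_zero])
  exact ⟨v, w, by rw [hv]; abel, by rw [hw]; abel⟩

/-- interior points are mapped to interior points -/
private theorem lt_of_lt {k : ℕ} {f : E (k + 1) → ℝ} (hf : IsGauge f) {h : E k → ℝ}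
    (hh : IsGauge h) {A : E k →L[ℝ] E (k + 1)} {c : E (k + 1)} (hT : IsT f h A c) (m : E k)
    (hm : h m < 1) : f (A m + c) < 1 := by
  refine lt_of_le_of_ne ((hT.iff m).2 hm.le) fun heq => ?_
  obtain ⟨a, ha⟩ := hT.mem
  have hcont : Continuous fun t : ℝ => h (m + t • (m + a)) := by
    exact hh.cont.comp (by fun_prop)
  have h0 : (fun t : ℝ => h (m + t • (m + a))) 0 < 1 := by simpa using hm
  have hev : ∀ᶠ t : ℝ in nhds 0, h (m + t • (m + a)) < 1 :=
    hcont.continuousAt.eventually_lt continuousAt_const h0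
  obtain ⟨ε, hε, hb⟩ := Metric.eventually_nhds_iff.1 hev
  have h1 := hb (y := ε / 2) (by rw [Real.dist_eq, sub_zero, abs_of_pos (by positivity)]; linarith)
  have h2 := (hT.iff _).2 h1.le
  have h3 : A (m + (ε / 2) • (m + a)) + c = (1 + ε / 2) • (A m + c) := by
    rw [map_add, map_smul, map_add, ha, add_smul, one_smul]
    abel
  rw [h3, hf.hom _ (by positivity), heq] at h2
  linarith

/-- convexity of `K` from that of its hyperplane sections -/
theorem cvxK {k : ℕ} (hk : 2 ≤ k) {f : E (k + 1) → ℝ} (hf : IsGauge f) {h : E k → ℝ}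
    (hh : IsGauge h) (hT : HasT f h) (h1 : Sub h) (h2 : Str h) : Sub f ∧ Str f := by
  have hc := conv_of_sub hh h1
  refine ⟨sub_of_conv hf ?_, ?_⟩
  · intro x y hx hy t ht0 ht1
    obtain ⟨A, c, hA, v, w, rfl, rfl⟩ := common hk hT x y
    have hv := (hA.iff v).1 hx
    have hw := (hA.iff w).1 hy
    have h3 := (hA.iff _).2 (hc v w hv hw t ht0 ht1)
    have h4 : A ((1 - t) • v + t • w) + c = (1 - t) • (A v + c) + t • (A w + c) := by
      rw [map_add, map_smul, map_smul, smul_add, smul_add]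
      have : c = (1 - t) • c + t • c := by rw [← add_smul]; simp
      conv_lhs => rw [this]
      abel
    rwa [h4] at h3
  · intro x y hx hy hxy
    obtain ⟨A, c, hA, v, w, rfl, rfl⟩ := common hk hT x y
    have hv := (hA.iff v).1 hx
    have hw := (hA.iff w).1 hy
    have hvw : v ≠ w := fun h3 => hxy (by rw [h3])
    have h3 := lt_of_lt hf hh hA _ (h2 v w hv hw hvw)
    have h4 : A ((1 / 2 : ℝ) • (v + w)) + c = (1 / 2 : ℝ) • (A v + c + (A w + c)) := by
      rw [map_smul, map_add]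
      simp only [smul_add]
      have : c = (1 / 2 : ℝ) • c + (1 / 2 : ℝ) • c := by rw [← add_smul]; norm_num
      conv_lhs => rw [this]
      abel
    rwa [h4] at h3

end Pool.Agent.BAN
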