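import Mathlib
import Pool.Agent.BAN.TDefs

set_option autoImplicit false

namespace Pool.Agent.BAN

open Set Metric
open Pool.Agent.SB (E Iso)
open Pool.Agent.H87Star (IsGauge)

/-- An injective linear map into a hyperplane is onto it. -/
theorem dich_onto {k : ℕ} {u : E (k + 1)} (hu : u ≠ 0) (A : E k →L[ℝ] E (k + 1))
    (hA : ∀ v, inner ℝ u (A v) = 0) (hinj : Function.Injective A) (w : E (k + 1))
    (hw : inner ℝ u w = 0) : ∃ v, A v = w := by
  have h1 : Module.finrank ℝ (LinearMap.range (A : E k →ₗ[ℝ] E (k + 1))) = k := by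
    rw [LinearMap.finrank_range_of_inj hinj]
    simp
  have h2 : LinearMap.range (A : E k →ₗ[ℝ] E (k + 1)) ≤ (ℝ ∙ u)ᗮ := by
    rintro _ ⟨v, rfl⟩
    rw [Submodule.mem_orthogonal_singleton_iff_inner_right]
    exact hA v
  have h3 : Module.finrank ℝ ((ℝ ∙ u)ᗮ : Submodule ℝ (E (k + 1))) = k := by
    have := Submodule.finrank_add_finrank_orthogonal (ℝ ∙ u)
    rw [finrank_span_singleton hu] at this
    simp only [finrank_euclideanSpace, Fintype.card_fin] at this
    omega
  have h4 := Submodule.eq_of_le_of_finrank_eq h2 (by rw [h1, h3])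
  have h5 : w ∈ LinearMap.range (A : E k →ₗ[ℝ] E (k + 1)) := by
    rw [h4, Submodule.mem_orthogonal_singleton_iff_inner_right]
    exact hw
  obtain ⟨v, hv⟩ := h5
  exact ⟨v, hv⟩

/-- A nonzero vector orthogonal to two given ones. -/
theorem dich_orth {n : ℕ} (hn : 3 ≤ n) (v w : E n) : ∃ u : E n, u ≠ 0 ∧ inner ℝ u v = 0 ∧
    inner ℝ u w = 0 := by
  classical
  have h1 : Module.finrank ℝ (Submodule.span ℝ ({v, w} : Set (E n))) ≤ 2 := by
    have h2 := finrank_span_finset_le_card (R := ℝ) ({v, w} : Finset (E n))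
    have h3 : ((({v, w} : Finset (E n)) : Set (E n))) = {v, w} := by simp
    rw [h3] at h2
    exact h2.trans (Finset.card_le_two)
  have h2 := Submodule.finrank_add_finrank_orthogonal (Submodule.span ℝ ({v, w} : Set (E n)))
  simp only [finrank_euclideanSpace, Fintype.card_fin] at h2
  have h3 : (Submodule.span ℝ ({v, w} : Set (E n)))ᗮ ≠ ⊥ := by
    intro h
    rw [h, finrank_bot] at h2
    omega
  obtain ⟨u, hu, hu0⟩ := Submodule.exists_mem_ne_zero_of_ne_bot h3
  refine ⟨u, hu0, ?_, ?_⟩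
  · rw [real_inner_comm]
    exact (Submodule.mem_orthogonal _ _).1 hu v (Submodule.subset_span (by simp))
  · rw [real_inner_comm]
    exact (Submodule.mem_orthogonal _ _).1 hu w (Submodule.subset_span (by simp))

/-- The centre of a section through a point of maximal ratio. -/
theorem dich_cen {k : ℕ} {f : E (k + 1) → ℝ} (hf : IsGauge f) {h : E k → ℝ} (h1 : Sub f)
    (h2 : Str f) {p : E k} (hp : SymAt h p) {t : ℝ} (ht : 1 < t)
    (hmax : ∀ v, f (-v) ≤ t * f v) {y : E (k + 1)} (hy : f y = 1) (hy' : f (-y) = t)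
    (A : E k →L[ℝ] E (k + 1)) (c : E (k + 1)) (hA : IsT f h A c) (x : E k) (hx : A x = y) :
    A p + c = ((t - 1) / (2 * t)) • y := by
  have ht0 : 0 < t := by linarith
  obtain ⟨v₀, hv₀⟩ := hA.mem
  set q : E (k + 1) := A p + c with hq
  have hqA : q = A (p + v₀) := by rw [hq, map_add, hv₀]
  -- symmetry of the section
  have hsym : ∀ v : E k, f (A v) ≤ 1 → f ((2 : ℝ) • q - A v) ≤ 1 := by
    intro v hv
    have e1 : A v = A (v - v₀) + c := by rw [map_sub, hv₀]; abel
    rw [e1] at hv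
    have e2 := hp _ ((hA.iff _).1 hv)
    have e3 := (hA.iff _).2 e2
    have e4 : A ((2 : ℝ) • p - (v - v₀)) + c = (2 : ℝ) • q - A v := by
      rw [hq, map_sub, map_sub, map_smul, hv₀]
      module
    rwa [e4] at e3
  have hq1 : f q ≤ 1 / 2 := by
    have := hsym 0 (by rw [map_zero, hf.zero]; norm_num)
    rw [map_zero, sub_zero, hf.hom _ (by norm_num)] at this
    linarith
  -- the point on the other side
  have hyp : f (-((1 / t) • y)) = 1 := by
    rw [← smul_neg, hf.hom _ (by positivity), hy', one_div, inv_mul_cancel₀ ht0.ne']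
  obtain ⟨z1, hz1⟩ : ∃ z : E (k + 1), z = (2 : ℝ) • q + (1 / t) • y := ⟨_, rfl⟩
  obtain ⟨z2, hz2⟩ : ∃ z : E (k + 1), z = (2 : ℝ) • q + (1 / t) • z1 := ⟨_, rfl⟩
  have hcontr : ∀ v : E k, f (A v) ≤ 1 → f ((2 : ℝ) • q + (1 / t) • A v) ≤ 1 := by
    intro v hv
    have e1 : f (A (-((1 / t) • v))) ≤ 1 := by
      rw [map_neg, map_smul, ← smul_neg, hf.hom _ (by positivity)]
      have := hmax (A v)
      rw [one_div, inv_mul_le_iff₀ ht0, mul_one]
      nlinarith
    have e2 := hsym _ e1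
    have e3 : (2 : ℝ) • q - A (-((1 / t) • v)) = (2 : ℝ) • q + (1 / t) • A v := by
      rw [map_neg, map_smul]; abel
    rwa [e3] at e2
  have hz1A : z1 = A ((2 : ℝ) • (p + v₀) + (1 / t) • x) := by
    rw [hz1, map_add, map_smul, map_smul, ← hqA, hx]
  have hz1f : f z1 ≤ 1 := by
    have := hcontr x (by rw [hx]; exact hy.le)
    rwa [hx, ← hz1] at this
  have hz2f : f z2 ≤ 1 := by
    have := hcontr _ (by rw [← hz1A]; exact hz1f)
    rwa [← hz1A, ← hz2] at this
  -- z1 is a boundary point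
  have hz1b : ¬ f z1 < 1 := by
    intro hlt
    -- a slightly larger point
    obtain ⟨δ, hδ, hδ1⟩ : ∃ δ : ℝ, 0 < δ ∧ f (z1 + δ • (z1 - q)) ≤ 1 := by
      have hnn := hf.nonneg (z1 - q)
      refine ⟨(1 - f z1) / (f (z1 - q) + 1), div_pos (by linarith) (by linarith), ?_⟩
      refine (h1 _ _).trans ?_
      rw [hf.hom _ (div_nonneg (by linarith) (by linarith))]
      have : (1 - f z1) / (f (z1 - q) + 1) * f (z1 - q) ≤ 1 - f z1 := by
        rw [div_mul_eq_mul_div, div_le_iff₀ (by linarith)]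
        nlinarith
      linarith
    have e1 : z1 + δ • (z1 - q) = A (((2 : ℝ) • (p + v₀) + (1 / t) • x) +
        δ • (((2 : ℝ) • (p + v₀) + (1 / t) • x) - (p + v₀))) := by
      rw [map_add, map_smul, map_sub, ← hz1A, ← hqA]
    have e2 := hsym _ (by rw [← e1]; exact hδ1)
    rw [← e1] at e2
    have e3 : (2 : ℝ) • q - (z1 + δ • (z1 - q)) =
        (1 + δ) • (-((1 / t) • y)) - δ • q := by rw [hz1]; module
    rw [e3] at e2
    have e4 : (1 + δ) • (-((1 / t) • y)) = ((1 + δ) • (-((1 / t) • y)) - δ • q) + δ • q := by abel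
    have e5 := h1 ((1 + δ) • (-((1 / t) • y)) - δ • q) (δ • q)
    rw [← e4, hf.hom _ (by linarith), hyp, hf.hom _ hδ.le] at e5
    nlinarith
  have hz1e : f z1 = 1 := le_antisymm hz1f (not_lt.1 hz1b)
  -- strict convexity
  have hcomb : (t + 1) • z1 = y + t • z2 := by
    obtain ⟨r, hr⟩ : ∃ r : ℝ, r = 1 / t := ⟨_, rfl⟩
    have htr : 1 - t * r = 0 := by rw [hr]; field_simp; norm_num
    rw [hz2, hz1, ← hr, ← sub_eq_zero]
    have e1 : (t + 1) • ((2 : ℝ) • q + r • y) -
        (y + t • ((2 : ℝ) • q + r • ((2 : ℝ) • q + r • y))) =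
        (1 - t * r) • ((2 : ℝ) • q + (r - 1) • y) := by module
    rw [e1, htr, zero_smul]
  have hyz : y = z2 := by
    by_contra hne
    have hm := h2 y z2 hy.le hz2f hne
    set m : E (k + 1) := (1 / 2 : ℝ) • (y + z2) with hmdef
    have e1 : (t + 1) • z1 = (2 : ℝ) • m + (t - 1) • z2 := by
      rw [hcomb, hmdef]; module
    have e2 : f ((t + 1) • z1) ≤ 2 * f m + (t - 1) * f z2 := by
      rw [e1]
      refine (h1 _ _).trans ?_
      rw [hf.hom 2 (by norm_num) m, hf.hom (t - 1) (by linarith) z2]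
    rw [hf.hom _ (by linarith), hz1e] at e2
    nlinarith
  have hyz1 : z1 = y := by
    have e1 : (t + 1) • z1 = (t + 1) • y := by
      rw [hcomb, ← hyz]; module
    have h3 : (t + 1) ≠ 0 := by linarith
    exact smul_right_injective _ h3 e1
  rw [hyz1] at hz1
  have e1 : (2 : ℝ) • q = (1 - 1 / t) • y := by
    rw [sub_smul, one_smul]
    exact (sub_eq_of_eq_add hz1).symm
  have e2 : q = (1 / 2 : ℝ) • ((2 : ℝ) • q) := by module
  rw [e2, e1, smul_smul]
  congr 1
  field_simp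

/-- (iii) -/
theorem dich {k : ℕ} (hk : 2 ≤ k) {f : E (k + 1) → ℝ} (hf : IsGauge f) {h : E k → ℝ}
    (hh : IsGauge h) (hT : HasT f h) (hS : SurT f h) (h1 : Sub f) (h2 : Str f) {p : E k}
    (hp : SymAt h p) :
    (∀ y, f (-y) = f y) ∨ ∃ a : E (k + 1), a ≠ 0 ∧ SymAt f a ∧
      ∀ x, h x = 1 → ∃ A c, IsT f h A c ∧ A p + c = a ∧ ∃ κ : ℝ, A x + c = κ • a := by
  have hne : (sphere (0 : E (k + 1)) 1).Nonempty := by
    have : Nontrivial (E (k + 1)) := by
      apply Module.nontrivial_of_finrank_pos (R := ℝ)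
      simp
    exact NormedSpace.sphere_nonempty.2 zero_le_one
  have hsph : ∀ v ∈ sphere (0 : E (k + 1)) 1, v ≠ 0 := by
    intro v hv h
    rw [h] at hv
    simp at hv
  have hcont : ContinuousOn (fun v : E (k + 1) => f (-v) / f v) (sphere (0 : E (k + 1)) 1) := by
    apply ContinuousOn.div (hf.cont.comp continuous_neg).continuousOn hf.cont.continuousOn
    intro v hv
    exact (hf.pos v (hsph v hv)).ne'
  obtain ⟨θ, hθ, hmax'⟩ := (isCompact_sphere (0 : E (k + 1)) 1).exists_isMaxOn hne hcont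
  have hθ0 := hsph θ hθ
  set t : ℝ := f (-θ) / f θ with htdef
  have hmax : ∀ v, f (-v) ≤ t * f v := by
    intro v
    by_cases hv : v = 0
    · rw [hv, neg_zero, hf.zero, mul_zero]
    have hv1 : 0 < ‖v‖ := norm_pos_iff.2 hv
    have h1 : ‖v‖⁻¹ • v ∈ sphere (0 : E (k + 1)) 1 := by
      rw [mem_sphere_zero_iff_norm, norm_smul, norm_inv, norm_norm, inv_mul_cancel₀ hv1.ne']
    have h2 : f (-(‖v‖⁻¹ • v)) / f (‖v‖⁻¹ • v) ≤ t := hmax' h1
    rw [← smul_neg, hf.hom _ (by positivity), hf.hom _ (by positivity),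
      mul_div_mul_left _ _ (inv_ne_zero hv1.ne'), div_le_iff₀ (hf.pos v hv)] at h2
    exact h2
  rcases le_or_gt t 1 with ht1 | ht1
  · left
    have h1 : ∀ v, f (-v) ≤ f v := by
      intro v
      have := hmax v
      nlinarith [hf.nonneg v]
    intro v
    apply le_antisymm (h1 v)
    have := h1 (-v)
    rwa [neg_neg] at this
  right
  have ht0 : 0 < t := by linarith
  have hfθ := hf.pos θ hθ0
  obtain ⟨y, hydef⟩ : ∃ y : E (k + 1), y = (f θ)⁻¹ • θ := ⟨_, rfl⟩
  have hy : f y = 1 := by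
    rw [hydef, hf.hom _ (inv_nonneg.2 hfθ.le), inv_mul_cancel₀ hfθ.ne']
  have hy' : f (-y) = t := by
    rw [hydef, ← smul_neg, hf.hom _ (inv_nonneg.2 hfθ.le), htdef, div_eq_inv_mul]
  have hy0 : y ≠ 0 := by
    intro h
    rw [h, hf.zero] at hy
    norm_num at hy
  have hcen := dich_cen hf h1 h2 hp ht1 hmax hy hy'
  have hcpos : 0 < (t - 1) / (2 * t) := div_pos (by linarith) (by linarith)
  refine ⟨((t - 1) / (2 * t)) • y, smul_ne_zero hcpos.ne' hy0, ?_, ?_⟩
  · intro w hw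
    obtain ⟨u, hu, huy, huw⟩ := dich_orth (by omega) y w
    obtain ⟨A, c, hA, hAu⟩ := hT u hu
    obtain ⟨x, hx⟩ := dich_onto hu A hAu hA.inj y huy
    obtain ⟨v₀, hv₀⟩ := hA.mem
    obtain ⟨v, hv⟩ := dich_onto hu A hAu hA.inj w huw
    rw [← hcen A c hA x hx]
    have e1 : h (v - v₀) ≤ 1 := by
      rw [← hA.iff, map_sub, hv, hv₀, sub_add_cancel]
      exact hw
    have e2 := (hA.iff _).2 (hp _ e1)
    have e3 : A ((2 : ℝ) • p - (v - v₀)) + c = (2 : ℝ) • (A p + c) - w := by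
      rw [map_sub, map_sub, map_smul, hv₀, hv]
      module
    rwa [e3] at e2
  · intro x hx
    -- the near point
    have hyp : f (-((1 / t) • y)) = 1 := by
      rw [← smul_neg, hf.hom _ (by positivity), hy', one_div, inv_mul_cancel₀ ht0.ne']
    obtain ⟨A, c, hA, hAx⟩ := hS x _ hx hyp
    obtain ⟨v₀, hv₀⟩ := hA.mem
    refine ⟨A, c, hA, hcen A c hA ((-t) • (x + v₀)) ?_, -(2 / (t - 1)), ?_⟩
    · rw [map_smul, map_add, hv₀, hAx, ← smul_neg, smul_smul, smul_neg]
      have : -t * (1 / t) = -1 := by field_simp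
      rw [this]
      module
    · rw [hAx, smul_smul, ← neg_smul]
      congr 1
      have : t - 1 ≠ 0 := by linarith
      field_simp

end Pool.Agent.BAN
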