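import Mathlib
import Pool.Agent.BAN.TDefs

set_option autoImplicit false

namespace Pool.Agent.BAN

open Pool.Agent.SB (E Iso)
open Pool.Agent.H87Star (IsGauge)

/-- The nearest point of the boundary of a star body. -/
theorem smo_nearest {n : ℕ} {f : E (n + 1) → ℝ} (hf : IsGauge f) :
    ∃ y : E (n + 1), f y = 1 ∧ ∀ z, ‖z‖ ≤ ‖y‖ → f z ≤ 1 := by
  classical
  -- the maximum of `f` on the unit sphere
  have hne : (Metric.sphere (0 : E (n + 1)) 1).Nonempty :=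
    ⟨EuclideanSpace.single 0 1, by simp⟩
  obtain ⟨z, hz, hmax⟩ := (isCompact_sphere (0 : E (n + 1)) 1).exists_isMaxOn hne
    hf.cont.continuousOn
  have hz1 : ‖z‖ = 1 := by simpa using hz
  have hz0 : z ≠ 0 := by
    intro h
    rw [h, norm_zero] at hz1
    exact zero_ne_one hz1
  have hfz : 0 < f z := hf.pos z hz0
  refine ⟨(f z)⁻¹ • z, ?_, ?_⟩
  · rw [hf.hom _ (inv_nonneg.2 hfz.le), inv_mul_cancel₀ hfz.ne']
  · intro y hy
    rw [norm_smul, Real.norm_eq_abs, abs_of_pos (inv_pos.2 hfz), hz1, mul_one] at hy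
    by_cases hy0 : y = 0
    · rw [hy0, hf.zero]
      exact zero_le_one
    · have hyn : 0 < ‖y‖ := norm_pos_iff.2 hy0
      have h1 : f (‖y‖⁻¹ • y) ≤ f z := hmax (by
        simp [norm_smul, inv_mul_cancel₀ hyn.ne'])
      rw [hf.hom _ (inv_nonneg.2 hyn.le)] at h1
      have h2 : f y ≤ ‖y‖ * f z := by
        rw [inv_mul_le_iff₀ hyn] at h1
        exact h1
      calc f y ≤ ‖y‖ * f z := h2
        _ ≤ (f z)⁻¹ * f z := mul_le_mul_of_nonneg_right hy hfz.le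
        _ = 1 := inv_mul_cancel₀ hfz.ne'

/-- A linear functional maximised on an ellipsoid `‖A u‖ ≤ ‖A u₁‖` at `u₁`. -/
theorem smo_ellipsoid {k m : ℕ} (A : E k →L[ℝ] E m) {u₁ : E k} (h0 : A u₁ ≠ 0)
    (ξ : E k →L[ℝ] ℝ) (hξ : ∀ u, ‖A u‖ ≤ ‖A u₁‖ → ξ u ≤ ξ u₁) (v : E k) :
    ξ v * ‖A u₁‖ ^ 2 = ξ u₁ * inner ℝ (A u₁) (A v) := by
  have hr : 0 < ‖A u₁‖ := norm_pos_iff.2 h0
  have hpos : 0 ≤ ξ u₁ := by
    have := hξ 0 (by rw [map_zero, norm_zero]; exact hr.le)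
    rwa [map_zero] at this
  -- orthogonal directions are in the kernel
  have key : ∀ u, inner ℝ (A u₁) (A u) = (0 : ℝ) → ξ u = 0 := by
    intro u hu
    set K : ℝ := ‖A u‖ ^ 2 / (2 * ‖A u₁‖ ^ 2) * ξ u₁ with hK
    have hK0 : 0 ≤ K := by positivity
    have h1 : ∀ t : ℝ, t * ξ u ≤ t ^ 2 * K := by
      intro t
      set s : ℝ := 1 + t ^ 2 * ‖A u‖ ^ 2 / (2 * ‖A u₁‖ ^ 2) with hs
      have hs0 : 0 < s := by positivity
      have h2 : ‖A (s⁻¹ • (u₁ + t • u))‖ ≤ ‖A u₁‖ := by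
        rw [map_smul, norm_smul, Real.norm_eq_abs, abs_of_pos (inv_pos.2 hs0),
          inv_mul_le_iff₀ hs0]
        refine (pow_le_pow_iff_left₀ (norm_nonneg _) (by positivity) two_ne_zero).1 ?_
        rw [map_add, map_smul, norm_add_sq_real, inner_smul_right, hu, norm_smul,
          Real.norm_eq_abs, mul_pow, sq_abs, mul_pow, hs]
        have h3 : (1 + t ^ 2 * ‖A u‖ ^ 2 / (2 * ‖A u₁‖ ^ 2)) ^ 2 * ‖A u₁‖ ^ 2 =
            ‖A u₁‖ ^ 2 + t ^ 2 * ‖A u‖ ^ 2 + (t ^ 2 * ‖A u‖ ^ 2) ^ 2 / (4 * ‖A u₁‖ ^ 2) := by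
          field_simp
          ring
        rw [h3]
        have h4 : 0 ≤ (t ^ 2 * ‖A u‖ ^ 2) ^ 2 / (4 * ‖A u₁‖ ^ 2) := by positivity
        linarith
      have h3 := hξ _ h2
      rw [map_smul, map_add, map_smul, smul_eq_mul, smul_eq_mul, inv_mul_le_iff₀ hs0] at h3
      have h4 : s * ξ u₁ = ξ u₁ + t ^ 2 * K := by
        rw [hs, hK]
        ring
      linarith
    have h2 := h1 (ξ u / (K + 1))
    have hK1 : 0 < K + 1 := by linarith
    have h3 : ξ u / (K + 1) * ξ u = ξ u ^ 2 * (K + 1) / (K + 1) ^ 2 := by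
      field_simp
    have h4 : (ξ u / (K + 1)) ^ 2 * K = ξ u ^ 2 * K / (K + 1) ^ 2 := by
      field_simp
    rw [h3, h4, div_le_div_iff_of_pos_right (by positivity)] at h2
    have h5 : ξ u ^ 2 ≤ 0 := by linarith
    exact pow_eq_zero_iff two_ne_zero |>.1 (le_antisymm h5 (sq_nonneg _))
  have h1 := key (‖A u₁‖ ^ 2 • v - (inner ℝ (A u₁) (A v) : ℝ) • u₁) (by
    rw [map_sub, map_smul, map_smul, inner_sub_right, inner_smul_right, inner_smul_right,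
      real_inner_self_eq_norm_sq]
    ring)
  rw [map_sub, map_smul, map_smul, smul_eq_mul, smul_eq_mul] at h1
  linarith

/-- (i), smoothness: nearest point `y₁` of `∂K`; for `x ∈ ∂K₀` choose `T x = y₁`; the ellipsoid
`{v | ‖T v‖ ≤ ‖y₁‖}` lies in `K₀` and has `x` on its boundary. -/
theorem smo {k : ℕ} (hk : 1 ≤ k) {f : E (k + 1) → ℝ} (hf : IsGauge f) {h : E k → ℝ}
    (hh : IsGauge h) (hS : SurT f h) : Smo h := by
  intro x hx ξ η hξ hη v w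
  obtain ⟨y, hy, hball⟩ := smo_nearest hf
  obtain ⟨A, c, hT, hxy⟩ := hS x y hx hy
  obtain ⟨w₀, rfl⟩ := hT.mem
  have hy0 : y ≠ 0 := by
    intro h0
    rw [h0, hf.zero] at hy
    exact zero_ne_one hy
  have hAx : A (x + w₀) = y := by rw [map_add, hxy]
  have hsup : ∀ ζ : E k →L[ℝ] ℝ, (∀ v, h v ≤ 1 → ζ v ≤ ζ x) →
      ∀ u, ‖A u‖ ≤ ‖A (x + w₀)‖ → ζ u ≤ ζ (x + w₀) := by
    intro ζ hζ u hu
    have h1 : f (A u) ≤ 1 := hball _ (by rw [← hAx]; exact hu)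
    have h2 : h (u - w₀) ≤ 1 := by
      rw [← hT.iff, map_sub, sub_add_cancel]
      exact h1
    have h3 := hζ _ h2
    rw [map_sub] at h3
    rw [map_add]
    linarith
  have h0 : A (x + w₀) ≠ 0 := by rw [hAx]; exact hy0
  have hr : 0 < ‖A (x + w₀)‖ ^ 2 := pow_pos (norm_pos_iff.2 h0) 2
  have e1 := smo_ellipsoid A h0 ξ (hsup ξ hξ)
  have e2 := smo_ellipsoid A h0 η (hsup η hη)
  have h5 : (ξ v * η w) * (‖A (x + w₀)‖ ^ 2) ^ 2 = (ξ w * η v) * (‖A (x + w₀)‖ ^ 2) ^ 2 := by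
    calc (ξ v * η w) * (‖A (x + w₀)‖ ^ 2) ^ 2
        = (ξ v * ‖A (x + w₀)‖ ^ 2) * (η w * ‖A (x + w₀)‖ ^ 2) := by ring
      _ = (ξ w * ‖A (x + w₀)‖ ^ 2) * (η v * ‖A (x + w₀)‖ ^ 2) := by
          rw [e1 v, e2 w, e1 w, e2 v]
          ring
      _ = (ξ w * η v) * (‖A (x + w₀)‖ ^ 2) ^ 2 := by ring
  exact mul_right_cancel₀ (pow_ne_zero 2 hr.ne') h5

end Pool.Agent.BAN
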