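import Mathlib
import Pool.Agent.BAN.TDefs
import Pool.Agent.BNH.LCont
import Pool.Agent.H64D.Surj

set_option autoImplicit false

namespace Pool.Agent.BAN

open Pool.Agent.SB (E Iso)
open Pool.Agent.H87Star (IsGauge)

/-- every hyperplane section is an image of the model section -/
theorem hasT {k : ℕ} {f : E (k + 1) → ℝ} (hf : IsGauge f)
    (hfr : ∀ F F' : E k →L[ℝ] E (k + 1), Iso F → Iso F' →
      ∃ (g : E k ≃L[ℝ] E k) (c : E k), ∀ v, f (F' (g v + c)) ≤ 1 ↔ f (F v) ≤ 1)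
    (F₀ : E k →L[ℝ] E (k + 1)) (hF₀ : Iso F₀) : HasT f (fun v => f (F₀ v)) := by
  have _ := hf
  intro u hu
  obtain ⟨G, hG0, -⟩ := H64D.exists_orth u hu
  obtain ⟨g, c, hg⟩ := hfr F₀ G.toContinuousLinearMap hF₀ (fun v => G.norm_map v)
  refine ⟨G.toContinuousLinearMap.comp (g : E k →L[ℝ] E k), G c, ⟨?_, ?_, fun v => ?_⟩,
    fun v => hG0 (g v)⟩
  · exact G.injective.comp g.injective
  · refine ⟨g.symm c, ?_⟩
    show G (g (g.symm c)) = G c
    rw [g.apply_symm_apply]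
  · have h1 := hg v
    rw [← h1]
    show f (G (g v) + G c) ≤ 1 ↔ f (G (g v + c)) ≤ 1
    rw [map_add]

theorem mem_frontier {k n : ℕ} {f : E n → ℝ} (hf : IsGauge f) (F : E k →L[ℝ] E n) {x b : E k}
    (h : f (F (x + b)) = 1) : x ∈ frontier {v | f (F (v + b)) ≤ 1} := by
  refine ⟨subset_closure h.le, fun hint => ?_⟩
  have h1 : Filter.Tendsto (fun δ : ℝ => x + δ • (x + b)) (nhds 0) (nhds x) := by
    have : Continuous fun δ : ℝ => x + δ • (x + b) := by fun_prop
    have h2 := this.tendsto 0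
    simpa using h2
  have h2 := h1.eventually (mem_interior_iff_mem_nhds.1 hint)
  have h3 : ∀ᶠ δ : ℝ in nhdsWithin 0 (Set.Ioi 0), f (F (x + δ • (x + b) + b)) ≤ 1 :=
    h2.filter_mono nhdsWithin_le_nhds
  obtain ⟨δ, hδ, hδ0⟩ := (h3.and self_mem_nhdsWithin).exists
  have hδp : (0 : ℝ) < δ := hδ0
  have h4 : x + δ • (x + b) + b = (1 + δ) • (x + b) := by
    rw [add_smul, one_smul]
    abel
  rw [h4, map_smul, hf.hom _ (by linarith), h] at hδ
  linarith

/-- (S), from the continuous lift (BNH/LFull) and Brouwer (CC57/Brouwer) -/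
theorem surT {k : ℕ} (hk : 2 ≤ k) {f : E (k + 1) → ℝ} (hf : IsGauge f)
    (hfr : ∀ F F' : E k →L[ℝ] E (k + 1), Iso F → Iso F' →
      ∃ (g : E k ≃L[ℝ] E k) (c : E k), ∀ v, f (F' (g v + c)) ≤ 1 ↔ f (F v) ≤ 1)
    (F₀ : E k →L[ℝ] E (k + 1)) (hF₀ : Iso F₀) : SurT f (fun v => f (F₀ v)) := by
  intro x y hx hy
  have hf0 : f 0 = 0 := by
    have h := hf.hom 0 le_rfl (0 : E (k + 1))
    simpa using h
  have hy0 : y ≠ 0 := by
    rintro rfl
    rw [hf0] at hy
    exact zero_ne_one hy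
  have hyp : 0 < ‖y‖ := norm_pos_iff.2 hy0
  obtain ⟨G, hG0, hG1⟩ := H64D.exists_orth y hy0
  set e : E (k + 1) := -(‖y‖⁻¹ • y) with he
  have hen : ‖e‖ = 1 := by
    rw [he, norm_neg, norm_smul, norm_inv, norm_norm]
    exact inv_mul_cancel₀ hyp.ne'
  have heG : ∀ x, inner ℝ e (G x) = 0 := by
    intro x
    rw [he, inner_neg_left, real_inner_smul_left, hG0, mul_zero, neg_zero]
  have hie : ∀ w, inner ℝ e ((‖w‖ ^ 2 - 1) • e + G w) = ‖w‖ ^ 2 - 1 := by
    intro w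
    rw [inner_add_right, real_inner_smul_right, heG, real_inner_self_eq_norm_sq, hen]
    ring
  have hno : ∀ w, ‖(‖w‖ ^ 2 - 1) • e + G w‖ ^ 2 = (‖w‖ ^ 2 - 1) ^ 2 + ‖w‖ ^ 2 := by
    intro w
    rw [norm_add_sq_real, real_inner_smul_left, heG, norm_smul, hen, G.norm_map,
      Real.norm_eq_abs, mul_one, sq_abs]
    ring
  set b := SB.cen (SB.sec f F₀) with hb
  obtain ⟨A, c, hAc, hcc, hAll⟩ := BNH.cont_lift (by omega) hf hfr F₀ hF₀
    (D := Metric.closedBall (0 : E k) 2) (isCompact_closedBall _ _)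
    (fun w hw t ht => by
      rw [mem_closedBall_zero_iff] at hw ⊢
      rw [norm_smul, Real.norm_eq_abs, abs_of_nonneg ht.1]
      nlinarith [norm_nonneg w, ht.1, ht.2])
    e hen G.toContinuousLinearMap (fun v => G.norm_map v) heG
    (fun w => (‖w‖ ^ 2 - 1) • e + G w)
    (by
      have h1 : Continuous fun w : E k => ‖w‖ ^ 2 - 1 :=
        (continuous_norm.pow 2).sub continuous_const
      exact ((h1.smul continuous_const).add G.continuous).continuousOn)
    (fun w _ h0 => by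
      have h1 := hno w
      rw [h0, norm_zero] at h1
      nlinarith [sq_nonneg ‖w‖, sq_nonneg (‖w‖ ^ 2 - 1)])
    (fun w _ r hr h0 => by
      have h1 := hno w
      have h2 := hie w
      rw [h0, norm_smul, hen, Real.norm_eq_abs, mul_one, sq_abs] at h1
      rw [h0, real_inner_smul_right, real_inner_self_eq_norm_sq, hen] at h2
      have h3 : r = ‖w‖ ^ 2 - 1 := by linarith
      rw [h3] at h1 hr
      nlinarith)
  have hxf : x - b ∈ frontier {v | f (F₀ (v + b)) ≤ 1} :=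
    mem_frontier hf F₀ (by rw [sub_add_cancel]; exact hx)
  obtain ⟨w, hw, hwy⟩ := H64D.surj_lift hf.cont (fun s y hs => hf.hom s hs y) hy G hG0 hG1 A c
    hAc hcc (fun w hw => (hAll w hw).1) (fun w hw => (hAll w hw).2.1)
    (fun w hw => (hAll w hw).2.2.2.2) hxf
  obtain ⟨-, -, h3, ⟨b', h4⟩, h5⟩ := hAll w hw
  refine ⟨A w, c w - A w b, ⟨h3, ⟨-b' - b, ?_⟩, fun v => ?_⟩, ?_⟩
  · rw [map_sub, map_neg, eq_neg_of_add_eq_zero_left h4, neg_neg]
  · have h6 := h5 (v - b)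
    rw [sub_add_cancel, map_sub] at h6
    have h7 : A w v + (c w - A w b) = A w v - A w b + c w := by abel
    rw [h7]
    exact h6
  · rw [← hwy, map_sub]
    abel

end Pool.Agent.BAN
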