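import Mathlib
import Pool.Agent.BAN.TDefs
import Pool.Agent.BAN.Dich
import Pool.Agent.BNH.LCont
import Pool.Agent.BNH.LFr
import Pool.Agent.NE.Even

set_option autoImplicit false

namespace Pool.Agent.BAN

open Set Metric
open Pool.Agent.SB (E Iso cen sec body)
open Pool.Agent.H87Star (IsGauge)
open Pool.Agent.BNH (io e0)

/-- An eigenvalue of a linear self-map of a bounded set with interior has modulus at most one. -/
theorem eig_le_one {k : ℕ} {S : Set (E k)} {C : ℝ} (hC : ∀ x ∈ S, ‖x‖ ≤ C) {x₀ : E k} {r : ℝ}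
    (hr : 0 < r) (hball : ∀ x, ‖x - x₀‖ ≤ r → x ∈ S) (g : E k →ₗ[ℝ] E k) (hg : ∀ x ∈ S, g x ∈ S)
    {e : E k} (he : e ≠ 0) {μ : ℝ} (hge : g e = μ • e) : |μ| ≤ 1 := by
  have hiter : ∀ (j : ℕ), ∀ x ∈ S, (g ^ j) x ∈ S := by
    intro j
    induction j with
    | zero => intro x hx; simpa using hx
    | succ j ih => intro x hx; rw [pow_succ', Module.End.mul_apply]; exact hg _ (ih x hx)
  have hiter2 : ∀ (j : ℕ), (g ^ j) e = μ ^ j • e := by
    intro j
    induction j with
    | zero => simp
    | succ j ih => rw [pow_succ', Module.End.mul_apply, ih, map_smul, hge, smul_smul, pow_succ]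
  have hb : ∀ j : ℕ, |μ| ^ j * r ≤ 2 * C := by
    intro j
    have he0 : 0 < ‖e‖ := norm_pos_iff.2 he
    have h1 : x₀ + (r / ‖e‖) • e ∈ S := by
      apply hball
      rw [add_sub_cancel_left, norm_smul, norm_div, norm_norm, Real.norm_eq_abs, abs_of_pos hr,
        div_mul_cancel₀ _ he0.ne']
    have h2 : x₀ ∈ S := hball _ (by rw [sub_self, norm_zero]; exact hr.le)
    have h3 := hC _ (hiter j _ h1)
    have h4 := hC _ (hiter j _ h2)
    rw [map_add, map_smul, hiter2] at h3
    have h5 : ‖(r / ‖e‖) • μ ^ j • e‖ ≤ 2 * C := by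
      have : (r / ‖e‖) • μ ^ j • e = ((g ^ j) x₀ + (r / ‖e‖) • μ ^ j • e) - (g ^ j) x₀ := by abel
      rw [this]
      refine (norm_sub_le _ _).trans ?_
      linarith
    rw [norm_smul, norm_smul, norm_div, norm_norm, Real.norm_eq_abs, abs_of_pos hr, norm_pow,
      Real.norm_eq_abs] at h5
    have h6 : r / ‖e‖ * (|μ| ^ j * ‖e‖) = |μ| ^ j * r := by
      field_simp
    rwa [h6] at h5
  by_contra hcon
  push Not at hcon
  obtain ⟨j, hj⟩ := pow_unbounded_of_one_lt (2 * C / r) hcon
  rw [div_lt_iff₀ hr] at hj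
  linarith [hb j]

/-- Projection to the last coordinates. -/
noncomputable def pr (k : ℕ) : E (k + 1) →L[ℝ] E k := ContinuousLinearMap.adjoint (io k).toContinuousLinearMap

theorem inner_pr {k : ℕ} (y : E k) (V : E (k + 1)) : inner ℝ (pr k V) y = inner ℝ V (io k y) := by
  unfold pr
  rw [ContinuousLinearMap.adjoint_inner_left]
  rfl

theorem eq_zero_of_pr {k : ℕ} {V : E (k + 1)} (h1 : pr k V = 0) (h2 : inner ℝ V (e0 k) = 0) :
    V = 0 := by
  ext i
  refine Fin.cases ?_ (fun j => ?_) i
  · rw [real_inner_comm, BNH.inner_e0] at h2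
    simpa using h2
  · have h3 := inner_pr (EuclideanSpace.single j (1 : ℝ)) V
    rw [h1, inner_zero_left] at h3
    have h4 : io k (EuclideanSpace.single j (1 : ℝ)) = EuclideanSpace.single j.succ (1 : ℝ) := by
      ext l
      refine Fin.cases ?_ (fun m => ?_) l
      · simp
      · simp [Pi.single_apply]
    rw [h4, EuclideanSpace.inner_single_right] at h3
    simpa using h3.symm

theorem inner_io_e0 {k : ℕ} (y : E k) : inner ℝ (io k y) (e0 k) = 0 := by
  rw [real_inner_comm]; exact BNH.inner_e0_io y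

theorem inner_e0_e0 (k : ℕ) : inner ℝ (e0 k) (e0 k) = 1 := by
  rw [real_inner_self_eq_norm_sq, BNH.norm_e0]; norm_num

/-- Radial retraction onto the unit ball, scaled. -/
noncomputable def om {k : ℕ} (y : E k) : E k := (max (3 / 5 : ℝ) ‖y‖)⁻¹ • y

theorem om_cont {k : ℕ} : Continuous (om (k := k)) := by
  unfold om
  refine (Continuous.inv₀ (continuous_const.max continuous_norm) fun y => ?_).smul continuous_id
  have : (0 : ℝ) < max (3 / 5 : ℝ) ‖y‖ := lt_max_of_lt_left (by norm_num)
  exact this.ne'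

theorem om_neg {k : ℕ} (y : E k) : om (-y) = -om y := by
  unfold om
  rw [norm_neg, smul_neg]

theorem om_norm {k : ℕ} (y : E k) : ‖om y‖ ≤ 1 := by
  unfold om
  have h : (0 : ℝ) < max (3 / 5 : ℝ) ‖y‖ := lt_max_of_lt_left (by norm_num)
  rw [norm_smul, norm_inv, Real.norm_eq_abs, abs_of_pos h, inv_mul_le_iff₀ h, mul_one]
  exact le_max_right _ _

theorem om_norm_eq {k : ℕ} {y : E k} (hy : 3 / 5 ≤ ‖y‖) : ‖om y‖ = 1 := by
  unfold om
  have h : (0 : ℝ) < max (3 / 5 : ℝ) ‖y‖ := lt_max_of_lt_left (by norm_num)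
  rw [norm_smul, norm_inv, Real.norm_eq_abs, abs_of_pos h, inv_mul_eq_iff_eq_mul₀ h.ne', mul_one,
    max_eq_right hy]

theorem om_inner {k : ℕ} (y : E k) : 0 ≤ inner ℝ (om y) y := by
  unfold om
  rw [inner_smul_left]
  have h : (0 : ℝ) < max (3 / 5 : ℝ) ‖y‖ := lt_max_of_lt_left (by norm_num)
  exact mul_nonneg (by simpa using (inv_pos.2 h).le) real_inner_self_nonneg

/-- Interpolation parameter. -/
noncomputable def ta (σ : ℝ) : ℝ := max 0 (min 1 (1 / 2 + 5 / 8 * σ))

theorem ta_neg (σ : ℝ) : ta (-σ) = 1 - ta σ := by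
  unfold ta
  simp only [max_def, min_def]
  split_ifs <;> linarith

theorem ta_nonneg (σ : ℝ) : 0 ≤ ta σ := le_max_left _ _

theorem ta_le_one (σ : ℝ) : ta σ ≤ 1 := max_le zero_le_one (min_le_left _ _)

theorem ta_zero {σ : ℝ} (h : σ ≤ -(4 / 5)) : ta σ = 0 := by
  unfold ta
  rw [max_eq_left]
  rw [min_le_iff]; right; linarith

theorem ta_one {σ : ℝ} (h : 4 / 5 ≤ σ) : ta σ = 1 := by
  have := ta_neg σ
  rw [ta_zero (by linarith)] at this
  linarith

theorem ta_cont : Continuous ta := by
  unfold ta; fun_prop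

/-- (ii): the model section is centrally symmetric (about its centroid). -/
theorem symK0 {k : ℕ} (hk : Odd k) (hk2 : 2 ≤ k) {f : E (k + 1) → ℝ} (hf : IsGauge f)
    (hfr : ∀ F F' : E k →L[ℝ] E (k + 1), Iso F → Iso F' →
      ∃ (g : E k ≃L[ℝ] E k) (c : E k), ∀ v, f (F' (g v + c)) ≤ 1 ↔ f (F v) ≤ 1)
    (F₀ : E k →L[ℝ] E (k + 1)) (hF₀ : Iso F₀) : ∃ p, SymAt (fun v => f (F₀ v)) p := by
  classical
  set z : E k := cen (sec f F₀) with hz
  refine ⟨z, ?_⟩
  intro v hv
  by_contra hcon
  obtain ⟨e, he⟩ : ∃ e : E k, e = v - z := ⟨_, rfl⟩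
  have he1 : f (F₀ (e + z)) ≤ 1 := by rw [he, sub_add_cancel]; exact hv
  have he2 : ¬ f (F₀ (-e + z)) ≤ 1 := by
    have : -e + z = (2 : ℝ) • z - v := by rw [he]; module
    rw [this]
    exact hcon
  have he0 : e ≠ 0 := by
    intro h
    rw [h] at he1 he2
    rw [neg_zero] at he2
    exact he2 he1
  have hh : IsGauge (fun v => f (F₀ v)) := Pool.Agent.SB.gauge_comp hf hF₀
  -- the lift over the lower hemisphere
  set ν : E k → E (k + 1) := fun w => io k w - Real.sqrt (1 - ‖w‖ ^ 2) • e0 k with hν
  have hνe : ∀ w, inner ℝ (ν w) (e0 k) = -Real.sqrt (1 - ‖w‖ ^ 2) := by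
    intro w
    rw [hν]
    simp only
    rw [inner_sub_left, inner_io_e0, inner_smul_left, inner_e0_e0]
    simp
  have hνio : ∀ w y, inner ℝ (ν w) (io k y) = inner ℝ w y := by
    intro w y
    rw [hν]
    simp only
    rw [inner_sub_left, inner_smul_left, BNH.inner_e0_io, LinearIsometry.inner_map_map]
    simp
  have hν0 : ∀ w, ν w ≠ 0 := by
    intro w h
    have h1 := hνe w
    have h2 := hνio w w
    rw [h, inner_zero_left] at h1 h2
    have h3 : w = 0 := by rw [← inner_self_eq_zero (𝕜 := ℝ)]; exact h2.symm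
    rw [h3, norm_zero] at h1
    norm_num at h1
  obtain ⟨A, c, hAc, hcc, hA⟩ := BNH.cont_lift (by omega) hf hfr F₀ hF₀
    (isCompact_closedBall (0 : E k) 1) (by
      intro w hw t ht
      rw [mem_closedBall_zero_iff] at hw ⊢
      rw [norm_smul, Real.norm_eq_abs, abs_of_nonneg ht.1]
      nlinarith [norm_nonneg w, ht.2]) (e0 k) (BNH.norm_e0 k) (io k).toContinuousLinearMap
    (fun v => (io k).norm_map v) (fun x => BNH.inner_e0_io x) ν (by
      apply Continuous.continuousOn
      apply Continuous.sub (io k).continuous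
      exact (Real.continuous_sqrt.comp (by fun_prop)).smul continuous_const)
    (fun w _ => hν0 w) (by
      intro w _ r hr h
      have h1 := hνe w
      rw [h, inner_smul_left, inner_e0_e0] at h1
      simp only [conj_trivial, mul_one] at h1
      have := Real.sqrt_nonneg (1 - ‖w‖ ^ 2)
      linarith)
  -- never opposite on the equator
  have hnopp : ∀ w : E k, ‖w‖ = 1 → ∀ l : ℝ, 0 < l → A w e ≠ -(l • A (-w) e) := by
    intro w hw l hl hopp
    have hwD : w ∈ closedBall (0 : E k) 1 := by rw [mem_closedBall_zero_iff, hw]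
    have hwD' : -w ∈ closedBall (0 : E k) 1 := by rw [mem_closedBall_zero_iff, norm_neg, hw]
    obtain ⟨a1, a2, a3, -, a4⟩ := hA w hwD
    obtain ⟨b1, b2, b3, -, b4⟩ := hA (-w) hwD'
    have hνw : ν w = io k w := by
      rw [hν]; simp only; rw [hw]; norm_num
    have hνw' : ν (-w) = -io k w := by
      rw [hν]; simp only; rw [norm_neg, hw, map_neg]; norm_num
    have hio0 : io k w ≠ 0 := by rw [← hνw]; exact hν0 w
    rw [hνw] at a1 a2
    rw [hνw'] at b1 b2
    have b1' : ∀ v, inner ℝ (io k w) (A (-w) v) = 0 := by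
      intro v; have := b1 v; rw [inner_neg_left, neg_eq_zero] at this; exact this
    have b2' : inner ℝ (io k w) (c (-w)) = 0 := by
      have := b2; rw [inner_neg_left, neg_eq_zero] at this; exact this
    -- transition map
    have hinjL : LinearMap.ker ((A (-w) : E k →L[ℝ] E (k + 1)) : E k →ₗ[ℝ] E (k + 1)) = ⊥ :=
      LinearMap.ker_eq_bot.2 b3
    obtain ⟨P, hP⟩ := ((A (-w) : E k →L[ℝ] E (k + 1)) : E k →ₗ[ℝ] E (k + 1)).exists_leftInverse_of_injective hinjL
    have hP' : ∀ x, P (A (-w) x) = x := fun x => LinearMap.congr_fun hP x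
    have hPA : ∀ y, inner ℝ (io k w) y = 0 → A (-w) (P y) = y := by
      intro y hy
      obtain ⟨x, hx⟩ := dich_onto hio0 (A (-w)) b1' b3 y hy
      rw [← hx, hP']
    obtain ⟨g, hg⟩ : ∃ g : E k →ₗ[ℝ] E k, g = P.comp ((A w : E k →L[ℝ] E (k + 1)) : E k →ₗ[ℝ] E (k + 1)) :=
      ⟨_, rfl⟩
    have hgA : ∀ x, A (-w) (g x) = A w x := by
      intro x
      rw [hg]
      exact hPA _ (a1 x)
    have hginj : Function.Injective g := by
      intro x y hxy
      apply a3
      rw [← hgA, ← hgA, hxy]
    let g' : E k ≃L[ℝ] E k := (LinearEquiv.ofInjectiveEndo g hginj).toContinuousLinearEquiv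
    have hg' : ∀ x, g' x = g x := fun x => rfl
    obtain ⟨d, hd⟩ : ∃ d, A (-w) d = c w - c (-w) :=
      dich_onto hio0 (A (-w)) b1' b3 _ (by rw [inner_sub_right, a2, b2', sub_self])
    have hKg : ∀ x, f (F₀ (g x + d + z)) ≤ 1 ↔ f (F₀ (x + z)) ≤ 1 := by
      intro x
      have h1 := a4 x
      have h2 := b4 (g x + d)
      rw [map_add, hgA, hd] at h2
      have : A w x + (c w - c (-w)) + c (-w) = A w x + c w := by abel
      rw [this] at h2
      exact h2.symm.trans h1
    have hd0 : d = 0 := by
      have h1 := Pool.Agent.SB.cen_affine hh hh g' (d + z - g z) (by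
        intro v
        have := hKg (v - z)
        rw [sub_add_cancel, map_sub] at this
        show f (F₀ (g' v + (d + z - g z))) ≤ 1 ↔ f (F₀ v) ≤ 1
        rw [hg']
        have h2 : g v + (d + z - g z) = g v - g z + d + z := by abel
        rw [h2]
        exact this)
      have h2 : cen (body fun v => f (F₀ v)) = z := rfl
      rw [h2, hg'] at h1
      have h3 : g z + (d + z - g z) = d + z := by abel
      rw [h3] at h1
      exact add_eq_right.1 h1.symm
    rw [hd0] at hKg
    simp only [add_zero] at hKg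
    have hge : g e = (-l) • e := by
      apply b3
      rw [hgA, hopp, map_smul, neg_smul]
    -- |l| = 1
    obtain ⟨c₁, C₁, hc₁, hC₁, hb⟩ := hh.bounds
    have hSb : ∀ x ∈ {x : E k | f (F₀ (x + z)) ≤ 1}, ‖x‖ ≤ c₁⁻¹ + ‖z‖ := by
      intro x hx
      have h1 : c₁ * ‖x + z‖ ≤ 1 := ((hb (x + z)).1).trans hx
      have h2 : ‖x + z‖ ≤ c₁⁻¹ := by
        rw [← one_div, le_div_iff₀ hc₁, mul_comm]; exact h1
      calc ‖x‖ = ‖x + z - z‖ := by rw [add_sub_cancel_right]
        _ ≤ ‖x + z‖ + ‖z‖ := norm_sub_le _ _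
        _ ≤ c₁⁻¹ + ‖z‖ := by linarith
    have hSball : ∀ x, ‖x - (-z)‖ ≤ C₁⁻¹ → x ∈ {x : E k | f (F₀ (x + z)) ≤ 1} := by
      intro x hx
      rw [sub_neg_eq_add] at hx
      show f (F₀ (x + z)) ≤ 1
      refine ((hb (x + z)).2).trans ?_
      calc C₁ * ‖x + z‖ ≤ C₁ * C₁⁻¹ := by gcongr
        _ = 1 := mul_inv_cancel₀ hC₁.ne'
    have h1 := eig_le_one hSb (inv_pos.2 hC₁) hSball g (fun x hx => (hKg x).2 hx) he0 hge
    obtain ⟨gi, hgi⟩ : ∃ gi : E k →ₗ[ℝ] E k, gi = (g'.symm : E k →ₗ[ℝ] E k) := ⟨_, rfl⟩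
    have hggi : ∀ x, g (gi x) = x := by
      intro x
      rw [hgi]
      exact g'.apply_symm_apply x
    have hgie : gi e = (-l⁻¹) • e := by
      apply hginj
      rw [hggi, map_smul, hge, smul_smul]
      have : -l⁻¹ * -l = 1 := by field_simp
      rw [this, one_smul]
    have h2 := eig_le_one hSb (inv_pos.2 hC₁) hSball gi (fun x hx => by
      have := (hKg (gi x)).1 (by rw [hggi]; exact hx)
      exact this) he0 hgie
    rw [abs_neg, abs_of_pos hl] at h1
    rw [abs_neg, abs_of_pos (inv_pos.2 hl)] at h2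
    have h3 : 1 ≤ l := by
      have := (inv_le_one₀ hl).1 h2
      exact this
    have h4 : l = 1 := le_antisymm h1 h3
    rw [h4, neg_one_smul] at hge
    apply he2
    rw [← hge, hKg]
    exact he1
  -- the field
  set V : E k × ℝ → E (k + 1) := fun x => (1 - ta x.2) • A (om x.1) e + ta x.2 • A (om (-x.1)) e
    with hV
  set zh : E k × ℝ → E (k + 1) := fun x => io k x.1 + x.2 • e0 k with hzh
  have hzn : ∀ x : E k × ℝ, ‖x.1‖ ^ 2 + x.2 ^ 2 = 1 → inner ℝ (zh x) (zh x) = (1 : ℝ) := by
    intro x hx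
    rw [hzh]
    simp only
    rw [inner_add_left, inner_add_right, inner_add_right, inner_smul_left, inner_smul_right,
      inner_smul_left, inner_smul_right, inner_io_e0, BNH.inner_e0_io, inner_e0_e0,
      LinearIsometry.inner_map_map, real_inner_self_eq_norm_sq]
    simp only [conj_trivial]
    nlinarith
  have homD : ∀ y : E k, om y ∈ closedBall (0 : E k) 1 := fun y => by
    rw [mem_closedBall_zero_iff]; exact om_norm y
  have hAom : Continuous fun y : E k => A (om y) :=
    hAc.comp_continuous om_cont homD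
  have hVc : Continuous V := by
    rw [hV]
    have h1 : Continuous fun x : E k × ℝ => A (om x.1) e :=
      (hAom.comp continuous_fst).clm_apply continuous_const
    have h2 : Continuous fun x : E k × ℝ => A (om (-x.1)) e :=
      (hAom.comp (continuous_fst.neg)).clm_apply continuous_const
    have h3 : Continuous fun x : E k × ℝ => ta x.2 := ta_cont.comp continuous_snd
    exact ((continuous_const.sub h3).smul h1).add (h3.smul h2)
  have hzc : Continuous zh := by
    rw [hzh]
    exact ((io k).continuous.comp continuous_fst).add (continuous_snd.smul continuous_const)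
  have hVneg : ∀ x, V (-x) = V x := by
    intro x
    rw [hV]
    simp only [Prod.fst_neg, Prod.snd_neg, neg_neg, ta_neg]
    rw [sub_sub_cancel]
    abel
  have hzneg : ∀ x, zh (-x) = -zh x := by
    intro x
    rw [hzh]
    simp only [Prod.fst_neg, Prod.snd_neg, map_neg]
    module
  set T : E k × ℝ → E (k + 1) := fun x => V x - (inner ℝ (V x) (zh x) : ℝ) • zh x with hT
  have hTc : Continuous T := by
    have h9 : Continuous fun x => (inner ℝ (V x) (zh x) : ℝ) := hVc.inner hzc
    exact hVc.sub (h9.smul hzc)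
  have hTneg : ∀ x, T (-x) = T x := by
    intro x
    rw [hT]
    simp only [hVneg, hzneg]
    rw [inner_neg_right]
    module
  obtain ⟨x, hx, hx1, hx2⟩ := NE.even_field_zero (n := k) (fun x => pr k (T x))
    (fun x => inner ℝ (T x) (e0 k)) ((pr k).continuous.comp hTc).continuousOn
    (hTc.inner continuous_const).continuousOn
    (fun x _ => by simp only [hTneg]) (fun x _ => by simp only [hTneg])
    (fun x hx => by
      show inner ℝ (pr k (T x)) x.1 + inner ℝ (T x) (e0 k) * x.2 = 0
      rw [inner_pr]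
      have h1 : inner ℝ (T x) (io k x.1) + inner ℝ (T x) (e0 k) * x.2 = inner ℝ (T x) (zh x) := by
        rw [hzh]
        simp only
        rw [inner_add_right, inner_smul_right]
        ring
      rw [h1, hT]
      simp only
      rw [inner_sub_left, inner_smul_left, hzn x hx]
      simp)
  have hT0 : T x = 0 := eq_zero_of_pr hx1 hx2
  have hVz : V x = (inner ℝ (V x) (zh x) : ℝ) • zh x := by
    rw [hT] at hT0
    exact sub_eq_zero.1 hT0
  -- a direction orthogonal to V but not to zh
  have hAe : ∀ y : E k, A (om y) e ≠ 0 := by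
    intro y h
    exact he0 ((injective_iff_map_eq_zero _).1 (hA _ (homD y)).2.2.1 e h)
  have key : ∀ u : E (k + 1), inner ℝ u (V x) = 0 → inner ℝ u (zh x) ≠ 0 → V x = 0 := by
    intro u h1 h2
    rw [hVz, inner_smul_right, mul_eq_zero] at h1
    rcases h1 with h1 | h1
    · rw [hVz, h1, zero_smul]
    · exact absurd h1 h2
  rcases lt_or_ge ‖x.1‖ (3 / 5) with hlt | hge
  · -- the caps
    have hσ : 16 / 25 < x.2 ^ 2 := by nlinarith [norm_nonneg x.1]
    rcases lt_or_ge x.2 0 with hneg | hpos
    · have h45 : x.2 ≤ -(4 / 5) := by nlinarith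
      have hVx : V x = A (om x.1) e := by
        rw [hV]; simp only; rw [ta_zero h45]; module
      refine hAe x.1 ?_
      rw [← hVx]
      refine key (ν (om x.1)) ?_ ?_
      · rw [hVx]; exact (hA _ (homD _)).1 e
      · rw [hzh]
        simp only
        rw [inner_add_right, hνio, inner_smul_right, hνe]
        have h1 := om_inner x.1
        have h2 : 0 < Real.sqrt (1 - ‖om x.1‖ ^ 2) := by
          apply Real.sqrt_pos.2
          have h3 : ‖om x.1‖ < 1 := by
            unfold om
            rw [max_eq_left hlt.le, norm_smul]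
            norm_num
            linarith
          nlinarith [norm_nonneg (om x.1)]
        nlinarith
    · have h45 : 4 / 5 ≤ x.2 := by nlinarith
      have hVx : V x = A (om (-x.1)) e := by
        rw [hV]; simp only; rw [ta_one h45]; module
      refine hAe (-x.1) ?_
      rw [← hVx]
      refine key (ν (om (-x.1))) ?_ ?_
      · rw [hVx]; exact (hA _ (homD _)).1 e
      · rw [hzh]
        simp only
        rw [inner_add_right, hνio, inner_smul_right, hνe, om_neg, inner_neg_left, norm_neg]
        have h1 := om_inner x.1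
        have h2 : 0 < Real.sqrt (1 - ‖om x.1‖ ^ 2) := by
          apply Real.sqrt_pos.2
          have h3 : ‖om x.1‖ < 1 := by
            unfold om
            rw [max_eq_left hlt.le, norm_smul]
            norm_num
            linarith
          nlinarith [norm_nonneg (om x.1)]
        nlinarith
  · -- the collar
    have hom1 := om_norm_eq hge
    have hνo : ν (om x.1) = io k (om x.1) := by
      rw [hν]; simp only; rw [hom1]; norm_num
    have hνo' : ν (om (-x.1)) = -io k (om x.1) := by
      rw [hν]; simp only; rw [om_neg, norm_neg, hom1, map_neg]; norm_num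
    have hx0 : x.1 ≠ 0 := by
      intro h
      rw [h, norm_zero] at hge
      norm_num at hge
    have hV0 : V x = 0 := by
      refine key (io k (om x.1)) ?_ ?_
      · rw [hV]
        simp only
        rw [inner_add_right, inner_smul_right, inner_smul_right]
        have h1 := (hA _ (homD x.1)).1 e
        have h2 := (hA _ (homD (-x.1))).1 e
        rw [hνo] at h1
        rw [hνo', inner_neg_left, neg_eq_zero] at h2
        rw [h1, h2]
        ring
      · rw [hzh]
        simp only
        rw [inner_add_right, LinearIsometry.inner_map_map, inner_smul_right, inner_io_e0, mul_zero,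
          add_zero]
        unfold om
        rw [inner_smul_left, real_inner_self_eq_norm_sq]
        have h : (0 : ℝ) < max (3 / 5 : ℝ) ‖x.1‖ := lt_max_of_lt_left (by norm_num)
        have : 0 < ‖x.1‖ := norm_pos_iff.2 hx0
        simp only [conj_trivial]
        positivity
    rw [hV] at hV0
    simp only at hV0
    rcases (ta_nonneg x.2).lt_or_eq with ht | ht
    · rcases (ta_le_one x.2).lt_or_eq with ht1 | ht1
      · -- both weights positive
        have h1 : A (om x.1) e = -((ta x.2 / (1 - ta x.2)) • A (-(om x.1)) e) := by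
          rw [om_neg] at hV0
          have h3 : (1 - ta x.2) • A (om x.1) e = -(ta x.2 • A (-(om x.1)) e) :=
            eq_neg_of_add_eq_zero_left hV0
          have h4 : (1 - ta x.2) ≠ 0 := by linarith
          have h5 : A (om x.1) e = (1 - ta x.2)⁻¹ • ((1 - ta x.2) • A (om x.1) e) := by
            rw [smul_smul, inv_mul_cancel₀ h4, one_smul]
          rw [h5, h3, smul_neg, smul_smul, div_eq_inv_mul]
        exact hnopp (om x.1) hom1 _ (div_pos ht (by linarith)) h1
      · rw [ht1, sub_self, zero_smul, zero_add, one_smul] at hV0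
        exact hAe _ hV0
    · rw [← ht, sub_zero, one_smul, zero_smul, add_zero] at hV0
      exact hAe _ hV0

end Pool.Agent.BAN
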