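import Mathlib

set_option autoImplicit false

/-! MP_95cc6d_gt, last part of the affine case (helper22): a norm with a projection direction for every
hyperplane through `e` is invariant under the reflection `e ↦ e`, `q ↦ -q` for `q` in the kernel of the
derivative at `e`. -/

namespace Pool.Agent.BAN

open Set Metric Filter Topology

/-- A norm which is differentiable off the origin. -/
structure IsDN {V : Type*} [NormedAddCommGroup V] [InnerProductSpace ℝ V] (N : V → ℝ) : Prop where
  smul : ∀ (t : ℝ) (v : V), N (t • v) = |t| * N v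
  pos : ∀ v, v ≠ 0 → 0 < N v
  diff : ∀ v, v ≠ 0 → DifferentiableAt ℝ N v

section
variable {V : Type*} [NormedAddCommGroup V] [InnerProductSpace ℝ V] {N : V → ℝ}

theorem IsDN.zero (hN : IsDN N) : N 0 = 0 := by
  have := hN.smul 0 0
  simpa using this

theorem IsDN.neg (hN : IsDN N) (v : V) : N (-v) = N v := by
  have := hN.smul (-1) v
  simpa using this

theorem IsDN.fderiv_self (hN : IsDN N) {w : V} (hw : w ≠ 0) : fderiv ℝ N w w = N w := by
  have h1 : HasDerivAt (fun t : ℝ => N (t • w)) (fderiv ℝ N w w) 1 := by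
    have h2 : HasDerivAt (fun t : ℝ => t • w) w 1 := by
      simpa using (hasDerivAt_id (1 : ℝ)).smul_const w
    have h3 : HasFDerivAt N (fderiv ℝ N w) ((1 : ℝ) • w) := by
      rw [one_smul]; exact (hN.diff w hw).hasFDerivAt
    exact h3.comp_hasDerivAt (1 : ℝ) h2
  have h2 : HasDerivAt (fun t : ℝ => N (t • w)) (N w) 1 := by
    have h3 : HasDerivAt (fun t : ℝ => t * N w) (N w) 1 := by
      simpa using (hasDerivAt_id (1 : ℝ)).mul_const (N w)
    refine h3.congr_of_eventuallyEq ?_
    filter_upwards [lt_mem_nhds (show (0 : ℝ) < 1 from zero_lt_one)] with t ht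
    rw [hN.smul, abs_of_pos ht]
  exact h1.unique h2

/-- the line through `w` in the direction `d` -/
theorem IsDN.hasDerivAt_line (hN : IsDN N) {w d : V} {t : ℝ} (hw : w + t • d ≠ 0) :
    HasDerivAt (fun s : ℝ => N (w + s • d)) (fderiv ℝ N (w + t • d) d) t := by
  have h2 : HasDerivAt (fun s : ℝ => w + s • d) d t := by
    simpa using ((hasDerivAt_id t).smul_const d).const_add w
  exact (hN.diff _ hw).hasFDerivAt.comp_hasDerivAt t h2

/-- A support direction is killed by the derivative. -/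
theorem IsDN.fderiv_of_le (hN : IsDN N) {w γ : V} (hw : w ≠ 0) (h : ∀ μ : ℝ, N w ≤ N (w + μ • γ)) :
    fderiv ℝ N w γ = 0 := by
  have h1 : HasDerivAt (fun s : ℝ => N (w + s • γ)) (fderiv ℝ N (w + (0 : ℝ) • γ) γ) 0 :=
    hN.hasDerivAt_line (by simpa using hw)
  have h2 : IsLocalMin (fun s : ℝ => N (w + s • γ)) 0 := by
    refine Filter.Eventually.of_forall fun s => ?_
    show N (w + (0 : ℝ) • γ) ≤ N (w + s • γ)
    rw [zero_smul, add_zero]
    exact h s
  have h3 := h2.hasDerivAt_eq_zero h1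
  simpa using h3

/-- First step: on the kernel of the derivative at `e` the derivatives at `e + q` and at `q` are
proportional. -/
theorem IsDN.step (hN : IsDN N) {e : V} (he : e ≠ 0)
    (hyp : ∀ l : V →L[ℝ] ℝ, l ≠ 0 → l e = 0 → ∃ γ, l γ ≠ 0 ∧ ∀ w, l w = 0 →
      ∀ μ : ℝ, N w ≤ N (w + μ • γ))
    {q p : V} (hq : q ≠ 0) (hQ : fderiv ℝ N e q = 0) (hP : fderiv ℝ N e p = 0)
    (hqp : fderiv ℝ N q p = 0) : fderiv ℝ N (e + q) p = 0 := by
  have hNe : 0 < N e := hN.pos e he
  have hNq : 0 < N q := hN.pos q hq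
  have heq : e + q ≠ 0 := by
    intro h
    have h1 : fderiv ℝ N e (e + q) = N e := by rw [map_add, hN.fderiv_self he, hQ, add_zero]
    rw [h, map_zero] at h1
    linarith
  set b : ℝ := fderiv ℝ N (e + q) q / N q with hb
  set a : ℝ := (fderiv ℝ N (e + q) e - b * fderiv ℝ N q e) / N e with ha
  set l : V →L[ℝ] ℝ := fderiv ℝ N (e + q) - a • fderiv ℝ N e - b • fderiv ℝ N q with hl
  have hlq : l q = 0 := by
    simp only [hl, sub_apply, smul_apply, smul_eq_mul,
      hQ, hN.fderiv_self hq]
    rw [hb]; field_simp; ring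
  have hle : l e = 0 := by
    simp only [hl, sub_apply, smul_apply, smul_eq_mul,
      hN.fderiv_self he]
    rw [ha]; field_simp; ring
  have hl0 : l = 0 := by
    by_contra hne
    obtain ⟨γ, hγ, hγw⟩ := hyp l hne hle
    apply hγ
    have h1 := hN.fderiv_of_le he (hγw e hle)
    have h2 := hN.fderiv_of_le hq (hγw q hlq)
    have h3 := hN.fderiv_of_le heq (hγw (e + q) (by rw [map_add, hle, hlq, add_zero]))
    simp only [hl, sub_apply, smul_apply, smul_eq_mul,
      h1, h2, h3]
    ring
  have h4 : l p = 0 := by rw [hl0]; rfl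
  simp only [hl, sub_apply, smul_apply, smul_eq_mul,
    hP, hqp] at h4
  linarith

/-- Second step: the reflection. -/
theorem IsDN.refl_of_hyperplanes [FiniteDimensional ℝ V] (hN : IsDN N)
    (hdim : 3 ≤ Module.finrank ℝ V) {e : V} (he : e ≠ 0)
    (hyp : ∀ l : V →L[ℝ] ℝ, l ≠ 0 → l e = 0 → ∃ γ, l γ ≠ 0 ∧ ∀ w, l w = 0 →
      ∀ μ : ℝ, N w ≤ N (w + μ • γ))
    {q : V} (hQ : fderiv ℝ N e q = 0) : N (e + q) = N (e - q) := by
  by_cases hq : q = 0
  · rw [hq]; simp
  have hNe : 0 < N e := hN.pos e he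
  have hNq : 0 < N q := hN.pos q hq
  -- an auxiliary vector
  obtain ⟨r, hr0, hr1, hr2⟩ : ∃ r : V, r ≠ 0 ∧ fderiv ℝ N e r = 0 ∧ inner ℝ q r = 0 := by
    set φ : V →ₗ[ℝ] ℝ × ℝ := ((fderiv ℝ N e : V →L[ℝ] ℝ) : V →ₗ[ℝ] ℝ).prod
      ((innerSL ℝ q : V →L[ℝ] ℝ) : V →ₗ[ℝ] ℝ) with hφ
    have hk : LinearMap.ker φ ≠ ⊥ := by
      apply LinearMap.ker_ne_bot_of_finrank_lt
      rw [Module.finrank_prod, Module.finrank_self]
      omega
    obtain ⟨r, hr, hr0⟩ := Submodule.exists_mem_ne_zero_of_ne_bot hk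
    rw [LinearMap.mem_ker] at hr
    refine ⟨r, hr0, ?_, ?_⟩
    · exact congrArg Prod.fst hr
    · exact congrArg Prod.snd hr
  -- the path
  set c : ℝ → V := fun s => Real.cos s • q + Real.sin s • r with hc
  set c' : ℝ → V := fun s => (-Real.sin s) • q + Real.cos s • r with hc'
  have hcd : ∀ s, HasDerivAt c (c' s) s := by
    intro s
    exact ((Real.hasDerivAt_cos s).smul_const q).add ((Real.hasDerivAt_sin s).smul_const r)
  have hc0 : ∀ s, c s ≠ 0 := by
    intro s hs
    have h1 : inner ℝ q (c s) = Real.cos s * ‖q‖ ^ 2 := by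
      simp only [hc]
      rw [inner_add_right, inner_smul_right, inner_smul_right, hr2, real_inner_self_eq_norm_sq]
      ring
    have h2 : inner ℝ r (c s) = Real.sin s * ‖r‖ ^ 2 := by
      simp only [hc]
      rw [inner_add_right, inner_smul_right, inner_smul_right, real_inner_comm, hr2,
        real_inner_self_eq_norm_sq]
      ring
    rw [hs, inner_zero_right] at h1 h2
    have h3 : 0 < ‖q‖ ^ 2 := by positivity
    have h4 : 0 < ‖r‖ ^ 2 := by positivity
    have h5 : Real.cos s = 0 := by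
      rcases mul_eq_zero.1 h1.symm with h | h
      · exact h
      · exact absurd h h3.ne'
    have h6 : Real.sin s = 0 := by
      rcases mul_eq_zero.1 h2.symm with h | h
      · exact h
      · exact absurd h h4.ne'
    have h7 := Real.sin_sq_add_cos_sq s
    rw [h5, h6] at h7
    norm_num at h7
  set g : ℝ → ℝ := fun s => N (c s) with hg
  have hgpos : ∀ s, 0 < g s := fun s => hN.pos _ (hc0 s)
  set g' : ℝ → ℝ := fun s => fderiv ℝ N (c s) (c' s) with hg'
  have hgd : ∀ s, HasDerivAt g (g' s) s := fun s =>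
    (hN.diff _ (hc0 s)).hasFDerivAt.comp_hasDerivAt s (hcd s)
  -- normalised path
  set k : ℝ → ℝ := fun s => N q / g s with hk
  set k' : ℝ → ℝ := fun s => -(N q * g' s) / g s ^ 2 with hk'
  have hkpos : ∀ s, 0 < k s := fun s => div_pos hNq (hgpos s)
  have hkd : ∀ s, HasDerivAt k (k' s) s := by
    intro s
    have h1 := (hasDerivAt_const s (N q)).div (hgd s) (hgpos s).ne'
    refine h1.congr_deriv ?_
    simp only [hk']
    ring
  set p : ℝ → V := fun s => k s • c s with hp
  set p' : ℝ → V := fun s => k s • c' s + k' s • c s with hp'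
  have hpd : ∀ s, HasDerivAt p (p' s) s := fun s => (hkd s).smul (hcd s)
  have hp0 : ∀ s, p s ≠ 0 := fun s => smul_ne_zero (hkpos s).ne' (hc0 s)
  have hNp : ∀ s, N (p s) = N q := by
    intro s
    simp only [hp, hk]
    rw [hN.smul, abs_of_pos (hkpos s)]
    show N q / g s * g s = N q
    exact div_mul_cancel₀ _ (hgpos s).ne'
  have hQc : ∀ s, fderiv ℝ N e (c s) = 0 := by
    intro s
    simp only [hc, map_add, map_smul, hQ, hr1, smul_zero, add_zero]
  have hQc' : ∀ s, fderiv ℝ N e (c' s) = 0 := by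
    intro s
    simp only [hc', map_add, map_smul, hQ, hr1, smul_zero, add_zero]
  have hQp : ∀ s, fderiv ℝ N e (p s) = 0 := by
    intro s
    simp only [hp, map_smul, hQc, smul_zero]
  have hQp' : ∀ s, fderiv ℝ N e (p' s) = 0 := by
    intro s
    simp only [hp', map_add, map_smul, hQc, hQc', smul_zero, add_zero]
  have hpp' : ∀ s, fderiv ℝ N (p s) (p' s) = 0 := by
    intro s
    have h1 : HasDerivAt (fun s => N (p s)) (fderiv ℝ N (p s) (p' s)) s :=
      (hN.diff _ (hp0 s)).hasFDerivAt.comp_hasDerivAt s (hpd s)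
    have h2 : HasDerivAt (fun s => N (p s)) 0 s := by
      have h3 : (fun s => N (p s)) = fun _ => N q := funext hNp
      rw [h3]
      exact hasDerivAt_const s (N q)
    exact h1.unique h2
  have hep : ∀ s, e + p s ≠ 0 := by
    intro s h
    have h1 : fderiv ℝ N e (e + p s) = N e := by
      rw [map_add, hN.fderiv_self he, hQp, add_zero]
    rw [h, map_zero] at h1
    linarith
  have hhd : ∀ s, HasDerivAt (fun s => N (e + p s)) 0 s := by
    intro s
    have h1 : HasDerivAt (fun s => N (e + p s)) (fderiv ℝ N (e + p s) (p' s)) s :=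
      (hN.diff _ (hep s)).hasFDerivAt.comp_hasDerivAt s ((hpd s).const_add e)
    rwa [hN.step he hyp (hp0 s) (hQp s) (hQp' s) (hpp' s)] at h1
  have hconst := is_const_of_deriv_eq_zero (f := fun s => N (e + p s))
    (fun s => (hhd s).differentiableAt) (fun s => (hhd s).deriv) 0 Real.pi
  have hp_0 : p 0 = q := by
    have h1 : c 0 = q := by simp [hc]
    have h2 : g 0 = N q := by simp only [hg, h1]
    simp only [hp, hk, h1, h2]
    rw [div_self hNq.ne', one_smul]
  have hp_pi : p Real.pi = -q := by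
    have h1 : c Real.pi = -q := by simp [hc]
    have h2 : g Real.pi = N q := by simp only [hg, h1, hN.neg]
    simp only [hp, hk, h1, h2]
    rw [div_self hNq.ne', one_smul]
  simp only [hp_0, hp_pi] at hconst
  rw [hconst, sub_eq_add_neg]

end

end Pool.Agent.BAN
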