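import Mathlib
import Pool.Agent.BAN.ReflA
import Pool.Agent.H87Star.Final

set_option autoImplicit false

/-! MP_95cc6d_gt, last part of the affine case (helper22): a strictly convex norm, differentiable off the
origin, invariant under all reflections `w ↦ w`, `q ↦ -q` (`q` in the kernel of the derivative at `w`)
is Euclidean. -/

namespace Pool.Agent.BAN

open Set Metric Filter Topology
open Pool.Agent.H87Star (IsGauge)

section
variable {V : Type*} [NormedAddCommGroup V] [InnerProductSpace ℝ V] {N : V → ℝ}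

/-- The reflection at `w`. -/
noncomputable def rfl' (N : V → ℝ) (w : V) : V →ₗ[ℝ] V :=
  (2 / N w) • ((fderiv ℝ N w : V →L[ℝ] ℝ) : V →ₗ[ℝ] ℝ).smulRight w - LinearMap.id

theorem rfl'_apply (N : V → ℝ) (w v : V) :
    rfl' N w v = (2 * fderiv ℝ N w v / N w) • w - v := by
  simp only [rfl', LinearMap.sub_apply, LinearMap.smul_apply, LinearMap.smulRight_apply,
    LinearMap.id_apply, smul_smul]
  congr 2
  show 2 / N w * fderiv ℝ N w v = _
  ring

theorem IsDN.rfl'_isom (hN : IsDN N)
    (h : ∀ w q, w ≠ 0 → fderiv ℝ N w q = 0 → N (w + q) = N (w - q)) {w : V} (hw : w ≠ 0) (v : V) :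
    N (rfl' N w v) = N v := by
  have hNw : 0 < N w := hN.pos w hw
  set a : ℝ := fderiv ℝ N w v / N w with ha
  set q : V := v - a • w with hq
  have hQ : fderiv ℝ N w q = 0 := by
    rw [hq, map_sub, map_smul, hN.fderiv_self hw, smul_eq_mul, ha, div_mul_cancel₀ _ hNw.ne',
      sub_self]
  have hv : v = a • w + q := by rw [hq]; abel
  have hs : rfl' N w v = a • w - q := by
    rw [rfl'_apply, mul_div_assoc, ← ha, hq]
    module
  rw [hs]
  by_cases ha0 : a = 0
  · rw [ha0] at hs hv ⊢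
    rw [zero_smul, zero_sub, hN.neg]
    conv_rhs => rw [hv]
    rw [zero_smul, zero_add]
  · have h1 := h w (a⁻¹ • q) hw (by rw [map_smul, hQ, smul_zero])
    have h2 : a • w - q = a • (w - a⁻¹ • q) := by
      rw [smul_sub, smul_smul, mul_inv_cancel₀ ha0, one_smul]
    have h3 : v = a • (w + a⁻¹ • q) := by
      rw [smul_add, smul_smul, mul_inv_cancel₀ ha0, one_smul, ← hv]
    rw [h2, hN.smul]
    conv_rhs => rw [h3, hN.smul]
    rw [h1]

/-- Transitivity. -/
theorem IsDN.transitive (hN : IsDN N)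
    (hsc : ∀ v w : V, v ≠ w → N v = N w → ∀ a : ℝ, 0 < a → a < 1 → N (w + a • (v - w)) < N v)
    (h : ∀ w q, w ≠ 0 → fderiv ℝ N w q = 0 → N (w + q) = N (w - q))
    (v w : V) (hvw : N v = N w) :
    ∃ σ : V →ₗ[ℝ] V, (∀ x, N (σ x) = N x) ∧ σ w = v := by
  by_cases h1 : v = w
  · exact ⟨LinearMap.id, fun x => rfl, h1.symm⟩
  by_cases h2 : v = -w
  · refine ⟨-LinearMap.id, fun x => ?_, ?_⟩
    · simp only [LinearMap.neg_apply, LinearMap.id_apply]; exact hN.neg x
    · simp [h2]
  set d : V := v - w with hd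
  have hd0 : d ≠ 0 := sub_ne_zero.2 h1
  have hw0 : w ≠ 0 := by
    rintro rfl
    rw [hN.zero] at hvw
    by_cases hv : v = 0
    · exact h1 hv
    · exact absurd hvw (hN.pos v hv).ne'
  have hv0 : v ≠ 0 := by
    rintro rfl
    rw [hN.zero] at hvw
    exact absurd hvw.symm (hN.pos w hw0).ne'
  -- the segment avoids the origin
  have hseg : ∀ s ∈ Icc (0 : ℝ) 1, w + s • d ≠ 0 := by
    intro s hs h0
    have h3 : s • v = (s - 1) • w := by
      have : s • v - (s - 1) • w = w + s • d := by rw [hd]; module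
      rw [← sub_eq_zero, this, h0]
    have h4 := congrArg N h3
    rw [hN.smul, hN.smul, hvw, abs_of_nonneg hs.1, abs_of_nonpos (by linarith [hs.2])] at h4
    have h5 : s = 1 / 2 := by
      have := mul_right_cancel₀ (hN.pos w hw0).ne' h4
      linarith
    rw [h5] at h3
    apply h2
    have h6 : (2 : ℝ) • ((1 / 2 : ℝ) • v) = (2 : ℝ) • (((1 / 2 : ℝ) - 1) • w) := by rw [h3]
    rw [smul_smul, smul_smul] at h6
    norm_num at h6
    exact h6
  -- Rolle
  obtain ⟨s, hs, hsd⟩ : ∃ s ∈ Ioo (0 : ℝ) 1, fderiv ℝ N (w + s • d) d = 0 := by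
    have hcont : ContinuousOn (fun s : ℝ => N (w + s • d)) (Icc 0 1) := fun s hs =>
      (hN.hasDerivAt_line (hseg s hs)).continuousAt.continuousWithinAt
    have hends : (fun s : ℝ => N (w + s • d)) 0 = (fun s : ℝ => N (w + s • d)) 1 := by
      simp only [zero_smul, add_zero, one_smul]
      rw [hd, add_sub_cancel, hvw]
    obtain ⟨s, hs, hs'⟩ := exists_deriv_eq_zero (f := fun s : ℝ => N (w + s • d))
      zero_lt_one hcont hends
    refine ⟨s, hs, ?_⟩
    rw [← hs', (hN.hasDerivAt_line (hseg s ⟨hs.1.le, hs.2.le⟩)).deriv]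
  set u : V := w + s • d with hu
  have hu0 : u ≠ 0 := hseg s ⟨hs.1.le, hs.2.le⟩
  have heven : ∀ t : ℝ, N (u + t • d) = N (u - t • d) := fun t =>
    h u (t • d) hu0 (by rw [map_smul, hsd, smul_zero])
  have hv' : u + (1 - s) • d = v := by rw [hu, hd]; module
  have hw' : u - s • d = w := by rw [hu, hd]; module
  -- the midpoint
  have hhalf : s = 1 / 2 := by
    rcases lt_trichotomy s (1 / 2) with h3 | h3 | h3
    · -- `u + s d` lies strictly between `w = u - s d` and `v = u + (1-s) d`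
      exfalso
      have h4 : u + s • d = w + (2 * s) • (v - w) := by rw [hu, ← hd]; module
      have h5 := hsc v w h1 hvw (2 * s) (by linarith [hs.1]) (by linarith)
      rw [← h4, heven, hw', hvw] at h5
      exact lt_irrefl _ h5
    · exact h3
    · exfalso
      have h4 : u - (1 - s) • d = w + (2 * s - 1) • (v - w) := by rw [hu, ← hd]; module
      have h5 := hsc v w h1 hvw (2 * s - 1) (by linarith) (by linarith [hs.2])
      rw [← h4, ← heven, hv'] at h5
      exact lt_irrefl _ h5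
  refine ⟨rfl' N u, fun x => hN.rfl'_isom h hu0 x, ?_⟩
  have hNu : N u ≠ 0 := (hN.pos u hu0).ne'
  have h3 : fderiv ℝ N u w = N u := by
    rw [← hw', map_sub, hN.fderiv_self hu0, map_smul, hsd, smul_zero, sub_zero]
  rw [rfl'_apply, h3, mul_div_assoc, div_self hNu, mul_one]
  rw [hu, hhalf, hd]
  module

theorem IsDN.isGauge (hN : IsDN N) (hc : Continuous N) : IsGauge N where
  cont := hc
  hom := by
    intro t ht v
    rw [hN.smul, abs_of_nonneg ht]
  pos := hN.pos

/-- The norm is Euclidean. -/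
theorem IsDN.euclidean [FiniteDimensional ℝ V] (hN : IsDN N) (hc : Continuous N)
    (hsc : ∀ v w : V, v ≠ w → N v = N w → ∀ a : ℝ, 0 < a → a < 1 → N (w + a • (v - w)) < N v)
    (h : ∀ w q, w ≠ 0 → fderiv ℝ N w q = 0 → N (w + q) = N (w - q)) :
    ∃ b : V →ₗ[ℝ] V →ₗ[ℝ] ℝ, (∀ v w, b v w = b w v) ∧ ∀ v, N v ^ 2 = b v v := by
  obtain ⟨b, hbs, hbp, hbi⟩ := Pool.Agent.H87Star.exists_form (hN.isGauge hc)
  by_cases hV : ∃ e : V, e ≠ 0
  · obtain ⟨e, he⟩ := hV
    have hNe := hN.pos e he
    have hbe := hbp e he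
    set c : ℝ := N e ^ 2 / b e e with hcdef
    refine ⟨c • b, fun v w => ?_, fun v => ?_⟩
    · simp only [LinearMap.smul_apply, hbs v w]
    · simp only [LinearMap.smul_apply, smul_eq_mul]
      by_cases hv : v = 0
      · rw [hv, hN.zero]; simp
      have hNv := hN.pos v hv
      set t : ℝ := N v / N e with ht
      have ht0 : 0 < t := div_pos hNv hNe
      obtain ⟨σ, hσ, hσv⟩ := hN.transitive hsc h (t • e) v (by
        rw [hN.smul, abs_of_pos ht0, ht, div_mul_cancel₀ _ hNe.ne'])
      have h1 := hbi σ hσ v v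
      rw [hσv, map_smul, map_smul, LinearMap.smul_apply, smul_eq_mul, smul_eq_mul] at h1
      rw [← h1, hcdef, ht]
      field_simp
  · push Not at hV
    refine ⟨0, fun v w => rfl, fun v => ?_⟩
    rw [hV v, hN.zero]
    simp

end

end Pool.Agent.BAN
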