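import Mathlib
import Pool.Agent.BAN.ReflB
import Pool.Agent.SB.Defs

set_option autoImplicit false

/-! MP_95cc6d_gt, step (iv) of the affine case (helper22): a norm `N` on `E (k+1)`, all of whose sections
through a point `e ≠ 0` inside the unit ball are affine images of one symmetric body `{N0 ≤ 1}`. -/

namespace Pool.Agent.BAN

open Set Metric Filter Topology
open Pool.Agent.H87Star (IsGauge)
open Pool.Agent.SB (E)

/-- Surjectivity onto the hyperplane. -/
theorem exists_pre {k : ℕ} {A : E k →L[ℝ] E (k + 1)} (hinj : ∀ x, A x = 0 → x = 0) {u : E (k + 1)}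
    (hu : u ≠ 0) (hA : ∀ v, inner ℝ u (A v) = 0) {y : E (k + 1)} (hy : inner ℝ u y = 0) :
    ∃ x, A x = y := by
  have hinj' : Function.Injective (A : E k →ₗ[ℝ] E (k + 1)) := by
    rw [injective_iff_map_eq_zero]
    exact hinj
  have h1 : LinearMap.range (A : E k →ₗ[ℝ] E (k + 1)) ≤ (ℝ ∙ u)ᗮ := by
    rintro _ ⟨v, rfl⟩
    rw [Submodule.mem_orthogonal_singleton_iff_inner_right]
    exact hA v
  have h2 : Module.finrank ℝ (LinearMap.range (A : E k →ₗ[ℝ] E (k + 1))) = k := by
    rw [LinearMap.finrank_range_of_inj hinj', finrank_euclideanSpace_fin]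
  have h3 : Module.finrank ℝ (ℝ ∙ u)ᗮ = k := by
    have : Fact (Module.finrank ℝ (E (k + 1)) = k + 1) := ⟨finrank_euclideanSpace_fin⟩
    exact Submodule.finrank_orthogonal_span_singleton hu
  have h4 := Submodule.eq_of_le_of_finrank_eq h1 (h2.trans h3.symm)
  have h5 : y ∈ (ℝ ∙ u)ᗮ := by
    rw [Submodule.mem_orthogonal_singleton_iff_inner_right]
    exact hy
  rw [← h4] at h5
  exact h5

section
variable {k : ℕ} {N : E (k + 1) → ℝ} {N0 : E k → ℝ} {e : E (k + 1)}

/-- The limit argument. -/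
theorem exists_gamma (hsm : ∀ (t : ℝ) (v : E (k + 1)), N (t • v) = |t| * N v)
    (hpos : ∀ v, v ≠ 0 → 0 < N v) (htri : ∀ v w, N (v + w) ≤ N v + N w) (hcont : Continuous N)
    (h0 : IsDN N0) (hcont0 : Continuous N0) (htri0 : ∀ v w, N0 (v + w) ≤ N0 v + N0 w)
    (he : e ≠ 0) (he1 : N e < 1)
    (hsec : ∀ u : E (k + 1), u ≠ 0 → ∃ (A : E k →L[ℝ] E (k + 1)) (c : E (k + 1)),
      (∀ v, inner ℝ u (A v) = 0) ∧ inner ℝ u c = inner ℝ u e ∧ ∀ v, N (c + A v) ≤ 1 ↔ N0 v ≤ 1)
    {u : E (k + 1)} (hu : u ≠ 0) (hue : inner ℝ u e = 0) :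
    ∃ (A : E k →L[ℝ] E (k + 1)) (γ : E (k + 1)), (∀ v, N (A v) = N0 v) ∧
      (∀ v, inner ℝ u (A v) = 0) ∧ inner ℝ u γ ≠ 0 ∧ ∀ v (μ : ℝ), N (A v) ≤ N (A v + μ • γ) := by
  have hG : IsGauge N := ⟨hcont, fun t ht v => by rw [hsm, abs_of_nonneg ht], hpos⟩
  have hG0 : IsGauge N0 := h0.isGauge hcont0
  have hN0 : N 0 = 0 := hG.zero
  have hneg : ∀ v, N (-v) = N v := fun v => by simpa using hsm (-1) v
  obtain ⟨cN, CN, hcN, -, hbN⟩ := hG.bounds
  obtain ⟨c0, C0, hc0, -, hb0⟩ := hG0.bounds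
  have heN : 0 < N e := hpos e he
  -- the sequence
  set ε : ℕ → ℝ := fun j => 1 / ((j : ℝ) + 1) with hε
  have hεpos : ∀ j, 0 < ε j := fun j => by simp only [hε]; positivity
  have hεlim : Tendsto ε atTop (𝓝 0) := tendsto_one_div_add_atTop_nhds_zero_nat
  set U : ℕ → E (k + 1) := fun j => u + ε j • e with hU
  have hUe : ∀ j, inner ℝ (U j) e = ε j * ‖e‖ ^ 2 := by
    intro j
    simp only [hU]
    rw [inner_add_left, hue, inner_smul_left, real_inner_self_eq_norm_sq, zero_add]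
    simp
  have hUe0 : ∀ j, inner ℝ (U j) e ≠ 0 := fun j => by
    rw [hUe]
    have : 0 < ‖e‖ := norm_pos_iff.2 he
    have := hεpos j
    positivity
  have hU0 : ∀ j, U j ≠ 0 := fun j h => hUe0 j (by rw [h, inner_zero_left])
  choose A c hA1 hA2 hA3 using fun j => hsec (U j) (hU0 j)
  -- exact boundary
  have hb1 : ∀ j v, N0 v = 1 → N (c j + A j v) = 1 := by
    intro j v hv
    refine le_antisymm ((hA3 j v).2 hv.le) ?_
    by_contra hlt
    push Not at hlt
    have hc1 : ContinuousAt (fun t : ℝ => N (c j + A j (t • v))) 1 := by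
      have : Continuous (fun t : ℝ => N (c j + A j (t • v))) := by
        exact hcont.comp (continuous_const.add ((A j).continuous.comp
          (continuous_id.smul continuous_const)))
      exact this.continuousAt
    have h1 : ∀ᶠ t in 𝓝 (1 : ℝ), N (c j + A j (t • v)) < 1 := by
      refine hc1.eventually_lt continuousAt_const ?_
      simpa using hlt
    obtain ⟨δ, hδ, h2⟩ := Metric.eventually_nhds_iff.1 h1
    have h3 := h2 (y := 1 + δ / 2) (by
      rw [Real.dist_eq]
      rw [show 1 + δ / 2 - 1 = δ / 2 by ring, abs_of_pos (by positivity)]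
      linarith)
    have h4 := (hA3 j ((1 + δ / 2) • v)).1 h3.le
    rw [h0.smul, hv, abs_of_pos (by positivity)] at h4
    linarith
  have hb2 : ∀ j v, N0 v = 1 → N (A j v - c j) = 1 := by
    intro j v hv
    have h1 := hb1 j (-v) (by rw [h0.neg, hv])
    rw [← hneg, neg_add, map_neg, neg_neg] at h1
    rw [← h1]
    congr 1
    abel
  -- injectivity
  have hinj : ∀ j x, A j x = 0 → x = 0 := by
    intro j x hx
    by_contra hx0
    have h1 := h0.pos x hx0
    have h2 := (hA3 j ((2 / N0 x) • x)).1 (by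
      rw [map_smul, hx, smul_zero]
      have := (hA3 j 0).2 (by rw [h0.zero]; norm_num)
      rwa [map_zero] at this)
    rw [h0.smul, abs_of_pos (by positivity), div_mul_cancel₀ _ h1.ne'] at h2
    linarith
  -- lower bound
  have hlow : ∀ j x, (1 - N e) * N0 x ≤ 2 * N (A j x) := by
    intro j x
    obtain ⟨z, hz⟩ : ∃ z, A j z = e - c j := by
      refine exists_pre (hinj j) (hU0 j) (hA1 j) ?_
      rw [inner_sub_right, hA2, sub_self]
    have hz1 : N0 z ≤ 1 := by
      rw [← hA3 j z, hz, add_sub_cancel]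
      exact he1.le
    by_cases hx : x = 0
    · rw [hx, map_zero, h0.zero, hN0]; simp
    have hAx : A j x ≠ 0 := fun h => hx (hinj j x h)
    have hNA := hpos _ hAx
    set t : ℝ := (1 - N e) / N (A j x) with ht
    have ht0 : 0 < t := div_pos (by linarith) hNA
    have h1 : N0 (z + t • x) ≤ 1 := by
      rw [← hA3 j, map_add, hz, map_smul]
      have h2 : c j + (e - c j + t • A j x) = e + t • A j x := by abel
      rw [h2]
      refine (htri _ _).trans ?_
      rw [hsm, abs_of_pos ht0, ht, div_mul_cancel₀ _ hNA.ne']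
      linarith
    have h2 : N0 (t • x) ≤ 2 := by
      have h3 : t • x = (z + t • x) + (-z) := by abel
      rw [h3]
      refine (htri0 _ _).trans ?_
      rw [h0.neg]
      linarith
    rw [h0.smul, abs_of_pos ht0, ht, div_mul_eq_mul_div, div_le_iff₀ hNA] at h2
    exact h2
  -- bounds
  have hcb : ∀ j, ‖c j‖ ≤ 1 / cN := by
    intro j
    have h1 := (hA3 j 0).2 (by rw [h0.zero]; norm_num)
    rw [map_zero, add_zero] at h1
    rw [le_div_iff₀ hcN]
    linarith [(hbN (c j)).1, mul_comm cN ‖c j‖]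
  have hC0 : 0 < |C0| + 1 := by positivity
  have hAb : ∀ j, ‖A j‖ ≤ 2 / cN * (|C0| + 1) := by
    intro j
    refine ContinuousLinearMap.opNorm_le_bound _ (by positivity) fun v => ?_
    by_cases hv : v = 0
    · rw [hv]; simp
    have hv0 : 0 < ‖v‖ := norm_pos_iff.2 hv
    set t : ℝ := 1 / ((|C0| + 1) * ‖v‖) with ht
    have ht0 : 0 < t := by positivity
    have h1 : N0 (t • v) ≤ 1 := by
      refine (hb0 _).2.trans ?_
      rw [norm_smul, Real.norm_eq_abs, abs_of_pos ht0, ht]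
      have h2 : C0 * (1 / ((|C0| + 1) * ‖v‖) * ‖v‖) = C0 / (|C0| + 1) := by field_simp
      rw [h2, div_le_one hC0]
      linarith [le_abs_self C0]
    have h2 := (hA3 j (t • v)).2 h1
    have h3 : N (A j (t • v)) ≤ 2 := by
      have h4 : A j (t • v) = (c j + A j (t • v)) + (-(c j)) := by abel
      rw [h4]
      refine (htri _ _).trans ?_
      rw [hneg]
      have h5 := (hA3 j 0).2 (by rw [h0.zero]; norm_num)
      rw [map_zero, add_zero] at h5
      linarith
    rw [map_smul, hsm, abs_of_pos ht0] at h3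
    have h4 := (hbN (A j v)).1
    have h5 : t * (cN * ‖A j v‖) ≤ 2 := (mul_le_mul_of_nonneg_left h4 ht0.le).trans h3
    have h6 : t * (cN * ‖A j v‖) = cN * ‖A j v‖ / ((|C0| + 1) * ‖v‖) := by rw [ht]; ring
    rw [h6, div_le_iff₀ (by positivity)] at h5
    have h7 : ‖A j v‖ ≤ 2 * ((|C0| + 1) * ‖v‖) / cN := by
      rw [le_div_iff₀ hcN]; linarith
    calc ‖A j v‖ ≤ 2 * ((|C0| + 1) * ‖v‖) / cN := h7
      _ = 2 / cN * (|C0| + 1) * ‖v‖ := by ring
  -- directions
  have hc0' : ∀ j, c j ≠ 0 := by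
    intro j h
    apply hUe0 j
    rw [← hA2, h, inner_zero_right]
  set g : ℕ → E (k + 1) := fun j => ‖c j‖⁻¹ • c j with hg
  have hg1 : ∀ j, ‖g j‖ = 1 := by
    intro j
    simp only [hg]
    rw [norm_smul, norm_inv, norm_norm, inv_mul_cancel₀ (norm_ne_zero_iff.2 (hc0' j))]
  -- subsequence
  obtain ⟨⟨cc, AA, gg⟩, hmem, φ, hφ, hlim⟩ :=
    IsCompact.tendsto_subseq (X := E (k + 1) × (E k →L[ℝ] E (k + 1)) × E (k + 1))
    ((isCompact_closedBall (0 : E (k + 1)) (1 / cN)).prod
      ((isCompact_closedBall (0 : E k →L[ℝ] E (k + 1)) (2 / cN * (|C0| + 1))).prod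
        (isCompact_sphere (0 : E (k + 1)) 1)))
    (x := fun j => (c j, A j, g j)) (fun j => by
      refine ⟨?_, ?_, ?_⟩
      · rw [mem_closedBall_zero_iff]; exact hcb j
      · rw [mem_closedBall_zero_iff]; exact hAb j
      · rw [mem_sphere_zero_iff_norm]; exact hg1 j)
  have hcl : Tendsto (fun j => c (φ j)) atTop (𝓝 cc) :=
    (continuous_fst.tendsto _).comp hlim
  have hAl : Tendsto (fun j => A (φ j)) atTop (𝓝 AA) :=
    ((continuous_fst.comp continuous_snd).tendsto _).comp hlim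
  have hgl : Tendsto (fun j => g (φ j)) atTop (𝓝 gg) :=
    ((continuous_snd.comp continuous_snd).tendsto _).comp hlim
  have hgg : ‖gg‖ = 1 := by
    have := hmem.2.2
    simpa using this
  have hAvl : ∀ v, Tendsto (fun j => A (φ j) v) atTop (𝓝 (AA v)) := fun v =>
    ((ContinuousLinearMap.apply ℝ (E (k + 1)) v).continuous.tendsto AA).comp hAl
  have hεl : Tendsto (fun j => ε (φ j)) atTop (𝓝 0) := hεlim.comp hφ.tendsto_atTop
  have hUl : Tendsto (fun j => U (φ j)) atTop (𝓝 u) := by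
    have : Tendsto (fun j => u + ε (φ j) • e) atTop (𝓝 (u + (0 : ℝ) • e)) :=
      tendsto_const_nhds.add (hεl.smul_const e)
    rw [zero_smul, add_zero] at this
    exact this
  -- properties of the limit
  have hF2 : ∀ v, N0 v = 1 → N (cc + AA v) = 1 := by
    intro v hv
    have h1 : Tendsto (fun j => N (c (φ j) + A (φ j) v)) atTop (𝓝 (N (cc + AA v))) :=
      (hcont.tendsto _).comp (hcl.add (hAvl v))
    have h2 : (fun j => N (c (φ j) + A (φ j) v)) = fun _ => 1 := funext fun j => hb1 (φ j) v hv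
    rw [h2] at h1
    exact (tendsto_nhds_unique h1 tendsto_const_nhds)
  have hF3 : ∀ v, inner ℝ u (AA v) = 0 := by
    intro v
    have h1 : Tendsto (fun j => inner ℝ (U (φ j)) (A (φ j) v)) atTop (𝓝 (inner ℝ u (AA v))) :=
      hUl.inner (hAvl v)
    have h2 : (fun j => inner ℝ (U (φ j)) (A (φ j) v)) = fun _ => (0 : ℝ) :=
      funext fun j => hA1 (φ j) v
    rw [h2] at h1
    exact tendsto_nhds_unique h1 tendsto_const_nhds
  have hF3' : inner ℝ u cc = 0 := by
    have h1 : Tendsto (fun j => inner ℝ (U (φ j)) (c (φ j))) atTop (𝓝 (inner ℝ u cc)) :=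
      hUl.inner hcl
    have h2 : (fun j => inner ℝ (U (φ j)) (c (φ j))) = fun j => ε (φ j) * ‖e‖ ^ 2 :=
      funext fun j => by rw [hA2, hUe]
    rw [h2] at h1
    have h3 : Tendsto (fun j => ε (φ j) * ‖e‖ ^ 2) atTop (𝓝 (0 * ‖e‖ ^ 2)) := hεl.mul_const _
    rw [zero_mul] at h3
    exact tendsto_nhds_unique h1 h3
  have hF4 : ∀ x, (1 - N e) * N0 x ≤ 2 * N (AA x) := by
    intro x
    have h1 : Tendsto (fun j => 2 * N (A (φ j) x)) atTop (𝓝 (2 * N (AA x))) :=
      ((hcont.tendsto _).comp (hAvl x)).const_mul 2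
    exact ge_of_tendsto' h1 fun j => hlow (φ j) x
  have hinjA : ∀ x, AA x = 0 → x = 0 := by
    intro x hx
    by_contra hx0
    have h1 := hF4 x
    have h2 := h0.pos x hx0
    rw [hx, hN0, mul_zero] at h1
    have h3 : 0 < (1 - N e) * N0 x := mul_pos (by linarith) h2
    linarith
  -- the centre of the limit
  have hF5 : cc = 0 := by
    obtain ⟨w, hw⟩ := exists_pre hinjA hu hF3 hF3'
    by_contra hne
    have hw0 : w ≠ 0 := by
      rintro rfl
      rw [map_zero] at hw
      exact hne hw.symm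
    have hr := h0.pos w hw0
    set r : ℝ := (N0 w)⁻¹ with hrdef
    have hr0 : 0 < r := inv_pos.2 hr
    have hv1 : N0 (r • w) = 1 := by
      rw [h0.smul, abs_of_pos hr0, hrdef, inv_mul_cancel₀ hr.ne']
    have h1 := hF2 (r • w) hv1
    have h2 := hF2 (-(r • w)) (by rw [h0.neg, hv1])
    rw [map_smul, hw] at h1
    rw [map_neg, map_smul, hw] at h2
    have e1 : cc + r • cc = (1 + r) • cc := by module
    have e2 : cc + -(r • cc) = (1 - r) • cc := by module
    rw [e1, hsm, abs_of_pos (by linarith)] at h1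
    rw [e2, hsm] at h2
    have h3 := hpos cc hne
    have h4 : 1 + r = |1 - r| := by
      have := h1.trans h2.symm
      exact mul_right_cancel₀ h3.ne' this
    rcases abs_cases (1 - r) with ⟨h5, -⟩ | ⟨h5, -⟩
    · rw [h5] at h4; linarith
    · rw [h5] at h4; linarith
  have hF6' : ∀ v, N0 v = 1 → N (AA v) = 1 := by
    intro v hv
    have := hF2 v hv
    rwa [hF5, zero_add] at this
  have hscale : ∀ v : E k, v ≠ 0 → N0 ((N0 v)⁻¹ • v) = 1 := by
    intro v hv
    have h1 := h0.pos v hv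
    rw [h0.smul, abs_of_pos (inv_pos.2 h1), inv_mul_cancel₀ h1.ne']
  have hF6 : ∀ v, N (AA v) = N0 v := by
    intro v
    by_cases hv : v = 0
    · rw [hv, map_zero, hN0, h0.zero]
    have h1 := h0.pos v hv
    have h2 := hF6' _ (hscale v hv)
    rw [map_smul, hsm, abs_of_pos (inv_pos.2 h1)] at h2
    field_simp at h2
    linarith
  have hcn : Tendsto (fun j => ‖c (φ j)‖) atTop (𝓝 0) := by
    have := hcl.norm
    rwa [hF5, norm_zero] at this
  -- support direction
  have hconv : ∀ j v, N0 v = 1 → ∀ μ : ℝ, 1 ≤ μ → 1 ≤ N (A j v + μ • c j) := by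
    intro j v hv μ hμ
    have h1 := hb1 j v hv
    have h2 := hb2 j v hv
    set l : ℝ := 2 / (μ + 1) with hl
    have hl0 : 0 < l := by positivity
    have hl1 : l ≤ 1 := by rw [hl, div_le_one (by linarith)]; linarith
    have h3 : c j + A j v = (1 - l) • (A j v - c j) + l • (A j v + μ • c j) := by
      have h4 : l * (μ + 1) = 2 := by rw [hl]; field_simp
      have h5 : (1 - l) • (A j v - c j) + l • (A j v + μ • c j)
          = A j v + (l * (μ + 1) - 1) • c j := by module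
      rw [h5, h4]
      module
    rw [h3] at h1
    have h4 := htri ((1 - l) • (A j v - c j)) (l • (A j v + μ • c j))
    rw [h1, hsm, hsm, h2, abs_of_nonneg (by linarith), abs_of_pos hl0] at h4
    have h5 : l * 1 ≤ l * N (A j v + μ • c j) := by linarith
    exact le_of_mul_le_mul_left h5 hl0
  have hconv' : ∀ j v, N0 v = 1 → ∀ ν : ℝ, ‖c j‖ ≤ |ν| → 1 ≤ N (A j v + ν • g j) := by
    intro j v hv ν hν
    have hcj : 0 < ‖c j‖ := norm_pos_iff.2 (hc0' j)
    have h1 : ν • g j = (ν / ‖c j‖) • c j := by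
      simp only [hg]
      rw [smul_smul]
      rfl
    rw [h1]
    rcases le_or_gt 0 ν with h2 | h2
    · rw [abs_of_nonneg h2] at hν
      exact hconv j v hv _ ((one_le_div hcj).2 hν)
    · rw [abs_of_neg h2] at hν
      have h3 := hconv j (-v) (by rw [h0.neg, hv]) (-ν / ‖c j‖) ((one_le_div hcj).2 hν)
      rw [← hneg, map_neg] at h3
      have h4 : -(-(A j v) + (-ν / ‖c j‖) • c j) = A j v + (ν / ‖c j‖) • c j := by
        rw [neg_div]; module
      rwa [h4] at h3
  have hF7' : ∀ v, N0 v = 1 → ∀ ν : ℝ, ν ≠ 0 → 1 ≤ N (AA v + ν • gg) := by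
    intro v hv ν hν
    have h1 : Tendsto (fun j => N (A (φ j) v + ν • g (φ j))) atTop (𝓝 (N (AA v + ν • gg))) :=
      (hcont.tendsto _).comp ((hAvl v).add (hgl.const_smul ν))
    refine ge_of_tendsto h1 ?_
    have h2 : ∀ᶠ j in atTop, ‖c (φ j)‖ < |ν| := hcn.eventually_lt_const (abs_pos.2 hν)
    filter_upwards [h2] with j hj
    exact hconv' (φ j) v hv ν hj.le
  have hF7 : ∀ v (μ : ℝ), N (AA v) ≤ N (AA v + μ • gg) := by
    intro v μ
    by_cases hμ : μ = 0
    · rw [hμ, zero_smul, add_zero]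
    by_cases hv : v = 0
    · rw [hv, map_zero, hN0]
      exact hG.nonneg _
    have h1 := h0.pos v hv
    have h2 := hF7' _ (hscale v hv) ((N0 v)⁻¹ * μ) (mul_ne_zero (inv_ne_zero h1.ne') hμ)
    have h3 : AA ((N0 v)⁻¹ • v) + ((N0 v)⁻¹ * μ) • gg = (N0 v)⁻¹ • (AA v + μ • gg) := by
      rw [map_smul]; module
    rw [h3, hsm, abs_of_pos (inv_pos.2 h1)] at h2
    rw [hF6]
    have h4 : N0 v * 1 ≤ N0 v * ((N0 v)⁻¹ * N (AA v + μ • gg)) :=
      mul_le_mul_of_nonneg_left h2 h1.le
    rw [mul_one, ← mul_assoc, mul_inv_cancel₀ h1.ne', one_mul] at h4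
    exact h4
  refine ⟨AA, gg, hF6, hF3, ?_, hF7⟩
  intro h1
  obtain ⟨w, hw⟩ := exists_pre hinjA hu hF3 h1
  have h2 := hF7 w (-1)
  rw [hw, neg_one_smul, add_neg_cancel, hN0] at h2
  have h3 : gg ≠ 0 := by
    intro h
    rw [h, norm_zero] at hgg
    exact zero_ne_one hgg
  linarith [hpos gg h3]

/-- Differentiability of `N` from the sections. -/
theorem isDN_of_sections (hk : 3 ≤ k) (hsm : ∀ (t : ℝ) (v : E (k + 1)), N (t • v) = |t| * N v)
    (hpos : ∀ v, v ≠ 0 → 0 < N v) (htri : ∀ v w, N (v + w) ≤ N v + N w) (hcont : Continuous N)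
    (h0 : IsDN N0)
    (hlin : ∀ u : E (k + 1), u ≠ 0 → inner ℝ u e = 0 → ∃ A : E k →L[ℝ] E (k + 1),
      (∀ v, N (A v) = N0 v) ∧ ∀ v, inner ℝ u (A v) = 0) : IsDN N := by
  refine ⟨hsm, hpos, fun y hy => ?_⟩
  have hG : IsGauge N := ⟨hcont, fun t ht v => by rw [hsm, abs_of_nonneg ht], hpos⟩
  have hN0 : N 0 = 0 := hG.zero
  have hneg : ∀ v, N (-v) = N v := fun v => by simpa using hsm (-1) v
  obtain ⟨cN, CN, hcN, hCN, hbN⟩ := hG.bounds
  -- Lipschitz
  have hLip : LipschitzWith (Real.toNNReal CN) N := by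
    refine LipschitzWith.of_dist_le_mul fun v w => ?_
    rw [Real.coe_toNNReal _ hCN.le, Real.dist_eq, dist_eq_norm, abs_le]
    have h1 := htri (v - w) w
    have h2 := htri (w - v) v
    rw [sub_add_cancel] at h1 h2
    have h3 := (hbN (v - w)).2
    have h4 : N (w - v) = N (v - w) := by rw [← hneg, neg_sub]
    constructor <;> linarith
  -- directional derivatives
  have hD : ∀ v, ∃ d : ℝ, HasLineDerivAt ℝ N d y v := by
    intro v
    obtain ⟨u, hu0, hu1, hu2, hu3⟩ : ∃ u : E (k + 1), u ≠ 0 ∧ inner ℝ e u = 0 ∧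
        inner ℝ y u = 0 ∧ inner ℝ v u = 0 := by
      set φ : E (k + 1) →ₗ[ℝ] ℝ × ℝ × ℝ := ((innerSL ℝ e : E (k + 1) →L[ℝ] ℝ) :
        E (k + 1) →ₗ[ℝ] ℝ).prod (((innerSL ℝ y : E (k + 1) →L[ℝ] ℝ) :
        E (k + 1) →ₗ[ℝ] ℝ).prod ((innerSL ℝ v : E (k + 1) →L[ℝ] ℝ) :
        E (k + 1) →ₗ[ℝ] ℝ)) with hφ
      have hker : LinearMap.ker φ ≠ ⊥ := by
        apply LinearMap.ker_ne_bot_of_finrank_lt
        rw [Module.finrank_prod, Module.finrank_prod, Module.finrank_self,
          finrank_euclideanSpace_fin]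
        omega
      obtain ⟨u, hu, hu0⟩ := Submodule.exists_mem_ne_zero_of_ne_bot hker
      rw [LinearMap.mem_ker] at hu
      exact ⟨u, hu0, congrArg Prod.fst hu, congrArg (fun z => z.2.1) hu,
        congrArg (fun z => z.2.2) hu⟩
    obtain ⟨A, hA, hAu⟩ := hlin u hu0 (by rw [real_inner_comm]; exact hu1)
    have hinj : ∀ x, A x = 0 → x = 0 := by
      intro x hx
      by_contra hx0
      have h1 := h0.pos x hx0
      rw [← hA, hx, hN0] at h1
      exact lt_irrefl _ h1
    obtain ⟨y', hy'⟩ := exists_pre hinj hu0 hAu (y := y) (by rw [real_inner_comm]; exact hu2)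
    obtain ⟨v', hv'⟩ := exists_pre hinj hu0 hAu (y := v) (by rw [real_inner_comm]; exact hu3)
    have hy0 : y' ≠ 0 := by
      rintro rfl
      rw [map_zero] at hy'
      exact hy hy'.symm
    refine ⟨fderiv ℝ N0 y' v', ?_⟩
    have h1 : HasDerivAt (fun s : ℝ => N0 (y' + s • v')) (fderiv ℝ N0 (y' + (0 : ℝ) • v') v') 0 :=
      h0.hasDerivAt_line (by simpa using hy0)
    rw [zero_smul, add_zero] at h1
    have h2 : (fun s : ℝ => N (y + s • v)) = fun s : ℝ => N0 (y' + s • v') := by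
      funext s
      rw [← hA, map_add, map_smul, hy', hv']
    unfold HasLineDerivAt
    rw [h2]
    exact h1
  choose D hD' using hD
  have hadd : ∀ v w, D (v + w) = D v + D w := by
    intro v w
    have h1 : HasDerivAt (fun t : ℝ => N (y + t • ((2 : ℝ) • v))) ((2 : ℝ) • D v) 0 :=
      (hD' v).smul 2
    have h2 : HasDerivAt (fun t : ℝ => N (y + t • ((2 : ℝ) • w))) ((2 : ℝ) • D w) 0 :=
      (hD' w).smul 2
    have h3 : HasDerivAt (fun t : ℝ => N (y + t • (v + w))) (D (v + w)) 0 := hD' (v + w)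
    have h4 := ((h1.add h2).div_const 2).sub h3
    have h5 : IsLocalMin ((fun t : ℝ => ((fun t : ℝ => N (y + t • ((2 : ℝ) • v))) +
        (fun t : ℝ => N (y + t • ((2 : ℝ) • w)))) t / 2) - fun t : ℝ => N (y + t • (v + w))) 0 := by
      refine Filter.Eventually.of_forall fun t => ?_
      simp only [Pi.sub_apply, Pi.add_apply, zero_smul, add_zero]
      have h6 := htri ((1 / 2 : ℝ) • (y + t • ((2 : ℝ) • v))) ((1 / 2 : ℝ) • (y + t • ((2 : ℝ) • w)))
      have h7 : (1 / 2 : ℝ) • (y + t • ((2 : ℝ) • v)) + (1 / 2 : ℝ) • (y + t • ((2 : ℝ) • w))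
          = y + t • (v + w) := by module
      rw [h7, hsm, hsm, abs_of_pos (by norm_num : (0 : ℝ) < 1 / 2)] at h6
      linarith
    have h6 := h5.hasDerivAt_eq_zero h4
    simp only [smul_eq_mul] at h6
    linarith
  have hsmul : ∀ (t : ℝ) v, D (t • v) = t * D v := by
    intro t v
    exact (hD' (t • v)).unique ((hD' v).smul t)
  set L : E (k + 1) →L[ℝ] ℝ := LinearMap.toContinuousLinearMap
    { toFun := D
      map_add' := hadd
      map_smul' := fun t v => by rw [hsmul]; rfl } with hL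
  have hLv : ∀ v, L v = D v := fun v => rfl
  have h1 := hLip.hasFDerivAt_of_hasLineDerivAt_of_closure (s := univ) (x := y) (L := L)
    (by rw [closure_univ]; exact subset_univ _) (fun v _ => by rw [hLv]; exact hD' v)
  exact h1.differentiableAt

/-- Assembly: the affine case with a centre different from the origin. -/
theorem euclidean_of_sections (hk : 3 ≤ k)
    (hsm : ∀ (t : ℝ) (v : E (k + 1)), N (t • v) = |t| * N v)
    (hpos : ∀ v, v ≠ 0 → 0 < N v) (htri : ∀ v w, N (v + w) ≤ N v + N w) (hcont : Continuous N)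
    (h0 : IsDN N0) (hcont0 : Continuous N0) (htri0 : ∀ v w, N0 (v + w) ≤ N0 v + N0 w)
    (hsc0 : ∀ v w : E k, v ≠ w → N0 v = N0 w → ∀ a : ℝ, 0 < a → a < 1 →
      N0 (w + a • (v - w)) < N0 v)
    (he : e ≠ 0) (he1 : N e < 1)
    (hsec : ∀ u : E (k + 1), u ≠ 0 → ∃ (A : E k →L[ℝ] E (k + 1)) (c : E (k + 1)),
      (∀ v, inner ℝ u (A v) = 0) ∧ inner ℝ u c = inner ℝ u e ∧ ∀ v, N (c + A v) ≤ 1 ↔ N0 v ≤ 1)
    (hS : ∀ x, N0 x = 1 → ∃ A : E k →L[ℝ] E (k + 1), (∀ v, N (A v) = N0 v) ∧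
      A x = (N e)⁻¹ • e) :
    ∃ b : E k →ₗ[ℝ] E k →ₗ[ℝ] ℝ, (∀ v w, b v w = b w v) ∧ ∀ v, N0 v ^ 2 = b v v := by
  have hgam := fun (u : E (k + 1)) (hu : u ≠ 0) (hue : inner ℝ u e = 0) =>
    exists_gamma hsm hpos htri hcont h0 hcont0 htri0 he he1 hsec hu hue
  have hN : IsDN N := isDN_of_sections (e := e) hk hsm hpos htri hcont h0 (fun u hu hue => by
    obtain ⟨A, γ, h1, h2, -, -⟩ := hgam u hu hue
    exact ⟨A, h1, h2⟩)
  have hN0 : N 0 = 0 := hN.zero
  -- the reflection at `e`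
  have hrefl : ∀ q, fderiv ℝ N e q = 0 → N (e + q) = N (e - q) := by
    intro q hq
    refine hN.refl_of_hyperplanes (by rw [finrank_euclideanSpace_fin]; omega) he ?_ hq
    intro l hl hle
    set u : E (k + 1) := (InnerProductSpace.toDual ℝ (E (k + 1))).symm l with hu
    have hul : ∀ v, inner ℝ u v = l v := fun v => InnerProductSpace.toDual_symm_apply
    have hu0 : u ≠ 0 := by
      intro h
      apply hl
      ext v
      rw [← hul, h, inner_zero_left]
      rfl
    obtain ⟨A, γ, h1, h2, h3, h4⟩ := hgam u hu0 (by rw [hul, hle])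
    refine ⟨γ, by rwa [← hul], fun w hw μ => ?_⟩
    have hinj : ∀ x, A x = 0 → x = 0 := by
      intro x hx
      by_contra hx0
      have h5 := h0.pos x hx0
      rw [← h1, hx, hN0] at h5
      exact lt_irrefl _ h5
    obtain ⟨w', rfl⟩ := exists_pre hinj hu0 h2 (y := w) (by rw [hul, hw])
    exact h4 w' μ
  have hNe : 0 < N e := hN.pos e he
  refine h0.euclidean hcont0 hsc0 ?_
  -- normalised vectors
  have key : ∀ x q, N0 x = 1 → fderiv ℝ N0 x q = 0 → N0 (x + q) = N0 (x - q) := by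
    intro x q hx hq
    obtain ⟨A, hA, hAx⟩ := hS x hx
    have hx0 : x ≠ 0 := by
      rintro rfl
      rw [h0.zero] at hx
      exact zero_ne_one hx
    have he' : (N e)⁻¹ • e ≠ 0 := smul_ne_zero (inv_ne_zero hNe.ne') he
    -- derivative along the line
    have h1 : HasDerivAt (fun s : ℝ => N0 (x + s • q)) 0 0 := by
      have := h0.hasDerivAt_line (w := x) (d := q) (t := 0) (by simpa using hx0)
      rw [zero_smul, add_zero, hq] at this
      exact this
    have h2 : HasDerivAt (fun s : ℝ => N (e + s • (N e • A q))) (fderiv ℝ N e (N e • A q)) 0 := by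
      have := hN.hasDerivAt_line (w := e) (d := N e • A q) (t := 0) (by simpa using he)
      rw [zero_smul, add_zero] at this
      exact this
    have h3 : (fun s : ℝ => N (e + s • (N e • A q))) = fun s : ℝ => N e * N0 (x + s • q) := by
      funext s
      rw [← hA, map_add, hAx, map_smul, ← abs_of_pos hNe, ← hsm, abs_of_pos hNe]
      congr 1
      rw [smul_add, smul_smul (N e) ((N e)⁻¹) e, mul_inv_cancel₀ hNe.ne', one_smul, smul_comm]
    rw [h3] at h2
    have h4 := h2.unique (h1.const_mul (N e))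
    rw [mul_zero] at h4
    have h5 := hrefl _ h4
    have h6 : e + N e • A q = N e • A (x + q) := by
      rw [map_add, hAx, smul_add, smul_smul, mul_inv_cancel₀ hNe.ne', one_smul]
    have h7 : e - N e • A q = N e • A (x - q) := by
      rw [map_sub, hAx, smul_sub, smul_smul, mul_inv_cancel₀ hNe.ne', one_smul]
    rw [h6, h7, hsm, hsm, hA, hA] at h5
    exact mul_left_cancel₀ (abs_pos.2 hNe.ne').ne' h5
  intro w q hw hq
  have hNw := h0.pos w hw
  have hs1 : N0 ((N0 w)⁻¹ • w) = 1 := by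
    rw [h0.smul, abs_of_pos (inv_pos.2 hNw), inv_mul_cancel₀ hNw.ne']
  have h1 : HasDerivAt (fun s : ℝ => N0 (w + s • q)) 0 0 := by
    have := h0.hasDerivAt_line (w := w) (d := q) (t := 0) (by simpa using hw)
    rw [zero_smul, add_zero, hq] at this
    exact this
  have h2 : fderiv ℝ N0 ((N0 w)⁻¹ • w) ((N0 w)⁻¹ • q) = 0 := by
    have h3 := h0.hasDerivAt_line (w := (N0 w)⁻¹ • w) (d := (N0 w)⁻¹ • q) (t := 0) (by
      rw [zero_smul, add_zero]
      exact smul_ne_zero (inv_ne_zero hNw.ne') hw)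
    have h4 : (fun s : ℝ => N0 ((N0 w)⁻¹ • w + s • ((N0 w)⁻¹ • q))) =
        fun s : ℝ => (N0 w)⁻¹ * N0 (w + s • q) := by
      funext s
      rw [← abs_of_pos (inv_pos.2 hNw), ← h0.smul, abs_of_pos (inv_pos.2 hNw)]
      congr 1
      module
    rw [h4, zero_smul, add_zero] at h3
    have h5 := h3.unique (h1.const_mul (N0 w)⁻¹)
    rw [h5, mul_zero]
  have h3 := key _ _ hs1 h2
  rw [← smul_add, ← smul_sub, h0.smul, h0.smul] at h3
  exact mul_left_cancel₀ (abs_pos.2 (inv_ne_zero hNw.ne')).ne' h3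

end

end Pool.Agent.BAN
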