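import Mathlib
import Pool.Agent.BAN.TDefs
import Pool.Agent.BAN.ReflA
import Pool.Agent.BNH.ShiftB

set_option autoImplicit false

namespace Pool.Agent.BAN

open Pool.Agent.SB (E Iso)
open Pool.Agent.H87Star (IsGauge)

/-- A smooth, strictly convex body symmetric about `p`: its gauge about `p` is a norm,
differentiable off `0`, strictly convex. -/
theorem shift {n : ℕ} {h : E n → ℝ} (hh : IsGauge h) (h1 : Sub h) (h2 : Str h)
    {p : E n} (hp : SymAt h p) :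
    ∃ N : E n → ℝ, (∀ v, N v ≤ 1 ↔ h (p + v) ≤ 1) ∧ (∀ v, v ≠ 0 → 0 < N v) ∧
      (∀ (t : ℝ) v, N (t • v) = |t| * N v) ∧ (∀ v w, N (v + w) ≤ N v + N w) ∧ Continuous N ∧
      (∀ v w, v ≠ w → N v = N w → ∀ a : ℝ, 0 < a → a < 1 → N (w + a • (v - w)) < N v) ∧
      (Smo h → IsDN N) ∧ (p ≠ 0 → N (-p) < 1) :=
  Pool.Agent.BNH.shift' hh h1 h2 hp

end Pool.Agent.BAN
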