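import Mathlib
import Pool.Agent.BAN.TDefs
import Pool.Agent.BAN.ReflC
import Pool.Agent.BAN.Shift

set_option autoImplicit false

/-! S13607, the affine case with a centre of symmetry different from the origin (helper22). -/

namespace Pool.Agent.BAN

open Pool.Agent.SB (E Iso)
open Pool.Agent.H87Star (IsGauge)
open Filter Topology

/-- Homogeneous functions with the same unit ball agree. -/
theorem eq_of_ball {X : Type*} [AddCommGroup X] [Module ℝ X] {N N' : X → ℝ}
    (hpos : ∀ v, v ≠ 0 → 0 < N v) (hpos' : ∀ v, v ≠ 0 → 0 < N' v)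
    (hsm : ∀ (t : ℝ) v, N (t • v) = |t| * N v) (hsm' : ∀ (t : ℝ) v, N' (t • v) = |t| * N' v)
    (h : ∀ v, N v ≤ 1 ↔ N' v ≤ 1) (v : X) : N v = N' v := by
  by_cases hv : v = 0
  · subst hv
    have h1 := hsm 0 0
    have h2 := hsm' 0 0
    simp at h1 h2
    rw [h1, h2]
  have h1 := hpos v hv
  have h2 := hpos' v hv
  refine le_antisymm ?_ ?_
  · have h3 := (h ((N' v)⁻¹ • v)).2 (by
      rw [hsm', abs_of_pos (inv_pos.2 h2), inv_mul_cancel₀ h2.ne'])
    rw [hsm, abs_of_pos (inv_pos.2 h2), inv_mul_le_one₀ h2] at h3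
    exact h3
  · have h3 := (h ((N v)⁻¹ • v)).1 (by
      rw [hsm, abs_of_pos (inv_pos.2 h1), inv_mul_cancel₀ h1.ne'])
    rw [hsm', abs_of_pos (inv_pos.2 h1), inv_mul_le_one₀ h1] at h3
    exact h3

theorem tail {k : ℕ} (hk : 3 ≤ k) {f : E (k + 1) → ℝ} {h : E k → ℝ} (hf : IsGauge f)
    (hh : IsGauge h) (hT : HasT f h) (h1 : Sub h) (h2 : Str h) (h3 : Smo h) (h4 : Sub f)
    (h5 : Str f) {p : E k} (hp : SymAt h p) {a : E (k + 1)} (ha : a ≠ 0) (hfa : SymAt f a)
    (hx : ∀ x, h x = 1 → ∃ A c, IsT f h A c ∧ A p + c = a ∧ ∃ κ : ℝ, A x + c = κ • a) :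
    ∃ (g : E k ≃ₗ[ℝ] E k) (z : E k), ∀ x, h x ≤ 1 ↔ ‖g x - z‖ ≤ 1 := by
  obtain ⟨N0, b0, pos0, sm0, tri0, cont0, sc0, dn0, -⟩ := shift hh h1 h2 hp
  obtain ⟨N, b1, pos1, sm1, tri1, cont1, -, -, ne1⟩ := shift hf h4 h5 hfa
  have hdn := dn0 h3
  have ha' : -a ≠ 0 := neg_ne_zero.2 ha
  have hNe : 0 < N (-a) := pos1 _ ha'
  have hsec : ∀ u : E (k + 1), u ≠ 0 → ∃ (A : E k →L[ℝ] E (k + 1)) (c : E (k + 1)),
      (∀ v, inner ℝ u (A v) = 0) ∧ inner ℝ u c = inner ℝ u (-a) ∧
        ∀ v, N (c + A v) ≤ 1 ↔ N0 v ≤ 1 := by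
    intro u hu
    obtain ⟨A, c, hA, hu'⟩ := hT u hu
    obtain ⟨w, hw⟩ := hA.mem
    refine ⟨A, A p + c - a, hu', ?_, fun v => ?_⟩
    · rw [inner_sub_right, inner_add_right, hu', ← hw, hu', inner_neg_right]
      ring
    · rw [b1, b0, ← hA.iff]
      have e1 : a + (A p + c - a + A v) = A (p + v) + c := by rw [map_add]; abel
      rw [e1]
  have hS : ∀ x, N0 x = 1 → ∃ A : E k →L[ℝ] E (k + 1), (∀ v, N (A v) = N0 v) ∧
      A x = (N (-a))⁻¹ • (-a) := by
    intro x hx1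
    have hpx : h (p + x) = 1 := by
      refine le_antisymm ((b0 x).1 hx1.le) ?_
      by_contra hlt
      push Not at hlt
      have hc1 : ContinuousAt (fun t : ℝ => h (p + t • x)) 1 := by
        have : Continuous (fun t : ℝ => h (p + t • x)) :=
          hh.cont.comp (continuous_const.add (continuous_id.smul continuous_const))
        exact this.continuousAt
      have h6 : ∀ᶠ t in 𝓝 (1 : ℝ), h (p + t • x) < 1 := by
        refine hc1.eventually_lt continuousAt_const ?_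
        simpa using hlt
      obtain ⟨δ, hδ, h7⟩ := Metric.eventually_nhds_iff.1 h6
      have h8 := h7 (y := 1 + δ / 2) (by
        rw [Real.dist_eq]
        rw [show 1 + δ / 2 - 1 = δ / 2 by ring, abs_of_pos (by positivity)]
        linarith)
      have h9 := (b0 ((1 + δ / 2) • x)).2 h8.le
      rw [sm0, hx1, abs_of_pos (by positivity)] at h9
      linarith
    obtain ⟨A, c, hA, hAp, κ, hκ⟩ := hx (p + x) hpx
    have hNA : ∀ v, N (A v) = N0 v := by
      intro v
      refine eq_of_ball (N := fun v => N (A v)) (N' := N0) ?_ pos0 ?_ sm0 ?_ v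
      · intro w hw
        refine pos1 _ fun h0 => hw ?_
        exact hA.inj (by rw [h0, map_zero])
      · intro t w
        show N (A (t • w)) = |t| * N (A w)
        rw [map_smul, sm1]
      · intro w
        show N (A w) ≤ 1 ↔ _
        rw [b1, b0, ← hA.iff]
        have e1 : a + A w = A (p + w) + c := by rw [map_add, ← hAp]; abel
        rw [e1]
    have hAx : A x = (1 - κ) • (-a) := by
      have e1 : A x = (A (p + x) + c) - (A p + c) := by rw [map_add]; abel
      rw [e1, hκ, hAp]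
      module
    have h6 := hNA x
    rw [hAx, sm1, hx1] at h6
    rcases abs_cases (1 - κ) with ⟨h7, -⟩ | ⟨h7, -⟩
    · refine ⟨A, hNA, ?_⟩
      rw [hAx, ← eq_inv_of_mul_eq_one_left h6, h7]
    · refine ⟨-A, fun v => ?_, ?_⟩
      · rw [neg_apply, ← hNA v, ← neg_one_smul ℝ (A v), sm1]
        simp
      · rw [neg_apply, hAx, ← eq_inv_of_mul_eq_one_left h6, h7, neg_smul]
  obtain ⟨b, hbs, hb⟩ := euclidean_of_sections hk sm1 pos1 tri1 cont1 hdn cont0 tri0 sc0 ha'
    (ne1 ha) hsec hS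
  have hbp : ∀ v, v ≠ 0 → 0 < b v v := by
    intro v hv
    rw [← hb]
    exact pow_pos (pos0 v hv) 2
  obtain ⟨G, hG⟩ := Pool.Agent.H87Star.exists_equiv_of_form b hbs hbp
  refine ⟨G.symm, G.symm p, fun x => ?_⟩
  have e1 : h x ≤ 1 ↔ N0 (x - p) ≤ 1 := by rw [b0, add_sub_cancel]
  rw [e1, ← map_sub]
  have h6 := hG (G.symm (x - p))
  rw [LinearEquiv.apply_symm_apply, ← hb] at h6
  have h7 : 0 ≤ N0 (x - p) := by
    by_cases h0 : x - p = 0
    · rw [h0]
      have := sm0 0 0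
      simp at this
      rw [this]
    · exact (pos0 _ h0).le
  rw [← abs_of_nonneg h7, ← abs_of_nonneg (norm_nonneg (G.symm (x - p))), ← sq_le_one_iff_abs_le_one,
    ← sq_le_one_iff_abs_le_one, h6]

end Pool.Agent.BAN
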