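import Mathlib
import Pool.Agent.SB.Deg2

set_option autoImplicit false

/-!
# BAN/VolA: invariance of the degree integral of a cone map
-/

open MeasureTheory Set
open scoped ENNReal ContDiff

namespace Pool.Agent.BAN

open Pool.Agent.SB (evH2 evH2_contDiff evH2_fderiv)

/-- The degree integral over a box is invariant under a linear homotopy as long as `φ` vanishes on the
image of the boundary. -/
theorem deg_box {N : ℕ} (Q₀ Q₁ : (Fin N → ℝ) → (Fin N → ℝ))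
    (h0 : ContDiff ℝ ∞ Q₀) (h1 : ContDiff ℝ ∞ Q₁) (a' b' : Fin N → ℝ) (hab' : a' ≤ b')
    (φ : (Fin N → ℝ) → ℝ) (hφ : ContDiff ℝ 1 φ)
    (hbd : ∀ x ∈ Icc a' b', ∀ i, (x i = a' i ∨ x i = b' i) → ∀ t ∈ Icc (0 : ℝ) 1,
      φ ((1 - t) • Q₀ x + t • Q₁ x) = 0) :
    ∫ x in Icc a' b', φ (Q₁ x) * (fderiv ℝ Q₁ x).det =
      ∫ x in Icc a' b', φ (Q₀ x) * (fderiv ℝ Q₀ x).det := by
  set a : Fin (N + 1) → ℝ := Fin.cons 0 a' with ha
  set b : Fin (N + 1) → ℝ := Fin.cons 1 b' with hb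
  have hab : a ≤ b := by
    intro i
    refine Fin.cases ?_ (fun k => ?_) i
    · simp [ha, hb]
    · simpa [ha, hb] using hab' k
  have key := Pool.Agent.H42.Deg.hom_inv (evH2 Q₀ Q₁) φ a b hab
    (fun x _ => ((evH2_contDiff h0 h1).of_le (by norm_cast)).contDiffAt) hφ (by
      intro x hx i hi h
      obtain ⟨k, rfl⟩ := Fin.exists_succ_eq.mpr hi
      refine hbd (fun j => x j.succ) ⟨fun j => ?_, fun j => ?_⟩ k ?_ (x 0) ?_
      · have h1 := hx.1 j.succ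
        simpa only [ha, hb, Fin.cons_succ] using h1
      · have h1 := hx.2 j.succ
        simpa only [ha, hb, Fin.cons_succ] using h1
      · simpa only [ha, hb, Fin.cons_succ] using h
      · have h1 := hx.1 0
        have h2 := hx.2 0
        simp only [ha, hb, Fin.cons_zero] at h1 h2
        exact ⟨h1, h2⟩)
  have ea : a ∘ Fin.succ = a' := by
    funext k
    simp [ha]
  have eb : b ∘ Fin.succ = b' := by
    funext k
    simp [hb]
  have ea0 : a 0 = 0 := by simp [ha]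
  have eb0 : b 0 = 1 := by simp [hb]
  rw [ea, eb, ea0, eb0] at key
  have eta_app : ∀ (u : Fin (N + 1) → ℝ),
      Pool.Agent.H42.Deg.eta (evH2 Q₀ Q₁) φ u (fun k => Pi.single k.succ 1) =
        φ (evH2 Q₀ Q₁ u) *
          Matrix.det (fun k : Fin N => fderiv ℝ (evH2 Q₀ Q₁) u (Pi.single k.succ 1)) := by
    intro u
    rfl
  have e1 : ∀ y : Fin N → ℝ,
      Pool.Agent.H42.Deg.eta (evH2 Q₀ Q₁) φ (Fin.cons 1 y) (fun k => Pi.single k.succ 1) =
        φ (Q₁ y) * (fderiv ℝ Q₁ y).det := by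
    intro y
    rw [eta_app, ← NE.evdet]
    have e1 : evH2 Q₀ Q₁ (Fin.cons 1 y) = Q₁ y := by
      simp [evH2]
    rw [e1]
    congr 2
    funext k
    rw [evH2_fderiv h0 h1]
    simp
  have e0 : ∀ y : Fin N → ℝ,
      Pool.Agent.H42.Deg.eta (evH2 Q₀ Q₁) φ (Fin.cons 0 y) (fun k => Pi.single k.succ 1) =
        φ (Q₀ y) * (fderiv ℝ Q₀ y).det := by
    intro y
    rw [eta_app, ← NE.evdet]
    have e1 : evH2 Q₀ Q₁ (Fin.cons 0 y) = Q₀ y := by
      simp [evH2]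
    rw [e1]
    congr 2
    funext k
    rw [evH2_fderiv h0 h1]
    simp
  simp_rw [e1, e0] at key
  exact key

variable {k : ℕ}

/-- The cone over a map. -/
noncomputable def cone (g : (Fin k → ℝ) → (Fin (k + 1) → ℝ)) (v : Fin (k + 1) → ℝ) :
    Fin (k + 1) → ℝ :=
  v 0 • g (fun i => v i.succ)

/-- The box `[0, R] × [-1, 1]ᵏ`. -/
def box (k : ℕ) (R : ℝ) : Set (Fin (k + 1) → ℝ) :=
  Icc (Fin.cons 0 (fun _ => -1)) (Fin.cons R (fun _ => 1))

theorem mem_box {R : ℝ} {v : Fin (k + 1) → ℝ} :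
    v ∈ box k R ↔ (0 ≤ v 0 ∧ v 0 ≤ R) ∧ (fun i : Fin k => v i.succ) ∈ Icc (-1 : Fin k → ℝ) 1 := by
  unfold box
  constructor
  · rintro ⟨h1, h2⟩
    refine ⟨⟨by simpa using h1 0, by simpa using h2 0⟩, fun i => ?_, fun i => ?_⟩
    · simpa using h1 i.succ
    · simpa using h2 i.succ
  · rintro ⟨⟨h1, h2⟩, h3, h4⟩
    refine ⟨fun i => ?_, fun i => ?_⟩
    · refine Fin.cases ?_ (fun j => ?_) i
      · simpa using h1
      · simpa using h3 j
    · refine Fin.cases ?_ (fun j => ?_) i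
      · simpa using h2
      · simpa using h4 j

theorem isCompact_box (R : ℝ) : IsCompact (box k R) := isCompact_Icc

theorem measurableSet_box (R : ℝ) : MeasurableSet (box k R) := measurableSet_Icc

theorem cone_eq (g : (Fin k → ℝ) → (Fin (k + 1) → ℝ)) :
    cone g = fun v => v 0 • g (NE.evT k v) := by
  funext v
  rw [NE.evT_apply]
  rfl

theorem cone_contDiff {g : (Fin k → ℝ) → (Fin (k + 1) → ℝ)} (hg : ContDiff ℝ ∞ g) :
    ContDiff ℝ ∞ (cone g) := by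
  rw [cone_eq]
  have hu : ContDiff ℝ ∞ fun u : Fin (k + 1) → ℝ => u 0 := contDiff_apply ℝ ℝ 0
  exact hu.smul (hg.comp (NE.evT k).contDiff)

/-- Invariance of the degree integral of the cone. -/
theorem cone_inv (g₀ g₁ : (Fin k → ℝ) → (Fin (k + 1) → ℝ))
    (h0 : ContDiff ℝ ∞ g₀) (h1 : ContDiff ℝ ∞ g₁) (φ : (Fin (k + 1) → ℝ) → ℝ)
    (hφ : ContDiff ℝ 1 φ) {R : ℝ} (hR0 : 0 ≤ R) (hz : φ 0 = 0)
    (hR : ∀ w ∈ Icc (-1 : Fin k → ℝ) 1, ∀ t ∈ Icc (0 : ℝ) 1,
      φ (R • ((1 - t) • g₀ w + t • g₁ w)) = 0)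
    (hb : ∀ w ∈ Icc (-1 : Fin k → ℝ) 1, (∃ i, |w i| = 1) → ∀ t ∈ Icc (0 : ℝ) 1,
      ∀ r ∈ Icc (0 : ℝ) R, φ (r • ((1 - t) • g₀ w + t • g₁ w)) = 0) :
    ∫ v in box k R, φ (cone g₁ v) * (fderiv ℝ (cone g₁) v).det =
      ∫ v in box k R, φ (cone g₀ v) * (fderiv ℝ (cone g₀) v).det := by
  refine deg_box (cone g₀) (cone g₁) (cone_contDiff h0) (cone_contDiff h1) _ _ ?_ φ hφ ?_
  · intro i
    refine Fin.cases ?_ (fun j => ?_) i
    · simpa using hR0
    · simp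
  · intro v hv i hi t ht
    have hv' := mem_box.1 hv
    have e : (1 - t) • cone g₀ v + t • cone g₁ v =
        v 0 • ((1 - t) • g₀ (fun i => v i.succ) + t • g₁ (fun i => v i.succ)) := by
      unfold cone
      module
    rw [e]
    revert hi
    refine Fin.cases (fun hi => ?_) (fun j hi => ?_) i
    · simp only [Fin.cons_zero] at hi
      rcases hi with hi | hi
      · rw [hi, zero_smul]; exact hz
      · rw [hi]; exact hR _ hv'.2 t ht
    · simp only [Fin.cons_succ] at hi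
      refine hb _ hv'.2 ⟨j, ?_⟩ t ht (v 0) ⟨hv'.1.1, hv'.1.2⟩
      rcases hi with hi | hi
      · rw [hi]; norm_num
      · rw [hi]; norm_num

/-- bound for the Jacobian of a cone -/
theorem det_bound {N : ℕ} (A : (Fin N → ℝ) →L[ℝ] (Fin N → ℝ)) {M : ℝ} (hM : ‖A‖ ≤ M) :
    |A.det| ≤ (N.factorial : ℝ) * M ^ N := by
  rw [← NE.evdet]
  have h := Matrix.det_le (A := (fun k j : Fin N => A (Pi.single k 1) j : Matrix (Fin N) (Fin N) ℝ))
    (abv := AbsoluteValue.abs) (x := M) (fun i j => by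
      show |A (Pi.single i 1) j| ≤ M
      have h1 : |A (Pi.single i 1) j| ≤ ‖A (Pi.single i 1)‖ := by
        have := norm_le_pi_norm (A (Pi.single i 1)) j
        rwa [Real.norm_eq_abs] at this
      have h2 : ‖A (Pi.single i 1)‖ ≤ ‖A‖ * ‖(Pi.single i 1 : Fin N → ℝ)‖ := A.le_opNorm _
      have h3 : ‖(Pi.single i 1 : Fin N → ℝ)‖ ≤ 1 := by
        rw [Pi.norm_single]; simp
      calc |A (Pi.single i 1) j| ≤ ‖A‖ * ‖(Pi.single i 1 : Fin N → ℝ)‖ := h1.trans h2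
        _ ≤ ‖A‖ * 1 := by gcongr
        _ ≤ M := by rw [mul_one]; exact hM)
  simp only [Fintype.card_fin, nsmul_eq_mul] at h
  exact h

theorem fderiv_cone {g : (Fin k → ℝ) → (Fin (k + 1) → ℝ)} (hg : Differentiable ℝ g)
    (v : Fin (k + 1) → ℝ) : fderiv ℝ (cone g) v =
      v 0 • (fderiv ℝ g (fun i => v i.succ)).comp (NE.evT k) +
        (ContinuousLinearMap.proj 0 : (Fin (k + 1) → ℝ) →L[ℝ] ℝ).smulRight
          (g (fun i => v i.succ)) := by
  have hu : HasFDerivAt (fun u : Fin (k + 1) → ℝ => u 0)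
      (ContinuousLinearMap.proj 0 : (Fin (k + 1) → ℝ) →L[ℝ] ℝ) v :=
    (ContinuousLinearMap.proj 0 : (Fin (k + 1) → ℝ) →L[ℝ] ℝ).hasFDerivAt
  have hT : HasFDerivAt (fun u => NE.evT k u) (NE.evT k) v := (NE.evT k).hasFDerivAt
  have hQ0 : HasFDerivAt (fun u => g (NE.evT k u))
      ((fderiv ℝ g (NE.evT k v)).comp (NE.evT k)) v :=
    (hg (NE.evT k v)).hasFDerivAt.comp v hT
  have h2 := hu.fun_smul hQ0
  rw [cone_eq, h2.fderiv, NE.evT_apply]

theorem norm_fderiv_cone_le {g : (Fin k → ℝ) → (Fin (k + 1) → ℝ)} (hg : Differentiable ℝ g)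
    {v : Fin (k + 1) → ℝ} {R C L : ℝ} (hv : v ∈ box k R) (hC : ‖g (fun i => v i.succ)‖ ≤ C)
    (hL : ‖fderiv ℝ g (fun i => v i.succ)‖ ≤ L) : ‖fderiv ℝ (cone g) v‖ ≤ R * L + C := by
  rw [fderiv_cone hg]
  have hv' := mem_box.1 hv
  have hL0 : 0 ≤ L := (norm_nonneg _).trans hL
  have hR0 : 0 ≤ R := hv'.1.1.trans hv'.1.2
  have hT : ‖NE.evT k‖ ≤ 1 := by
    refine ContinuousLinearMap.opNorm_le_bound _ zero_le_one fun u => ?_
    rw [one_mul, NE.evT_apply]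
    exact (pi_norm_le_iff_of_nonneg (norm_nonneg _)).2 fun i => norm_le_pi_norm u i.succ
  have hp : ‖(ContinuousLinearMap.proj 0 : (Fin (k + 1) → ℝ) →L[ℝ] ℝ)‖ ≤ 1 := by
    refine ContinuousLinearMap.opNorm_le_bound _ zero_le_one fun u => ?_
    rw [one_mul]
    exact norm_le_pi_norm u 0
  refine (norm_add_le _ _).trans (add_le_add ?_ ?_)
  · rw [norm_smul, Real.norm_eq_abs, abs_of_nonneg hv'.1.1]
    have h1 := ContinuousLinearMap.opNorm_comp_le (fderiv ℝ g (fun i => v i.succ)) (NE.evT k)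
    calc v 0 * ‖(fderiv ℝ g (fun i => v i.succ)).comp (NE.evT k)‖ ≤ R * (L * 1) := by
          refine mul_le_mul hv'.1.2 (h1.trans ?_) (norm_nonneg _) hR0
          gcongr
      _ = R * L := by ring
  · rw [ContinuousLinearMap.norm_smulRight_apply]
    calc _ ≤ 1 * C := by
          gcongr
      _ = C := one_mul _

end Pool.Agent.BAN
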