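import Mathlib
import Pool.Agent.BAN.VolA

set_option autoImplicit false

/-!
# BAN/VolB: smoothing, limits of the degree integrals
-/

open MeasureTheory Set Filter Topology Metric
open scoped ENNReal ContDiff NNReal Convolution Manifold

namespace Pool.Agent.BAN

/-- Smoothing of Lipschitz maps. -/
theorem mollify {k : ℕ} {V : Type*} [NormedAddCommGroup V] [NormedSpace ℝ V]
    [FiniteDimensional ℝ V] {S : (Fin k → ℝ) → V} {L : ℝ≥0} (hS : LipschitzWith L S) {η : ℝ}
    (hη : 0 < η) :
    ∃ S' : (Fin k → ℝ) → V, ContDiff ℝ ∞ S' ∧ (∀ w, ‖S' w - S w‖ ≤ η) ∧ LipschitzWith L S' := by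
  have : CompleteSpace V := FiniteDimensional.complete ℝ V
  set δ : ℝ := η / (L + 1) with hδ
  have hL1 : (0 : ℝ) < L + 1 := by positivity
  have hδ0 : 0 < δ := by positivity
  let g : ContDiffBump (0 : Fin k → ℝ) := ⟨δ / 2, δ, by positivity, by linarith⟩
  set S' : (Fin k → ℝ) → V := (g.normed volume ⋆[ContinuousLinearMap.lsmul ℝ ℝ, volume] S) with hS'
  refine ⟨S', ?_, fun w => ?_, ?_⟩
  · have h := g.hasCompactSupport_normed (μ := volume) |>.contDiff_convolution_left
      (L := ContinuousLinearMap.lsmul ℝ ℝ) (μ := volume) (n := ⊤)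
      (g.contDiff_normed (n := ⊤)) (hS.continuous.locallyIntegrable (μ := volume))
    exact h
  · rw [← dist_eq_norm]
    refine g.dist_normed_convolution_le hS.continuous.aestronglyMeasurable fun x hx => ?_
    have h1 := hS.dist_le_mul x w
    have h2 : dist x w ≤ δ := (mem_ball.1 hx).le
    calc dist (S x) (S w) ≤ L * dist x w := h1
      _ ≤ L * δ := by gcongr
      _ ≤ (L + 1) * δ := by nlinarith
      _ = η := by rw [hδ]; field_simp
  · refine LipschitzWith.of_dist_le_mul fun x y => ?_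
    have hint : ∀ z, Integrable (fun t => g.normed volume t • S (z - t)) volume := by
      intro z
      refine Continuous.integrable_of_hasCompactSupport ?_ ?_
      · exact g.continuous_normed.smul (hS.continuous.comp (continuous_const.sub continuous_id))
      · exact (g.hasCompactSupport_normed (μ := volume)).smul_right
    have e : S' x - S' y = ∫ t, g.normed volume t • (S (x - t) - S (y - t)) := by
      rw [hS', convolution_def, convolution_def]
      simp only [ContinuousLinearMap.lsmul_apply]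
      rw [← integral_sub (hint x) (hint y)]
      refine integral_congr_ae (Eventually.of_forall fun t => ?_)
      simp only [smul_sub]
    rw [dist_eq_norm, e]
    have hnn : ∀ t, 0 ≤ g.normed (volume : Measure (Fin k → ℝ)) t := g.nonneg_normed
    calc ‖∫ t, g.normed volume t • (S (x - t) - S (y - t))‖
        ≤ ∫ t, g.normed volume t * (L * dist x y) := by
          refine norm_integral_le_of_norm_le ?_ (Eventually.of_forall fun t => ?_)
          · exact g.integrable_normed.mul_const _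
          · rw [norm_smul, Real.norm_eq_abs, abs_of_nonneg (hnn t)]
            refine mul_le_mul_of_nonneg_left ?_ (hnn t)
            rw [← dist_eq_norm]
            refine (hS.dist_le_mul _ _).trans (le_of_eq ?_)
            rw [dist_sub_right]
      _ = L * dist x y := by
          rw [integral_mul_const, g.integral_normed, one_mul]

/-- Smoothing of test functions which vanish on a half space. -/
theorem phi_approx {n : ℕ} (φ : (Fin (n + 1) → ℝ) → ℝ) (hc : Continuous φ) {M : ℝ}
    (hM : ∀ y, M ≤ ‖y‖ → φ y = 0) (h0 : ∀ y, 0 ≤ y 0 → φ y = 0) {η : ℝ} (hη : 0 < η) :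
    ∃ δ > 0, ∃ ψ : (Fin (n + 1) → ℝ) → ℝ, ContDiff ℝ 1 ψ ∧ (∀ y, |ψ y - φ y| ≤ η) ∧
      (∀ y, -δ ≤ y 0 → ψ y = 0) ∧ (∀ y, M + 1 ≤ ‖y‖ → ψ y = 0) := by
  classical
  have hcs : HasCompactSupport φ := by
    refine HasCompactSupport.intro (isCompact_closedBall (0 : Fin (n + 1) → ℝ) M) fun y hy => ?_
    refine hM y ?_
    rw [mem_closedBall, dist_zero_right, not_le] at hy
    exact hy.le
  have huc : UniformContinuous φ := hcs.uniformContinuous_of_continuous hc
  obtain ⟨δ, hδ0, hδ⟩ := Metric.uniformContinuous_iff.1 huc (η / 2) (by positivity)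
  -- small values near the half space
  have hsmall : ∀ y, -δ < y 0 → |φ y| < η := by
    intro y hy
    by_cases h : 0 ≤ y 0
    · rw [h0 y h, abs_zero]; exact hη
    · push Not at h
      have h1 : dist y (Function.update y 0 0) < δ := by
        rw [dist_eq_norm]
        refine lt_of_le_of_lt ((pi_norm_le_iff_of_nonneg (abs_nonneg (y 0))).2 fun i => ?_) ?_
        · by_cases hi : i = 0
          · subst hi
            simp
          · simp [Function.update_of_ne hi]
        · rw [abs_of_neg h]; linarith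
      have h2 := hδ h1
      rw [h0 (Function.update y 0 0) (by simp), Real.dist_eq, sub_zero] at h2
      linarith
  set C : Set (Fin (n + 1) → ℝ) := {y | -(δ / 2) ≤ y 0} ∪ {y | M + 1 ≤ ‖y‖} with hC
  have hCc : IsClosed C := by
    refine IsClosed.union ?_ ?_
    · exact isClosed_le continuous_const (continuous_apply 0)
    · exact isClosed_le continuous_const continuous_norm
  let t : (Fin (n + 1) → ℝ) → Set ℝ := fun y => if y ∈ C then {0} else ball (φ y) η
  have ht : ∀ y, Convex ℝ (t y) := by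
    intro y
    by_cases h : y ∈ C
    · simp only [t, h, if_true]; exact convex_singleton 0
    · simp only [t, h, if_false]; exact convex_ball _ _
  have hloc : ∀ x : Fin (n + 1) → ℝ, ∃ c : ℝ, ∀ᶠ y in 𝓝 x, c ∈ t y := by
    intro x
    by_cases h : x ∈ C
    · refine ⟨0, ?_⟩
      have hopen : IsOpen ({y : Fin (n + 1) → ℝ | -δ < y 0} ∪ {y | M < ‖y‖}) := by
        refine IsOpen.union ?_ ?_
        · exact isOpen_lt continuous_const (continuous_apply 0)
        · exact isOpen_lt continuous_const continuous_norm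
      have hx : x ∈ ({y : Fin (n + 1) → ℝ | -δ < y 0} ∪ {y | M < ‖y‖}) := by
        rcases h with h | h
        · left
          simp only [mem_setOf_eq] at h ⊢
          linarith
        · right
          simp only [mem_setOf_eq] at h ⊢
          linarith
      filter_upwards [hopen.mem_nhds hx] with y hy
      by_cases hyC : y ∈ C
      · simp only [t, hyC, if_true]; exact mem_singleton 0
      · simp only [t, hyC, if_false]
        rw [mem_ball, dist_comm, Real.dist_eq, sub_zero]
        rcases hy with hy | hy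
        · exact hsmall y hy
        · rw [hM y hy.le, abs_zero]; exact hη
    · refine ⟨φ x, ?_⟩
      have h1 : ∀ᶠ y in 𝓝 x, y ∈ Cᶜ := hCc.isOpen_compl.mem_nhds h
      have h2 : ∀ᶠ y in 𝓝 x, dist (φ y) (φ x) < η := Metric.tendsto_nhds.1 hc.continuousAt η hη
      filter_upwards [h1, h2] with y hy1 hy2
      have hyC : y ∉ C := hy1
      simp only [t, hyC, if_false]
      rw [mem_ball, dist_comm]
      exact hy2
  obtain ⟨ψ, hψ⟩ := exists_contMDiffMap_forall_mem_convex_of_local_const
    (n := 1) (𝓘(ℝ, Fin (n + 1) → ℝ)) ht hloc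
  refine ⟨δ / 2, by positivity, ψ, ψ.contMDiff.contDiff, fun y => ?_, fun y hy => ?_,
    fun y hy => ?_⟩
  · have h := hψ y
    by_cases hyC : y ∈ C
    · simp only [t, hyC, if_true] at h
      have h1 : ψ y = 0 := h
      rw [h1, zero_sub, abs_neg]
      rcases hyC with hy | hy
      · exact (hsmall y (by simp only [mem_setOf_eq] at hy; linarith)).le
      · rw [hM y (by simp only [mem_setOf_eq] at hy; linarith), abs_zero]; exact hη.le
    · simp only [t, hyC, if_false] at h
      rw [mem_ball, Real.dist_eq] at h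
      exact h.le
  · have hyC : y ∈ C := Or.inl hy
    have h := hψ y
    simp only [t, hyC, if_true] at h
    exact h
  · have hyC : y ∈ C := Or.inr hy
    have h := hψ y
    simp only [t, hyC, if_true] at h
    exact h

variable {k : ℕ}

/-- the degree integral -/
noncomputable def DI (R : ℝ) (φ : (Fin (k + 1) → ℝ) → ℝ) (g : (Fin k → ℝ) → (Fin (k + 1) → ℝ)) :
    ℝ :=
  ∫ v in box k R, φ (cone g v) * (fderiv ℝ (cone g) v).det

theorem DI_cont {φ : (Fin (k + 1) → ℝ) → ℝ} (hφ : Continuous φ)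
    {g : (Fin k → ℝ) → (Fin (k + 1) → ℝ)} (hg : ContDiff ℝ ∞ g) :
    Continuous fun v => φ (cone g v) * (fderiv ℝ (cone g) v).det := by
  have h1 : Continuous (cone g) := (cone_contDiff hg).continuous
  have h2 : Continuous (fderiv ℝ (cone g)) := (cone_contDiff hg).continuous_fderiv (by simp)
  exact (hφ.comp h1).mul (ContinuousLinearMap.continuous_det.comp h2)

theorem DI_integrableOn {φ : (Fin (k + 1) → ℝ) → ℝ} (hφ : Continuous φ)
    {g : (Fin k → ℝ) → (Fin (k + 1) → ℝ)} (hg : ContDiff ℝ ∞ g) (R : ℝ) :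
    IntegrableOn (fun v => φ (cone g v) * (fderiv ℝ (cone g) v).det) (box k R) :=
  (DI_cont hφ hg).continuousOn.integrableOn_compact (isCompact_box R)

theorem DI_sub_le {φ ψ : (Fin (k + 1) → ℝ) → ℝ} (hφ : Continuous φ) (hψ : Continuous ψ)
    {g : (Fin k → ℝ) → (Fin (k + 1) → ℝ)} (hg : ContDiff ℝ ∞ g) {R C L η : ℝ}
    (hC : ∀ w ∈ Icc (-1 : Fin k → ℝ) 1, ‖g w‖ ≤ C)
    (hL : ∀ w ∈ Icc (-1 : Fin k → ℝ) 1, ‖fderiv ℝ g w‖ ≤ L)
    (hη : ∀ y, |ψ y - φ y| ≤ η) :
    |DI R φ g - DI R ψ g| ≤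
      η * (((k + 1).factorial : ℝ) * (R * L + C) ^ (k + 1)) * (volume (box k R)).toReal := by
  unfold DI
  rw [← integral_sub (DI_integrableOn hφ hg R) (DI_integrableOn hψ hg R)]
  have hη0 : 0 ≤ η := (abs_nonneg _).trans (hη 0)
  have h := norm_setIntegral_le_of_norm_le_const (μ := volume) (s := box k R)
    (f := fun v => φ (cone g v) * (fderiv ℝ (cone g) v).det -
      ψ (cone g v) * (fderiv ℝ (cone g) v).det)
    (C := η * (((k + 1).factorial : ℝ) * (R * L + C) ^ (k + 1)))
    ((isCompact_box R).measure_lt_top) (fun v hv => by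
      rw [← sub_mul, norm_mul, Real.norm_eq_abs, Real.norm_eq_abs]
      have hv' := mem_box.1 hv
      refine mul_le_mul ?_ ?_ (abs_nonneg _) hη0
      · rw [abs_sub_comm]; exact hη _
      · exact det_bound _ (norm_fderiv_cone_le (hg.differentiable (by simp)) hv (hC _ hv'.2)
          (hL _ hv'.2)))
  exact h

/-- The limit of the degree integrals. -/
theorem cone_limit (g N : (Fin k → ℝ) → (Fin (k + 1) → ℝ)) (hN : ContDiff ℝ ∞ N)
    {c C L M R : ℝ} (hR0 : 0 ≤ R) (hRc : M + 2 ≤ R * c)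
    (hc : ∀ w ∈ Icc (-1 : Fin k → ℝ) 1, ∀ t ∈ Icc (0 : ℝ) 1, c ≤ ‖(1 - t) • N w + t • g w‖)
    (hb : ∀ w ∈ Icc (-1 : Fin k → ℝ) 1, (∃ i, |w i| = 1) → 0 ≤ N w 0 ∧ g w 0 = 0)
    (hCN : ∀ w ∈ Icc (-1 : Fin k → ℝ) 1, ‖N w‖ ≤ C)
    (hCg : ∀ w ∈ Icc (-1 : Fin k → ℝ) 1, ‖g w‖ ≤ C)
    (hLN : ∀ w ∈ Icc (-1 : Fin k → ℝ) 1, ‖fderiv ℝ N w‖ ≤ L)
    (φ : (Fin (k + 1) → ℝ) → ℝ) (hφ : Continuous φ)
    (hM : ∀ y, M ≤ ‖y‖ → φ y = 0) (h0 : ∀ y, 0 ≤ y 0 → φ y = 0) {η : ℝ} (hη : 0 < η) :
    ∃ δ > 0, ∀ g' : (Fin k → ℝ) → (Fin (k + 1) → ℝ), ContDiff ℝ ∞ g' →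
      (∀ w ∈ Icc (-1 : Fin k → ℝ) 1, ‖g' w - g w‖ ≤ δ) →
      (∀ w ∈ Icc (-1 : Fin k → ℝ) 1, ‖fderiv ℝ g' w‖ ≤ L) →
      |DI R φ g' - DI R φ N| ≤ η := by
  set B : ℝ := ((k + 1).factorial : ℝ) * (R * L + (C + 1)) ^ (k + 1) * (volume (box k R)).toReal
    with hB
  have hmem0 : (0 : Fin k → ℝ) ∈ Icc (-1 : Fin k → ℝ) 1 := by
    constructor <;> intro i <;> simp
  have hC0 : 0 ≤ C := (norm_nonneg _).trans (hCN 0 hmem0)
  have hL0 : 0 ≤ L := (norm_nonneg _).trans (hLN 0 hmem0)
  have hB0 : 0 ≤ B := by positivity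
  set η' : ℝ := η / (2 * (B + 1)) with hη'
  have hη'0 : 0 < η' := by positivity
  obtain ⟨δ₁, hδ₁, ψ, hψ1, hψ2, hψ3, hψ4⟩ := phi_approx φ hφ hM h0 hη'0
  set δ : ℝ := min 1 (min (δ₁ / (R + 1)) (1 / (R + 1))) with hδ
  have hδ0 : 0 < δ := by positivity
  have hδ1 : δ ≤ 1 := min_le_left _ _
  have hδ2 : R * δ ≤ δ₁ := by
    have h1 : δ ≤ δ₁ / (R + 1) := (min_le_right _ _).trans (min_le_left _ _)
    calc R * δ ≤ R * (δ₁ / (R + 1)) := by gcongr
      _ ≤ (R + 1) * (δ₁ / (R + 1)) := by
          have : 0 ≤ δ₁ / (R + 1) := by positivity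
          nlinarith
      _ = δ₁ := by field_simp
  have hδ3 : R * δ ≤ 1 := by
    have h1 : δ ≤ 1 / (R + 1) := (min_le_right _ _).trans (min_le_right _ _)
    calc R * δ ≤ R * (1 / (R + 1)) := by gcongr
      _ ≤ (R + 1) * (1 / (R + 1)) := by
          have : 0 ≤ 1 / (R + 1) := by positivity
          nlinarith
      _ = 1 := by field_simp
  refine ⟨δ, hδ0, fun g' hg' hgg hLg => ?_⟩
  have hψc : Continuous ψ := hψ1.continuous
  -- equality for ψ
  have key : DI R ψ g' = DI R ψ N := by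
    refine cone_inv N g' hN hg' ψ hψ1 hR0 ?_ ?_ ?_
    · exact hψ3 0 (by simp [hδ₁.le])
    · intro w hw t ht
      refine hψ4 _ ?_
      rw [norm_smul, Real.norm_eq_abs, abs_of_nonneg hR0]
      have h1 := hc w hw t ht
      have h2 : (1 - t) • N w + t • g' w = ((1 - t) • N w + t • g w) + t • (g' w - g w) := by
        module
      have h3 : c - δ ≤ ‖(1 - t) • N w + t • g' w‖ := by
        rw [h2]
        have h4 : ‖t • (g' w - g w)‖ ≤ δ := by
          rw [norm_smul, Real.norm_eq_abs, abs_of_nonneg ht.1]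
          calc t * ‖g' w - g w‖ ≤ 1 * δ := mul_le_mul ht.2 (hgg w hw) (norm_nonneg _) zero_le_one
            _ = δ := one_mul δ
        have h5 := norm_sub_norm_le ((1 - t) • N w + t • g w) (-(t • (g' w - g w)))
        rw [norm_neg, sub_neg_eq_add] at h5
        linarith
      calc M + 1 ≤ R * c - R * δ := by linarith
        _ = R * (c - δ) := by ring
        _ ≤ R * ‖(1 - t) • N w + t • g' w‖ := by gcongr
    · intro w hw hwi t ht r hr
      refine hψ3 _ ?_
      obtain ⟨h1, h2⟩ := hb w hw hwi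
      have h3 : -δ ≤ g' w 0 := by
        have h4 := norm_le_pi_norm (g' w - g w) 0
        rw [Real.norm_eq_abs, Pi.sub_apply, h2, sub_zero] at h4
        have h5 := (abs_le.1 (h4.trans (hgg w hw))).1
        exact h5
      simp only [Pi.smul_apply, Pi.add_apply, smul_eq_mul]
      have h6 : 0 ≤ (1 - t) * N w 0 := mul_nonneg (by linarith [ht.2]) h1
      have h7 : -δ ≤ t * g' w 0 := by
        have ht0 := ht.1
        have ht1 := ht.2
        nlinarith
      have h8 : -δ ≤ (1 - t) * N w 0 + t * g' w 0 := by linarith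
      have hr0 := hr.1
      have hr1 := hr.2
      have h9 : r * (-δ) ≤ r * ((1 - t) * N w 0 + t * g' w 0) := by gcongr
      nlinarith
  have b1 : |DI R φ g' - DI R ψ g'| ≤ η' * B := by
    have h := DI_sub_le (φ := φ) (ψ := ψ) hφ hψc hg' (R := R) (C := C + 1) (L := L)
      (fun w hw => by
        have h1 := hCg w hw
        have h2 := hgg w hw
        have h3 := norm_sub_norm_le (g' w) (g w)
        linarith) hLg hψ2
    rw [hB]
    calc _ ≤ _ := h
      _ = _ := by ring
  have b2 : |DI R φ N - DI R ψ N| ≤ η' * B := by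
    have h := DI_sub_le (φ := φ) (ψ := ψ) hφ hψc hN (R := R) (C := C + 1) (L := L)
      (fun w hw => by have := hCN w hw; linarith) hLN hψ2
    rw [hB]
    calc _ ≤ _ := h
      _ = _ := by ring
  have e : DI R φ g' - DI R φ N = (DI R φ g' - DI R ψ g') - (DI R φ N - DI R ψ N) := by
    rw [key]; ring
  rw [e]
  have h1 : η' * B ≤ η / 2 := by
    rw [hη', div_mul_eq_mul_div, div_le_div_iff₀ (by positivity) (by norm_num)]
    nlinarith
  calc |(DI R φ g' - DI R ψ g') - (DI R φ N - DI R ψ N)|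
      ≤ |DI R φ g' - DI R ψ g'| + |DI R φ N - DI R ψ N| := abs_sub _ _
    _ ≤ η / 2 + η / 2 := add_le_add (b1.trans h1) (b2.trans h1)
    _ = η := by ring

end Pool.Agent.BAN
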