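import Mathlib
import Pool.Agent.BAN.VolB

set_option autoImplicit false

/-!
# BAN/VolC1: the comparison map, the shell estimate
-/

open MeasureTheory Set Filter Topology Metric
open scoped ENNReal ContDiff NNReal

namespace Pool.Agent.BAN

variable {k : ℕ}

/-- The comparison map `w ↦ (2 |w|² - 1, w)`. -/
noncomputable def N1 (w : Fin k → ℝ) : Fin (k + 1) → ℝ := Fin.cons (2 * (∑ i, w i ^ 2) - 1) w

theorem N1_zero (w : Fin k → ℝ) : N1 w 0 = 2 * (∑ i, w i ^ 2) - 1 := rfl

theorem N1_succ (w : Fin k → ℝ) (i : Fin k) : N1 w i.succ = w i := rfl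

theorem N1_contDiff : ContDiff ℝ ∞ (N1 (k := k)) := by
  refine contDiff_pi.2 fun i => ?_
  refine Fin.cases ?_ (fun j => ?_) i
  · simp only [N1_zero]
    refine ContDiff.sub (contDiff_const.mul (ContDiff.sum fun i _ => ?_)) contDiff_const
    exact (contDiff_apply ℝ ℝ i).pow 2
  · simp only [N1_succ]
    exact contDiff_apply ℝ ℝ j

theorem N1_fderiv (w u : Fin k → ℝ) :
    fderiv ℝ N1 w u = Fin.cons (4 * ∑ i, w i * u i) u := by
  have hd : DifferentiableAt ℝ (N1 (k := k)) w := (N1_contDiff.differentiable (by simp)) w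
  funext j
  have e : fderiv ℝ N1 w u j = fderiv ℝ (fun x => N1 (k := k) x j) w u := by
    rw [(hasFDerivAt_pi'.1 hd.hasFDerivAt j).fderiv]
    rfl
  rw [e]
  refine Fin.cases ?_ (fun i => ?_) j
  · simp only [N1_zero, Fin.cons_zero]
    have h1 : ∀ i : Fin k, HasFDerivAt (fun x : Fin k → ℝ => x i ^ 2)
        ((2 * w i) • (ContinuousLinearMap.proj i : (Fin k → ℝ) →L[ℝ] ℝ)) w := by
      intro i
      have := ((ContinuousLinearMap.proj i : (Fin k → ℝ) →L[ℝ] ℝ).hasFDerivAt (x := w)).pow 2
      simpa using this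
    have h2 : HasFDerivAt (fun x : Fin k → ℝ => ∑ i, x i ^ 2)
        (∑ i, (2 * w i) • (ContinuousLinearMap.proj i : (Fin k → ℝ) →L[ℝ] ℝ)) w :=
      HasFDerivAt.fun_sum fun i _ => h1 i
    have h3 := (h2.const_mul 2).sub_const 1
    rw [h3.fderiv]
    simp [Finset.mul_sum]
    refine Finset.sum_congr rfl fun i _ => ?_
    ring
  · simp only [N1_succ, Fin.cons_succ]
    have h := (ContinuousLinearMap.proj i : (Fin k → ℝ) →L[ℝ] ℝ).hasFDerivAt (x := w)
    have h' : HasFDerivAt (fun x : Fin k → ℝ => x i)
      (ContinuousLinearMap.proj i : (Fin k → ℝ) →L[ℝ] ℝ) w := h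
    rw [h'.fderiv]
    rfl

theorem N1_fderiv_single (w : Fin k → ℝ) (i : Fin k) :
    fderiv ℝ N1 w (Pi.single i 1) = Fin.cons (4 * w i) (Pi.single i 1) := by
  rw [N1_fderiv]
  congr 1
  rw [Finset.sum_eq_single i]
  · simp
  · intro j _ hj
    simp [hj]
  · simp

theorem evT_single_zero : NE.evT k (Pi.single 0 1) = 0 := by
  rw [NE.evT_apply]
  funext i
  simp [Pi.single_apply]

theorem evT_single_succ (i : Fin k) : NE.evT k (Pi.single i.succ 1) = Pi.single i 1 := by
  rw [NE.evT_apply]
  funext j
  simp [Pi.single_apply]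

theorem det_cone_N1 (v : Fin (k + 1) → ℝ) :
    (fderiv ℝ (cone N1) v).det = -(v 0 ^ k * (1 + 2 * ∑ i : Fin k, v i.succ ^ 2)) := by
  rw [← NE.evdet]
  set w : Fin k → ℝ := fun i => v i.succ with hw
  have hd : Differentiable ℝ (N1 (k := k)) := N1_contDiff.differentiable (by simp)
  set σ : ℝ := ∑ i : Fin k, w i ^ 2 with hσ
  let U : Matrix (Fin (k + 1)) (Fin (k + 1)) ℝ :=
    fun i j => Fin.cases (motive := fun _ => ℝ) (if j = 0 then 1 else (Fin.cons 0 w : Fin (k + 1) → ℝ) j)
      (fun i' => v 0 * if j = i'.succ then 1 else 0) i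
  let T : Matrix (Fin (k + 1)) (Fin (k + 1)) ℝ :=
    fun i j => Fin.cases (motive := fun _ => ℝ) (if j = 0 then -1 - 2 * σ else 0)
      (fun i' => Fin.cases (motive := fun _ => ℝ) (4 * w i') (fun j' => if i' = j' then 1 else 0) j) i
  have hM : (fun i j : Fin (k + 1) => fderiv ℝ (cone N1) v (Pi.single i 1) j) = U * T := by
    funext i j
    rw [fderiv_cone hd, Matrix.mul_apply, Fin.sum_univ_succ]
    refine Fin.cases ?_ (fun i' => ?_) i
    · simp only [ContinuousLinearMap.add_apply, ContinuousLinearMap.smul_apply,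
        ContinuousLinearMap.comp_apply, evT_single_zero, map_zero, smul_zero, zero_add,
        ContinuousLinearMap.smulRight_apply, ContinuousLinearMap.proj_apply, Pi.single_eq_same,
        one_smul]
      refine Fin.cases ?_ (fun j' => ?_) j
      · simp only [N1_zero, U, T, Fin.cases_zero, Fin.cases_succ, if_true, Fin.cons_succ,
          Fin.succ_ne_zero, if_false, one_mul]
        have : ∑ x : Fin k, w x * (4 * w x) = 4 * σ := by
          rw [hσ, Finset.mul_sum]
          exact Finset.sum_congr rfl fun i _ => by ring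
        rw [this]
        ring
      · simp only [N1_succ, U, T, Fin.cases_zero, Fin.cases_succ, if_true, Fin.cons_succ,
          Fin.succ_ne_zero, if_false, one_mul, zero_add]
        rw [Finset.sum_eq_single j']
        · simp [hw]
        · intro b _ hb
          simp [hb]
        · simp
    · simp only [ContinuousLinearMap.add_apply, ContinuousLinearMap.smul_apply,
        ContinuousLinearMap.comp_apply, evT_single_succ,
        ContinuousLinearMap.smulRight_apply, ContinuousLinearMap.proj_apply, N1_fderiv_single,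
        Pi.add_apply, Pi.smul_apply, smul_eq_mul]
      have e0 : (Pi.single i'.succ (1 : ℝ) : Fin (k + 1) → ℝ) 0 = 0 := by
        simp [Pi.single_apply]
      rw [e0, zero_mul, add_zero]
      refine Fin.cases ?_ (fun j' => ?_) j
      · simp only [U, T, Fin.cases_zero, Fin.cases_succ, Fin.cons_zero, Fin.succ_inj]
        have e1 : ((0 : Fin (k + 1)) = i'.succ) = False := by
          simp [(Fin.succ_ne_zero i').symm]
        rw [Finset.sum_eq_single i']
        · simp [e1, hw]
        · intro b _ hb
          simp [hb]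
        · simp
      · simp only [U, T, Fin.cases_zero, Fin.cases_succ, Fin.cons_succ, Fin.succ_inj,
          Fin.succ_ne_zero, if_false]
        rw [Finset.sum_eq_single i']
        · simp [Pi.single_apply, eq_comm]
        · intro b _ hb
          simp [hb]
        · simp
  rw [hM, Matrix.det_mul]
  have hU : U.det = v 0 ^ k := by
    rw [Matrix.det_of_upperTriangular (M := U)]
    · rw [Fin.prod_univ_succ]
      simp [U]
    · intro i j hij
      revert hij
      refine Fin.cases ?_ (fun i' => ?_) i
      · intro hij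
        exact absurd hij (by simp)
      · intro hij
        simp only [U, Fin.cases_succ]
        rw [if_neg, mul_zero]
        exact fun h => by simp [h] at hij
  have hT : T.det = -1 - 2 * σ := by
    rw [Matrix.det_of_lowerTriangular T]
    · rw [Fin.prod_univ_succ]
      simp [T]
    · intro i j hij
      have hij' : i < j := hij
      revert hij'
      refine Fin.cases (fun hij' => ?_) (fun i' => ?_) i
      · simp only [T, Fin.cases_zero]
        rw [if_neg hij'.ne']
      · refine Fin.cases (fun hij' => ?_) (fun j' hij' => ?_) j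
        · exact absurd hij' (by simp)
        · simp only [T, Fin.cases_succ]
          rw [if_neg]
          exact fun h => by simp [h] at hij'
  rw [hU, hT]
  ring

/-- A cut-off function. -/
noncomputable def cut (τ u : ℝ) : ℝ := max 0 (min 1 ((1 - u) / τ))

theorem cut_nonneg (τ u : ℝ) : 0 ≤ cut τ u := le_max_left _ _

theorem cut_le_one (τ u : ℝ) : cut τ u ≤ 1 := max_le zero_le_one (min_le_left _ _)

theorem cut_eq_one {τ u : ℝ} (hτ : 0 < τ) (h : u ≤ 1 - τ) : cut τ u = 1 := by
  unfold cut
  rw [min_eq_left, max_eq_right zero_le_one]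
  rw [le_div_iff₀ hτ]
  linarith

theorem cut_eq_zero {τ u : ℝ} (hτ : 0 < τ) (h : 1 ≤ u) : cut τ u = 0 := by
  unfold cut
  refine max_eq_left ((min_le_right _ _).trans ?_)
  exact div_nonpos_of_nonpos_of_nonneg (by linarith) hτ.le

theorem cut_mono {τ τ' u : ℝ} (hτ : 0 < τ) (h : τ ≤ τ') : cut τ' u ≤ cut τ u := by
  by_cases hu : 1 ≤ u
  · rw [cut_eq_zero hτ hu, cut_eq_zero (hτ.trans_le h) hu]
  · push Not at hu
    unfold cut
    refine max_le_max le_rfl (min_le_min le_rfl ?_)
    exact div_le_div_of_nonneg_left (by linarith) hτ h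

theorem cut_continuous (τ : ℝ) : Continuous (cut τ) := by
  unfold cut
  exact continuous_const.max (continuous_const.min ((continuous_const.sub continuous_id).div_const _))

theorem cone_F {F : (Fin (k + 1) → ℝ) → ℝ} (hFh : ∀ c : ℝ, 0 ≤ c → ∀ y, F (c • y) = c * F y)
    (g : (Fin k → ℝ) → (Fin (k + 1) → ℝ)) {v : Fin (k + 1) → ℝ} (hv : 0 ≤ v 0) :
    F (cone g v) = v 0 * F (g (fun i => v i.succ)) := by
  unfold cone
  exact hFh _ hv _

/-- the volume integral -/
noncomputable def W (q : ℕ) (g : (Fin k → ℝ) → (Fin (k + 1) → ℝ)) : ℝ :=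
  ∫ v in box k 1, (cone g v 0) ^ q * (fderiv ℝ (cone g) v).det

theorem box_mono {R R' : ℝ} (h : R ≤ R') : box k R ⊆ box k R' := by
  intro v hv
  rw [mem_box] at hv ⊢
  exact ⟨⟨hv.1.1, hv.1.2.trans h⟩, hv.2⟩

/-- The shell estimate. -/
theorem shell {q : ℕ} {F : (Fin (k + 1) → ℝ) → ℝ} (hFc : Continuous F)
    (hFh : ∀ c : ℝ, 0 ≤ c → ∀ y, F (c • y) = c * F y)
    {g : (Fin k → ℝ) → (Fin (k + 1) → ℝ)} (hg : ContDiff ℝ ∞ g) {τ C L R : ℝ}
    (hτ : 0 < τ) (hτ2 : τ ≤ 1 / 2) (hR : 2 ≤ R)
    (hF : ∀ w ∈ Icc (-1 : Fin k → ℝ) 1, |F (g w) - 1| ≤ τ)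
    (hC : ∀ w ∈ Icc (-1 : Fin k → ℝ) 1, ‖g w‖ ≤ C)
    (hL : ∀ w ∈ Icc (-1 : Fin k → ℝ) 1, ‖fderiv ℝ g w‖ ≤ L) :
    |DI R (fun y => y 0 ^ q * cut τ (F y)) g - W q g| ≤
      (2 * C) ^ q * (((k + 1).factorial : ℝ) * (2 * L + C) ^ (k + 1)) * (4 * τ * 2 ^ k) := by
  have hmem0 : (0 : Fin k → ℝ) ∈ Icc (-1 : Fin k → ℝ) 1 := by
    constructor <;> intro i <;> simp
  have hC0 : 0 ≤ C := (norm_nonneg _).trans (hC 0 hmem0)
  have hL0 : 0 ≤ L := (norm_nonneg _).trans (hL 0 hmem0)
  set K : ℝ := (2 * C) ^ q * (((k + 1).factorial : ℝ) * (2 * L + C) ^ (k + 1)) with hK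
  have hK0 : 0 ≤ K := by positivity
  set S : Set (Fin (k + 1) → ℝ) := Icc (Fin.cons (1 - 2 * τ) (fun _ => -1))
    (Fin.cons (1 + 2 * τ) (fun _ => 1)) with hS
  have hSm : MeasurableSet S := measurableSet_Icc
  have hmemS : ∀ v, v ∈ S ↔ (1 - 2 * τ ≤ v 0 ∧ v 0 ≤ 1 + 2 * τ) ∧
      (fun i : Fin k => v i.succ) ∈ Icc (-1 : Fin k → ℝ) 1 := by
    intro v
    rw [hS]
    constructor
    · rintro ⟨h1, h2⟩
      refine ⟨⟨by simpa using h1 0, by simpa using h2 0⟩, fun i => ?_, fun i => ?_⟩
      · simpa using h1 i.succ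
      · simpa using h2 i.succ
    · rintro ⟨⟨h1, h2⟩, h3, h4⟩
      refine ⟨fun i => ?_, fun i => ?_⟩
      · refine Fin.cases ?_ (fun j => ?_) i
        · simpa using h1
        · simpa using h3 j
      · refine Fin.cases ?_ (fun j => ?_) i
        · simpa using h2
        · simpa using h4 j
  have hvol : (volume S).toReal = 4 * τ * 2 ^ k := by
    rw [hS, Real.volume_Icc_pi_toReal]
    · rw [Fin.prod_univ_succ]
      simp only [Fin.cons_zero, Fin.cons_succ]
      rw [Finset.prod_const, Finset.card_univ, Fintype.card_fin]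
      norm_num
      ring
    · intro i
      refine Fin.cases ?_ (fun j => ?_) i
      · simp only [Fin.cons_zero]; linarith
      · simp
  set f1 : (Fin (k + 1) → ℝ) → ℝ := fun v =>
    (cone g v 0 ^ q * cut τ (F (cone g v))) * (fderiv ℝ (cone g) v).det with hf1
  set f2 : (Fin (k + 1) → ℝ) → ℝ := fun v =>
    (cone g v 0) ^ q * (fderiv ℝ (cone g) v).det with hf2
  have hφ : Continuous fun y : Fin (k + 1) → ℝ => y 0 ^ q * cut τ (F y) :=
    ((continuous_apply 0).pow q).mul ((cut_continuous τ).comp hFc)
  have hφ2 : Continuous fun y : Fin (k + 1) → ℝ => y 0 ^ q := (continuous_apply 0).pow q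
  have hi1 : IntegrableOn f1 (box k R) := DI_integrableOn hφ hg R
  have hi2 : IntegrableOn f2 (box k 1) := DI_integrableOn hφ2 hg 1
  have e1 : DI R (fun y => y 0 ^ q * cut τ (F y)) g = ∫ v, (box k R).indicator f1 v := by
    rw [integral_indicator (measurableSet_box R)]
    rfl
  have e2 : W q g = ∫ v, (box k 1).indicator f2 v := by
    rw [integral_indicator (measurableSet_box 1)]
    rfl
  rw [e1, e2, ← integral_sub (hi1.integrable_indicator (measurableSet_box R))
    (hi2.integrable_indicator (measurableSet_box 1))]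
  have hpt : ∀ v, ‖(box k R).indicator f1 v - (box k 1).indicator f2 v‖ ≤
      S.indicator (fun _ => K) v := by
    intro v
    by_cases hvR : v ∈ box k R
    · have hv := mem_box.1 hvR
      rw [indicator_of_mem hvR]
      have hFv := hF _ hv.2
      have hFv1 := (abs_le.1 hFv).1
      have hFv2 := (abs_le.1 hFv).2
      have hcF : F (cone g v) = v 0 * F (g (fun i => v i.succ)) := cone_F hFh g hv.1.1
      by_cases hvS : v ∈ S
      · rw [indicator_of_mem hvS]
        have hs := (hmemS v).1 hvS
        have hv2 : v ∈ box k 2 := mem_box.2 ⟨⟨hv.1.1, by linarith [hs.1.2]⟩, hv.2⟩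
        have hdet : |(fderiv ℝ (cone g) v).det| ≤
            ((k + 1).factorial : ℝ) * (2 * L + C) ^ (k + 1) :=
          det_bound _ (norm_fderiv_cone_le (hg.differentiable (by simp)) hv2 (hC _ hv.2)
            (hL _ hv.2))
        have hy : |cone g v 0| ≤ 2 * C := by
          have h1 : |cone g v 0| ≤ ‖cone g v‖ := by
            have := norm_le_pi_norm (cone g v) 0
            rwa [Real.norm_eq_abs] at this
          refine h1.trans ?_
          unfold cone
          rw [norm_smul, Real.norm_eq_abs, abs_of_nonneg hv.1.1]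
          exact mul_le_mul (by linarith [hs.1.2]) (hC _ hv.2) (norm_nonneg _) (by norm_num)
        have hyq : |cone g v 0 ^ q| ≤ (2 * C) ^ q := by
          rw [abs_pow]
          exact pow_le_pow_left₀ (abs_nonneg _) hy q
        have hc0 := cut_nonneg τ (F (cone g v))
        have hc1 := cut_le_one τ (F (cone g v))
        have hbound : ∀ c : ℝ, |c| ≤ 1 →
            ‖cone g v 0 ^ q * c * (fderiv ℝ (cone g) v).det‖ ≤ K := by
          intro c hc
          rw [norm_mul, Real.norm_eq_abs, Real.norm_eq_abs, hK]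
          refine mul_le_mul ?_ hdet (abs_nonneg _) (by positivity)
          rw [abs_mul]
          calc |cone g v 0 ^ q| * |c| ≤ (2 * C) ^ q * 1 :=
                mul_le_mul hyq hc (abs_nonneg _) (by positivity)
            _ = _ := mul_one _
        by_cases hv1 : v ∈ box k 1
        · rw [indicator_of_mem hv1]
          have e : f1 v - f2 v =
              cone g v 0 ^ q * (cut τ (F (cone g v)) - 1) * (fderiv ℝ (cone g) v).det := by
            rw [hf1, hf2]; ring
          rw [e]
          exact hbound _ (by rw [abs_le]; constructor <;> linarith)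
        · rw [indicator_of_notMem hv1, sub_zero]
          exact hbound _ (by rw [abs_le]; constructor <;> linarith)
      · rw [indicator_of_notMem hvS]
        have hns : v 0 < 1 - 2 * τ ∨ 1 + 2 * τ < v 0 := by
          by_contra hcon
          push Not at hcon
          exact hvS ((hmemS v).2 ⟨hcon, hv.2⟩)
        rcases hns with hlt | hgt
        · have hv1 : v ∈ box k 1 := mem_box.2 ⟨⟨hv.1.1, by linarith⟩, hv.2⟩
          rw [indicator_of_mem hv1]
          have h1 : F (cone g v) ≤ 1 - τ := by
            rw [hcF]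
            have hF1 : F (g (fun i => v i.succ)) ≤ 1 + τ := by linarith
            have h2 : v 0 * F (g (fun i => v i.succ)) ≤ v 0 * (1 + τ) :=
              mul_le_mul_of_nonneg_left hF1 hv.1.1
            nlinarith
          have e : f1 v - f2 v = 0 := by
            rw [hf1, hf2]
            simp only
            rw [cut_eq_one hτ h1]; ring
          rw [e, norm_zero]
        · have hv1 : v ∉ box k 1 := fun h => by
            have := (mem_box.1 h).1.2
            linarith
          rw [indicator_of_notMem hv1, sub_zero]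
          have h1 : 1 ≤ F (cone g v) := by
            rw [hcF]
            have hF1 : 1 - τ ≤ F (g (fun i => v i.succ)) := by linarith
            have h2 : v 0 * (1 - τ) ≤ v 0 * F (g (fun i => v i.succ)) :=
              mul_le_mul_of_nonneg_left hF1 hv.1.1
            nlinarith
          have e : f1 v = 0 := by
            rw [hf1]
            simp only
            rw [cut_eq_zero hτ h1]; ring
          rw [e, norm_zero]
    · have hv1 : v ∉ box k 1 := fun h => hvR (box_mono (by linarith) h)
      rw [indicator_of_notMem hvR, indicator_of_notMem hv1, sub_zero, norm_zero]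
      exact indicator_nonneg (fun _ _ => hK0) v
  have hKi : Integrable (S.indicator (fun _ : Fin (k + 1) → ℝ => K)) := by
    refine IntegrableOn.integrable_indicator ?_ hSm
    refine integrableOn_const ?_
    rw [hS]
    exact (isCompact_Icc.measure_lt_top).ne
  have h := norm_integral_le_of_norm_le hKi (Eventually.of_forall hpt)
  rw [integral_indicator hSm, setIntegral_const, smul_eq_mul, Measure.real, hvol] at h
  rw [Real.norm_eq_abs] at h
  calc _ ≤ _ := h
    _ = _ := by ring

end Pool.Agent.BAN
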