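import Mathlib
import Pool.Agent.BAN.VolC1

set_option autoImplicit false

/-!
# BAN/VolC2: the limit of the volume integrals
-/

open MeasureTheory Set Filter Topology Metric
open scoped ENNReal ContDiff NNReal

namespace Pool.Agent.BAN

variable {k : ℕ}

theorem exists_lower {F : (Fin (k + 1) → ℝ) → ℝ} (hFc : Continuous F)
    (hF0 : ∀ y, y ≠ 0 → 0 < F y) (hFh : ∀ c : ℝ, 0 ≤ c → ∀ y, F (c • y) = c * F y) :
    ∃ m > 0, ∀ y, m * ‖y‖ ≤ F y := by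
  have hne : (sphere (0 : Fin (k + 1) → ℝ) 1).Nonempty :=
    ⟨Pi.single 0 1, by rw [mem_sphere_zero_iff_norm, Pi.norm_single]; simp⟩
  obtain ⟨x, hx, hmin⟩ := (isCompact_sphere (0 : Fin (k + 1) → ℝ) 1).exists_isMinOn hne
    hFc.continuousOn
  have hx0 : x ≠ 0 := by
    intro h
    rw [h, mem_sphere_zero_iff_norm, norm_zero] at hx
    exact zero_ne_one hx
  refine ⟨F x, hF0 x hx0, fun y => ?_⟩
  by_cases hy : y = 0
  · have h := hFh 0 le_rfl 0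
    rw [zero_smul, zero_mul] at h
    rw [hy, h, norm_zero, mul_zero]
  · have hy0 : 0 < ‖y‖ := norm_pos_iff.2 hy
    have e : y = ‖y‖ • (‖y‖⁻¹ • y) := by
      rw [smul_smul, mul_inv_cancel₀ hy0.ne', one_smul]
    have hmem : ‖y‖⁻¹ • y ∈ sphere (0 : Fin (k + 1) → ℝ) 1 := by
      rw [mem_sphere_zero_iff_norm, norm_smul, norm_inv, norm_norm, inv_mul_cancel₀ hy0.ne']
    have h1 := hmin hmem
    have h2 : F y = ‖y‖ * F (‖y‖⁻¹ • y) := by
      conv_lhs => rw [e]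
      exact hFh _ hy0.le _
    rw [h2, mul_comm]
    exact mul_le_mul_of_nonneg_left h1 hy0.le

/-- test function of the lower half space -/
noncomputable def phiM (F : (Fin (k + 1) → ℝ) → ℝ) (q : ℕ) (τ : ℝ) (y : Fin (k + 1) → ℝ) : ℝ :=
  (min (y 0) 0) ^ q * cut τ (F y)

/-- test function of the upper half space, reflected -/
noncomputable def phiP (F : (Fin (k + 1) → ℝ) → ℝ) (q : ℕ) (τ : ℝ) (y : Fin (k + 1) → ℝ) : ℝ :=
  (min (y 0) 0) ^ q * cut τ (F (-y))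

theorem phiM_continuous {F : (Fin (k + 1) → ℝ) → ℝ} (hFc : Continuous F) (q : ℕ) (τ : ℝ) :
    Continuous (phiM F q τ) :=
  (((continuous_apply 0).min continuous_const).pow q).mul ((cut_continuous τ).comp hFc)

theorem phiP_continuous {F : (Fin (k + 1) → ℝ) → ℝ} (hFc : Continuous F) (q : ℕ) (τ : ℝ) :
    Continuous (phiP F q τ) :=
  (((continuous_apply 0).min continuous_const).pow q).mul
    ((cut_continuous τ).comp (hFc.comp continuous_neg))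

theorem phiM_zero {F : (Fin (k + 1) → ℝ) → ℝ} {q : ℕ} (hq : 0 < q) {τ : ℝ}
    {y : Fin (k + 1) → ℝ} (h : 0 ≤ y 0) : phiM F q τ y = 0 := by
  unfold phiM
  rw [min_eq_right h, zero_pow hq.ne', zero_mul]

theorem phiP_zero {F : (Fin (k + 1) → ℝ) → ℝ} {q : ℕ} (hq : 0 < q) {τ : ℝ}
    {y : Fin (k + 1) → ℝ} (h : 0 ≤ y 0) : phiP F q τ y = 0 := by
  unfold phiP
  rw [min_eq_right h, zero_pow hq.ne', zero_mul]

theorem phiM_far {F : (Fin (k + 1) → ℝ) → ℝ} {q : ℕ} {τ m : ℝ} (hτ : 0 < τ) (hm : 0 < m)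
    (hF : ∀ y, m * ‖y‖ ≤ F y) {y : Fin (k + 1) → ℝ} (h : 1 / m ≤ ‖y‖) : phiM F q τ y = 0 := by
  unfold phiM
  rw [cut_eq_zero hτ, mul_zero]
  rw [div_le_iff₀ hm] at h
  linarith [hF y]

theorem phiP_far {F : (Fin (k + 1) → ℝ) → ℝ} {q : ℕ} {τ m : ℝ} (hτ : 0 < τ) (hm : 0 < m)
    (hF : ∀ y, m * ‖y‖ ≤ F y) {y : Fin (k + 1) → ℝ} (h : 1 / m ≤ ‖y‖) : phiP F q τ y = 0 := by
  unfold phiP
  rw [cut_eq_zero hτ, mul_zero]
  rw [div_le_iff₀ hm] at h
  have := hF (-y)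
  rw [norm_neg] at this
  linarith

theorem det_neg_clm {N : ℕ} (A : (Fin N → ℝ) →L[ℝ] (Fin N → ℝ)) (hN : Even N) :
    (-A).det = A.det := by
  let B : Matrix (Fin N) (Fin N) ℝ := fun i j => A (Pi.single i 1) j
  have h1 : B.det = A.det := NE.evdet A
  have h2 : (-B).det = (-A).det := NE.evdet (-A)
  rw [← h2, Matrix.det_neg, Fintype.card_fin, hN.neg_one_pow, one_mul, h1]

theorem DI_split (hk : Odd k) {q : ℕ} (hq : Even q) (hq0 : 0 < q)
    {F : (Fin (k + 1) → ℝ) → ℝ} (hFc : Continuous F) {g : (Fin k → ℝ) → (Fin (k + 1) → ℝ)}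
    (hg : ContDiff ℝ ∞ g) (R τ : ℝ) :
    DI R (fun y => y 0 ^ q * cut τ (F y)) g =
      DI R (phiM F q τ) g + DI R (phiP F q τ) (fun w => -g w) := by
  have hg' : ContDiff ℝ ∞ (fun w => -g w) := hg.neg
  have h1 := DI_integrableOn (phiM_continuous hFc q τ) hg R
  have h2 := DI_integrableOn (phiP_continuous hFc q τ) hg' R
  unfold DI
  rw [← integral_add h1 h2]
  refine integral_congr_ae (Eventually.of_forall fun v => ?_)
  have e1 : cone (fun w => -g w) = fun v => -cone g v := by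
    funext v
    unfold cone
    rw [smul_neg]
  have e2 : fderiv ℝ (cone (fun w => -g w)) v = -fderiv ℝ (cone g) v := by
    rw [e1, fderiv_fun_neg]
  have e3 : (fderiv ℝ (cone (fun w => -g w)) v).det = (fderiv ℝ (cone g) v).det := by
    rw [e2]
    exact det_neg_clm _ (by
      obtain ⟨r, hr⟩ := hk
      exact ⟨r + 1, by omega⟩)
  simp only
  rw [e3, e1]
  unfold phiM phiP
  simp only [neg_neg, Pi.neg_apply]
  have e4 : cone g v 0 ^ q = min (cone g v 0) 0 ^ q + min (-cone g v 0) 0 ^ q := by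
    rcases le_total 0 (cone g v 0) with h | h
    · rw [min_eq_right h, min_eq_left (by linarith), zero_pow hq0.ne', zero_add, hq.neg_pow]
    · rw [min_eq_left h, min_eq_right (by linarith), zero_pow hq0.ne', add_zero]
  rw [e4]
  ring

theorem cube_nonempty : (Icc (-1 : Fin k → ℝ) 1).Nonempty :=
  ⟨0, by constructor <;> intro i <;> simp⟩

theorem homotopy_lower {g : (Fin k → ℝ) → (Fin (k + 1) → ℝ)}
    (hgc : ContinuousOn g (Icc (-1) 1)) (ν : (Fin k → ℝ) → (Fin (k + 1) → ℝ))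
    (hν : ∀ w ∈ Icc (-1 : Fin k → ℝ) 1, 0 < ν w ⬝ᵥ N1 w)
    (hνg : ∀ w ∈ Icc (-1 : Fin k → ℝ) 1, ν w ⬝ᵥ g w = 0)
    (hg0 : ∀ w ∈ Icc (-1 : Fin k → ℝ) 1, g w ≠ 0) :
    ∃ c > 0, ∀ w ∈ Icc (-1 : Fin k → ℝ) 1, ∀ t ∈ Icc (0 : ℝ) 1,
      c ≤ ‖(1 - t) • N1 w + t • g w‖ := by
  have hK : IsCompact (Icc (-1 : Fin k → ℝ) 1 ×ˢ Icc (0 : ℝ) 1) := isCompact_Icc.prod isCompact_Icc
  have hne : (Icc (-1 : Fin k → ℝ) 1 ×ˢ Icc (0 : ℝ) 1).Nonempty :=
    cube_nonempty.prod ⟨0, by simp⟩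
  have hc : ContinuousOn (fun p : (Fin k → ℝ) × ℝ => ‖(1 - p.2) • N1 p.1 + p.2 • g p.1‖)
      (Icc (-1 : Fin k → ℝ) 1 ×ˢ Icc (0 : ℝ) 1) := by
    refine ContinuousOn.norm (ContinuousOn.add ?_ ?_)
    · exact ((continuous_const.sub continuous_snd).smul
        (N1_contDiff.continuous.comp continuous_fst)).continuousOn
    · exact continuous_snd.continuousOn.smul (hgc.comp continuousOn_fst fun p hp => hp.1)
  obtain ⟨p, hp, hmin⟩ := hK.exists_isMinOn hne hc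
  refine ⟨‖(1 - p.2) • N1 p.1 + p.2 • g p.1‖, ?_, fun w hw t ht => ?_⟩
  · refine norm_pos_iff.2 fun h => ?_
    have h1 : ν p.1 ⬝ᵥ ((1 - p.2) • N1 p.1 + p.2 • g p.1) = 0 := by rw [h, dotProduct_zero]
    rw [dotProduct_add, dotProduct_smul, dotProduct_smul, hνg _ hp.1, smul_zero, add_zero,
      smul_eq_mul] at h1
    have h2 := hν _ hp.1
    have h3 : 1 - p.2 = 0 := by
      rcases mul_eq_zero.1 h1 with h4 | h4
      · exact h4
      · exact absurd h4 h2.ne'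
    have h4 : p.2 = 1 := by linarith
    rw [h3, zero_smul, zero_add, h4, one_smul] at h
    exact hg0 _ hp.1 h
  · exact hmin (⟨hw, ht⟩ : (w, t) ∈ Icc (-1 : Fin k → ℝ) 1 ×ˢ Icc (0 : ℝ) 1)

/-- the limit value -/
noncomputable def AA (F : (Fin (k + 1) → ℝ) → ℝ) (q : ℕ) (R τ : ℝ) : ℝ :=
  DI R (phiM F q τ) N1 + DI R (phiP F q τ) N1

theorem N1_bdry {w : Fin k → ℝ} (h : ∃ i, |w i| = 1) : 0 ≤ N1 w 0 := by
  obtain ⟨i, hi⟩ := h
  rw [N1_zero]
  have h1 : w i ^ 2 = 1 := by rw [← sq_abs, hi]; norm_num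
  have h2 : w i ^ 2 ≤ ∑ j, w j ^ 2 :=
    Finset.single_le_sum (f := fun j => w j ^ 2) (fun j _ => sq_nonneg _) (Finset.mem_univ i)
  linarith

theorem lim_W (hk : Odd k) {q : ℕ} (hq : Even q) (hq0 : 0 < q)
    {F : (Fin (k + 1) → ℝ) → ℝ} (hFc : Continuous F)
    (hF0 : ∀ y, y ≠ 0 → 0 < F y) (hFh : ∀ c : ℝ, 0 ≤ c → ∀ y, F (c • y) = c * F y)
    {g : (Fin k → ℝ) → (Fin (k + 1) → ℝ)} (hgc : ContinuousOn g (Icc (-1) 1))
    (gj : ℕ → (Fin k → ℝ) → (Fin (k + 1) → ℝ)) (hgj : ∀ j, ContDiff ℝ ∞ (gj j)) {L : ℝ}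
    (hLj : ∀ j, ∀ w ∈ Icc (-1 : Fin k → ℝ) 1, ‖fderiv ℝ (gj j) w‖ ≤ L)
    (happ : ∀ ε > 0, ∀ᶠ j in atTop, ∀ w ∈ Icc (-1 : Fin k → ℝ) 1, ‖gj j w - g w‖ ≤ ε)
    (hg1 : ∀ w ∈ Icc (-1 : Fin k → ℝ) 1, F (g w) = 1)
    (ν : (Fin k → ℝ) → (Fin (k + 1) → ℝ))
    (hν : ∀ w ∈ Icc (-1 : Fin k → ℝ) 1, 0 < ν w ⬝ᵥ N1 w)
    (hνg : ∀ w ∈ Icc (-1 : Fin k → ℝ) 1, ν w ⬝ᵥ g w = 0)
    (hb : ∀ w ∈ Icc (-1 : Fin k → ℝ) 1, (∃ i, |w i| = 1) → g w 0 = 0) :
    ∃ R₀ B : ℝ, 0 ≤ B ∧ ∀ R, R₀ ≤ R → ∀ τ : ℝ, 0 < τ → τ ≤ 1 / 2 →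
      ∀ᶠ j in atTop, |W q (gj j) - AA F q R τ| ≤ B * τ := by
  obtain ⟨m, hm, hmF⟩ := exists_lower hFc hF0 hFh
  have hF00 : F 0 = 0 := by
    have h := hFh 0 le_rfl 0
    rwa [zero_smul, zero_mul] at h
  have hg0 : ∀ w ∈ Icc (-1 : Fin k → ℝ) 1, g w ≠ 0 := by
    intro w hw h
    have h1 := hg1 w hw
    rw [h, hF00] at h1
    exact zero_ne_one h1
  obtain ⟨c₁, hc₁, hc₁'⟩ := homotopy_lower hgc ν hν hνg hg0
  obtain ⟨c₂, hc₂, hc₂'⟩ := homotopy_lower (g := fun w => -g w) hgc.neg ν hν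
    (fun w hw => by rw [dotProduct_neg, hνg w hw, neg_zero])
    (fun w hw => neg_ne_zero.2 (hg0 w hw))
  set c : ℝ := min c₁ c₂ with hc
  have hc0 : 0 < c := lt_min hc₁ hc₂
  set M : ℝ := 1 / m with hM
  have hcomp : IsCompact (Icc (-1 : Fin k → ℝ) 1) := isCompact_Icc
  obtain ⟨C₁, hC₁⟩ := hcomp.exists_bound_of_continuousOn
    (N1_contDiff (k := k)).continuous.continuousOn
  obtain ⟨C₂, hC₂⟩ := hcomp.exists_bound_of_continuousOn hgc
  obtain ⟨L₁, hL₁⟩ := hcomp.exists_bound_of_continuousOn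
    ((N1_contDiff (k := k)).continuous_fderiv (by simp)).continuousOn
  set C : ℝ := max C₁ C₂ with hC
  set L' : ℝ := max L L₁ with hL'
  have hmem0 : (0 : Fin k → ℝ) ∈ Icc (-1 : Fin k → ℝ) 1 := by
    constructor <;> intro i <;> simp
  have hC0 : 0 ≤ C := (norm_nonneg _).trans ((hC₁ 0 hmem0).trans (le_max_left _ _))
  have hL0 : 0 ≤ L' := (norm_nonneg _).trans ((hL₁ 0 hmem0).trans (le_max_right _ _))
  set B₀ : ℝ := (2 * (C + 1)) ^ q * (((k + 1).factorial : ℝ) * (2 * L' + (C + 1)) ^ (k + 1)) *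
    (4 * 2 ^ k) with hB₀
  have hB₀0 : 0 ≤ B₀ := by positivity
  refine ⟨max 2 ((M + 2) / c), B₀ + 2, by positivity, fun R hR τ hτ hτ2 => ?_⟩
  have hR2 : 2 ≤ R := (le_max_left _ _).trans hR
  have hRc : M + 2 ≤ R * c := by
    have : (M + 2) / c ≤ R := (le_max_right _ _).trans hR
    rwa [div_le_iff₀ hc0] at this
  have hR0 : 0 ≤ R := by linarith
  -- the two half spaces
  obtain ⟨δ₁, hδ₁, hlim₁⟩ := cone_limit g N1 N1_contDiff (c := c) (C := C) (L := L') (M := M) hR0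
    hRc (fun w hw t ht => (min_le_left _ _).trans (hc₁' w hw t ht))
    (fun w hw hwi => ⟨N1_bdry hwi, hb w hw hwi⟩)
    (fun w hw => (hC₁ w hw).trans (le_max_left _ _))
    (fun w hw => (hC₂ w hw).trans (le_max_right _ _))
    (fun w hw => (hL₁ w hw).trans (le_max_right _ _))
    (phiM F q τ) (phiM_continuous hFc q τ) (fun y hy => phiM_far hτ hm hmF hy)
    (fun y hy => phiM_zero hq0 hy) hτ
  obtain ⟨δ₂, hδ₂, hlim₂⟩ := cone_limit (fun w => -g w) N1 N1_contDiff (c := c) (C := C) (L := L')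
    (M := M) hR0
    hRc (fun w hw t ht => (min_le_right _ _).trans (hc₂' w hw t ht))
    (fun w hw hwi => ⟨N1_bdry hwi, by rw [Pi.neg_apply, hb w hw hwi, neg_zero]⟩)
    (fun w hw => (hC₁ w hw).trans (le_max_left _ _))
    (fun w hw => by rw [norm_neg]; exact (hC₂ w hw).trans (le_max_right _ _))
    (fun w hw => (hL₁ w hw).trans (le_max_right _ _))
    (phiP F q τ) (phiP_continuous hFc q τ) (fun y hy => phiP_far hτ hm hmF hy)
    (fun y hy => phiP_zero hq0 hy) hτ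
  -- uniform continuity of F
  have huc : UniformContinuousOn F (closedBall 0 (C + 1)) :=
    (isCompact_closedBall _ _).uniformContinuousOn_of_continuous hFc.continuousOn
  obtain ⟨δ₃, hδ₃, hF3⟩ := Metric.uniformContinuousOn_iff_le.1 huc τ hτ
  set δ : ℝ := min 1 (min δ₁ (min δ₂ δ₃)) with hδ
  have hδ0 : 0 < δ := by positivity
  have d1 : δ ≤ 1 := min_le_left _ _
  have d2 : δ ≤ δ₁ := (min_le_right _ _).trans (min_le_left _ _)
  have d3 : δ ≤ δ₂ := (min_le_right _ _).trans ((min_le_right _ _).trans (min_le_left _ _))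
  have d4 : δ ≤ δ₃ := (min_le_right _ _).trans ((min_le_right _ _).trans (min_le_right _ _))
  filter_upwards [happ δ hδ0] with j hj
  have hLj' : ∀ w ∈ Icc (-1 : Fin k → ℝ) 1, ‖fderiv ℝ (gj j) w‖ ≤ L' :=
    fun w hw => (hLj j w hw).trans (le_max_left _ _)
  have k1 := hlim₁ (gj j) (hgj j) (fun w hw => (hj w hw).trans d2) hLj'
  have k2 := hlim₂ (fun w => -gj j w) (hgj j).neg (fun w hw => by
    rw [← neg_sub_neg, neg_neg, neg_neg, norm_sub_rev]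
    have := (hj w hw).trans d3
    rwa [norm_sub_rev] at this ⊢) (fun w hw => by
      rw [fderiv_fun_neg, norm_neg]
      exact hLj' w hw)
  have hCj : ∀ w ∈ Icc (-1 : Fin k → ℝ) 1, ‖gj j w‖ ≤ C + 1 := by
    intro w hw
    have h1 := (hC₂ w hw).trans (le_max_right C₁ C₂)
    have h2 := (hj w hw).trans d1
    have h3 := norm_sub_norm_le (gj j w) (g w)
    linarith
  have k3 := shell (q := q) hFc hFh (hgj j) (τ := τ) (C := C + 1) (L := L') (R := R) hτ hτ2 hR2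
    (fun w hw => by
      have h1 := hF3 (gj j w) (by rw [mem_closedBall, dist_zero_right]; exact hCj w hw)
        (g w) (by
          rw [mem_closedBall, dist_zero_right]
          have h1 := (hC₂ w hw).trans (le_max_right C₁ C₂)
          linarith) (by rw [dist_eq_norm]; exact (hj w hw).trans d4)
      rw [Real.dist_eq, hg1 w hw] at h1
      exact h1) hCj hLj'
  have k4 := DI_split hk hq hq0 hFc (hgj j) R τ
  rw [k4] at k3
  have k5 : (2 * (C + 1)) ^ q * (((k + 1).factorial : ℝ) * (2 * L' + (C + 1)) ^ (k + 1)) *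
      (4 * τ * 2 ^ k) = B₀ * τ := by rw [hB₀]; ring
  rw [k5] at k3
  unfold AA
  rw [abs_le] at k1 k2 k3 ⊢
  constructor <;> linarith [k1.1, k1.2, k2.1, k2.2, k3.1, k3.2]

end Pool.Agent.BAN
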