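import Mathlib
import Pool.Agent.BAN.VolC2

set_option autoImplicit false

/-!
# BAN/VolC3: the limit value is negative and does not depend on the point
-/

open MeasureTheory Set Filter Topology Metric
open scoped ENNReal ContDiff NNReal

namespace Pool.Agent.BAN

variable {k : ℕ}

theorem det_N1_nonpos {R : ℝ} {v : Fin (k + 1) → ℝ} (hv : v ∈ box k R) :
    (fderiv ℝ (cone N1) v).det ≤ 0 := by
  rw [det_cone_N1]
  have h1 := (mem_box.1 hv).1.1
  have h2 : 0 ≤ ∑ i : Fin k, v i.succ ^ 2 := Finset.sum_nonneg fun i _ => sq_nonneg _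
  have h3 : 0 ≤ v 0 ^ k * (1 + 2 * ∑ i : Fin k, v i.succ ^ 2) := by positivity
  linarith

theorem DI_N1_mono {R : ℝ} {φ ψ : (Fin (k + 1) → ℝ) → ℝ} (hφ : Continuous φ) (hψ : Continuous ψ)
    (h : ∀ y, ψ y ≤ φ y) : DI R φ N1 ≤ DI R ψ N1 := by
  unfold DI
  refine setIntegral_mono_on (DI_integrableOn hφ N1_contDiff R) (DI_integrableOn hψ N1_contDiff R)
    (measurableSet_box R) fun v hv => ?_
  exact mul_le_mul_of_nonpos_right (h _) (det_N1_nonpos hv)

theorem min_pow_nonneg {q : ℕ} (hq : Even q) (a : ℝ) : 0 ≤ (min a 0) ^ q := hq.pow_nonneg _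

theorem AA_mono {q : ℕ} (hq : Even q) {F : (Fin (k + 1) → ℝ) → ℝ} (hFc : Continuous F) {R τ τ' : ℝ}
    (hτ : 0 < τ) (h : τ ≤ τ') : AA F q R τ ≤ AA F q R τ' := by
  unfold AA
  refine add_le_add ?_ ?_
  · refine DI_N1_mono (phiM_continuous hFc q τ) (phiM_continuous hFc q τ') fun y => ?_
    exact mul_le_mul_of_nonneg_left (cut_mono hτ h) (min_pow_nonneg hq _)
  · refine DI_N1_mono (phiP_continuous hFc q τ) (phiP_continuous hFc q τ') fun y => ?_
    exact mul_le_mul_of_nonneg_left (cut_mono hτ h) (min_pow_nonneg hq _)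

theorem AA_neg {q : ℕ} (hq : Even q) {F : (Fin (k + 1) → ℝ) → ℝ} (hFc : Continuous F)
    (hFh : ∀ c : ℝ, 0 ≤ c → ∀ y, F (c • y) = c * F y) {R : ℝ} (hR : 0 < R) :
    AA F q R (1 / 2) < 0 := by
  have hP : DI R (phiP F q (1 / 2)) N1 ≤ 0 := by
    unfold DI
    refine setIntegral_nonpos (measurableSet_box R) fun v hv => ?_
    exact mul_nonpos_of_nonneg_of_nonpos
      (mul_nonneg (min_pow_nonneg hq _) (cut_nonneg _ _)) (det_N1_nonpos hv)
  have hM : DI R (phiM F q (1 / 2)) N1 < 0 := by
    set h : (Fin (k + 1) → ℝ) → ℝ := fun v =>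
      -(phiM F q (1 / 2) (cone N1 v) * (fderiv ℝ (cone N1) v).det) with hh
    have hc : Continuous h := (DI_cont (phiM_continuous hFc q (1 / 2)) N1_contDiff).neg
    have hnn : ∀ v ∈ box k R, 0 ≤ h v := by
      intro v hv
      rw [hh]
      simp only
      rw [neg_nonneg]
      exact mul_nonpos_of_nonneg_of_nonpos
        (mul_nonneg (min_pow_nonneg hq _) (cut_nonneg _ _)) (det_N1_nonpos hv)
    -- a point where h is positive
    set a : ℝ := |F (N1 (0 : Fin k → ℝ))| with ha
    have ha0 : 0 ≤ a := abs_nonneg _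
    set r : ℝ := min (R / 2) (1 / (2 * (a + 1))) with hr
    have hr0 : 0 < r := by positivity
    have hrR : r < R := lt_of_le_of_lt (min_le_left _ _) (by linarith)
    set v₀ : Fin (k + 1) → ℝ := Fin.cons r 0 with hv₀
    have e0 : v₀ 0 = r := rfl
    have e1 : (fun i : Fin k => v₀ i.succ) = 0 := by
      funext i
      simp [hv₀]
    have hcone : cone N1 v₀ = r • N1 0 := by
      unfold cone
      rw [e0, e1]
    have hpos : 0 < h v₀ := by
      rw [hh]
      simp only
      rw [neg_pos]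
      refine mul_neg_of_pos_of_neg ?_ ?_
      · unfold phiM
        rw [hcone]
        have h1 : (r • N1 (0 : Fin k → ℝ)) 0 = -r := by
          rw [Pi.smul_apply, N1_zero]
          simp
        have h2 : F (r • N1 (0 : Fin k → ℝ)) ≤ 1 - 1 / 2 := by
          rw [hFh r hr0.le]
          have h3 : F (N1 (0 : Fin k → ℝ)) ≤ a := le_abs_self _
          calc r * F (N1 (0 : Fin k → ℝ)) ≤ r * a := mul_le_mul_of_nonneg_left h3 hr0.le
            _ ≤ 1 / (2 * (a + 1)) * a := mul_le_mul_of_nonneg_right (min_le_right _ _) ha0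
            _ ≤ 1 - 1 / 2 := by
              rw [div_mul_eq_mul_div, div_le_iff₀ (by positivity)]
              linarith
        rw [h1, cut_eq_one (by norm_num) h2, mul_one, min_eq_left (by linarith), hq.neg_pow]
        positivity
      · rw [det_cone_N1, e0]
        have h2 : ∑ i : Fin k, v₀ i.succ ^ 2 = 0 := by
          refine Finset.sum_eq_zero fun i _ => ?_
          have := congrFun e1 i
          simp only [Pi.zero_apply] at this
          rw [this]; norm_num
        rw [h2]
        have : 0 < r ^ k := by positivity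
        linarith
    -- an open set
    set U : Set (Fin (k + 1) → ℝ) := {v | 0 < h v} ∩ ({v | 0 < v 0} ∩ ({v | v 0 < R} ∩
      ⋂ i : Fin k, {v | |v i.succ| < 1})) with hU
    have hUo : IsOpen U := by
      refine (isOpen_lt continuous_const hc).inter ((isOpen_lt continuous_const
        (continuous_apply 0)).inter ((isOpen_lt (continuous_apply 0) continuous_const).inter ?_))
      exact isOpen_iInter_of_finite fun i => isOpen_lt (continuous_abs.comp (continuous_apply i.succ))
        continuous_const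
    have hUn : U.Nonempty := by
      refine ⟨v₀, hpos, ?_, ?_, ?_⟩
      · exact hr0
      · exact hrR
      · refine mem_iInter.2 fun i => ?_
        have := congrFun e1 i
        simp only [Pi.zero_apply] at this
        simp only [mem_setOf_eq]
        rw [this]; norm_num
    have hUbox : U ⊆ box k R := by
      intro v hv
      refine mem_box.2 ⟨⟨le_of_lt hv.2.1, le_of_lt hv.2.2.1⟩, fun i => ?_, fun i => ?_⟩
      · have := mem_iInter.1 hv.2.2.2 i
        simp only [mem_setOf_eq] at this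
        simp only [Pi.neg_apply, Pi.one_apply]
        exact (abs_lt.1 this).1.le
      · have := mem_iInter.1 hv.2.2.2 i
        simp only [mem_setOf_eq] at this
        simp only [Pi.one_apply]
        exact (abs_lt.1 this).2.le
    have hint : IntegrableOn h (box k R) := hc.continuousOn.integrableOn_compact (isCompact_box R)
    have hpos' : 0 < ∫ v in box k R, h v := by
      rw [setIntegral_pos_iff_support_of_nonneg_ae]
      · refine lt_of_lt_of_le (hUo.measure_pos volume hUn) (measure_mono fun v hv => ⟨?_, hUbox hv⟩)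
        exact ne_of_gt hv.1
      · rw [EventuallyLE, ae_restrict_iff' (measurableSet_box R)]
        exact Eventually.of_forall hnn
      · exact hint
    rw [hh, integral_neg] at hpos'
    unfold DI
    linarith
  unfold AA
  linarith

theorem abs_limit {ι : Type*} [Nonempty ι] (u : ι → ℕ → ℝ) (A : ℝ → ℝ → ℝ)
    (hmono : ∀ R τ : ℝ, 0 < τ → τ ≤ 1 / 2 → A R τ ≤ A R (1 / 2))
    (hneg : ∀ R : ℝ, 0 < R → A R (1 / 2) < 0)
    (h : ∀ x, ∃ R₀ B : ℝ, 0 ≤ B ∧ ∀ R, R₀ ≤ R → ∀ τ : ℝ, 0 < τ → τ ≤ 1 / 2 →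
      ∀ᶠ j in atTop, |u x j - A R τ| ≤ B * τ) :
    ∃ c : ℝ, c < 0 ∧ ∀ x, Tendsto (u x) atTop (𝓝 c) := by
  have hcau : ∀ x, ∃ c, Tendsto (u x) atTop (𝓝 c) := by
    intro x
    obtain ⟨R₀, B, hB, h⟩ := h x
    refine cauchySeq_tendsto_of_complete ?_
    refine Metric.cauchySeq_iff'.2 fun ε hε => ?_
    set τ : ℝ := min (1 / 2) (ε / (4 * (B + 1))) with hτ
    have hτ0 : 0 < τ := by positivity
    obtain ⟨N, hN⟩ := eventually_atTop.1 (h R₀ le_rfl τ hτ0 (min_le_left _ _))
    refine ⟨N, fun n hn => ?_⟩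
    have h1 := hN n hn
    have h2 := hN N le_rfl
    have h3 : B * τ ≤ ε / 4 := by
      calc B * τ ≤ B * (ε / (4 * (B + 1))) := mul_le_mul_of_nonneg_left (min_le_right _ _) hB
        _ ≤ ε / 4 := by
          rw [mul_div_assoc', div_le_div_iff₀ (by positivity) (by norm_num)]
          nlinarith
    rw [Real.dist_eq]
    rw [abs_le] at h1 h2
    rw [abs_lt]
    constructor <;> linarith [h1.1, h1.2, h2.1, h2.2]
  choose c hc using hcau
  have heq : ∀ x y, c x = c y := by
    intro x y
    obtain ⟨R₁, B₁, hB₁, h₁⟩ := h x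
    obtain ⟨R₂, B₂, hB₂, h₂⟩ := h y
    have key : ∀ τ : ℝ, 0 < τ → τ ≤ 1 / 2 → |c x - c y| ≤ (B₁ + B₂) * τ := by
      intro τ hτ hτ2
      have hlim : Tendsto (fun j => |u x j - u y j|) atTop (𝓝 |c x - c y|) :=
        ((hc x).sub (hc y)).abs
      refine le_of_tendsto hlim ?_
      filter_upwards [h₁ (max R₁ R₂) (le_max_left _ _) τ hτ hτ2,
        h₂ (max R₁ R₂) (le_max_right _ _) τ hτ hτ2] with j h3 h4
      rw [abs_le] at h3 h4 ⊢
      constructor <;> linarith [h3.1, h3.2, h4.1, h4.2]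
    have hz : |c x - c y| ≤ 0 := by
      refine le_of_forall_pos_le_add fun ε hε => ?_
      set τ : ℝ := min (1 / 2) (ε / (B₁ + B₂ + 1)) with hτ
      have hτ0 : 0 < τ := by positivity
      have h3 := key τ hτ0 (min_le_left _ _)
      have h4 : (B₁ + B₂) * τ ≤ ε := by
        calc (B₁ + B₂) * τ ≤ (B₁ + B₂) * (ε / (B₁ + B₂ + 1)) :=
              mul_le_mul_of_nonneg_left (min_le_right _ _) (by positivity)
          _ ≤ ε := by
            rw [mul_div_assoc', div_le_iff₀ (by positivity)]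
            nlinarith
      linarith
    have := abs_nonpos_iff.1 hz
    linarith
  obtain ⟨x₀⟩ := ‹Nonempty ι›
  refine ⟨c x₀, ?_, fun x => by rw [heq x₀ x]; exact hc x⟩
  obtain ⟨R₀, B, hB, h₀⟩ := h x₀
  set R : ℝ := max R₀ 1 with hR
  have hRpos : 0 < R := lt_of_lt_of_le one_pos (le_max_right _ _)
  have key : ∀ τ : ℝ, 0 < τ → τ ≤ 1 / 2 → c x₀ ≤ A R (1 / 2) + B * τ := by
    intro τ hτ hτ2
    refine le_of_tendsto (hc x₀) ?_
    filter_upwards [h₀ R (le_max_left _ _) τ hτ hτ2] with j h3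
    have h4 := hmono R τ hτ hτ2
    linarith [(abs_le.1 h3).2]
  have hle : c x₀ ≤ A R (1 / 2) := by
    refine le_of_forall_pos_le_add fun ε hε => ?_
    set τ : ℝ := min (1 / 2) (ε / (B + 1)) with hτ
    have hτ0 : 0 < τ := by positivity
    have h3 := key τ hτ0 (min_le_left _ _)
    have h4 : B * τ ≤ ε := by
      calc B * τ ≤ B * (ε / (B + 1)) := mul_le_mul_of_nonneg_left (min_le_right _ _) hB
        _ ≤ ε := by
          rw [mul_div_assoc', div_le_iff₀ (by positivity)]
          nlinarith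
    linarith
  exact lt_of_le_of_lt hle (hneg R hRpos)

end Pool.Agent.BAN
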