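import Mathlib
import Pool.Agent.BAN.VolC1

set_option autoImplicit false

/-!
# BAN/VolP: the integrals `W q (S · (x + t y))` are polynomials in `t` (owner helper51)
-/

open MeasureTheory Set Polynomial
open scoped ENNReal ContDiff NNReal

namespace Pool.Agent.BAN

private theorem eval_smooth {k : ℕ} {S : (Fin k → ℝ) → ((Fin k → ℝ) →L[ℝ] (Fin (k + 1) → ℝ))}
    (hS : ContDiff ℝ ∞ S) (x : Fin k → ℝ) : ContDiff ℝ ∞ (fun w => S w x) :=
  hS.clm_apply contDiff_const

private theorem cone_add_smul {k : ℕ} (a b : (Fin k → ℝ) → (Fin (k + 1) → ℝ)) (t : ℝ) :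
    cone (fun w => a w + t • b w) = fun v => cone a v + t • cone b v := by
  funext v
  simp only [cone, smul_add, smul_smul, mul_comm]

private theorem fderiv_cone_add {k : ℕ} {a b : (Fin k → ℝ) → (Fin (k + 1) → ℝ)}
    (ha : ContDiff ℝ ∞ a) (hb : ContDiff ℝ ∞ b) (t : ℝ) (v : Fin (k + 1) → ℝ) :
    fderiv ℝ (cone (fun w => a w + t • b w)) v =
      fderiv ℝ (cone a) v + t • fderiv ℝ (cone b) v := by
  rw [cone_add_smul]
  exact ((((cone_contDiff ha).differentiable (by simp)) v).hasFDerivAt.add
    ((((cone_contDiff hb).differentiable (by simp)) v).hasFDerivAt.const_smul t)).fderiv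

private theorem int_cont {k q : ℕ} {g : (Fin k → ℝ) → (Fin (k + 1) → ℝ)} (hg : ContDiff ℝ ∞ g) :
    Continuous fun v => (cone g v 0) ^ q * (fderiv ℝ (cone g) v).det := by
  have h1 : Continuous (cone g) := (cone_contDiff hg).continuous
  have h2 : Continuous (fderiv ℝ (cone g)) := (cone_contDiff hg).continuous_fderiv (by simp)
  exact (((continuous_apply 0).comp h1).pow q).mul (ContinuousLinearMap.continuous_det.comp h2)

theorem W_line {k q : ℕ} (S : (Fin k → ℝ) → ((Fin k → ℝ) →L[ℝ] (Fin (k + 1) → ℝ)))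
    (hS : ContDiff ℝ ∞ S) (x y : Fin k → ℝ) :
    ∃ p : ℝ[X], p.natDegree ≤ q + (k + 1) ∧
      ∀ t : ℝ, W q (fun w => S w (x + t • y)) = p.eval t := by
  classical
  set a : (Fin k → ℝ) → (Fin (k + 1) → ℝ) := fun w => S w x with ha'
  set b : (Fin k → ℝ) → (Fin (k + 1) → ℝ) := fun w => S w y with hb'
  have ha : ContDiff ℝ ∞ a := eval_smooth hS x
  have hb : ContDiff ℝ ∞ b := eval_smooth hS y
  have hab : ∀ t : ℝ, (fun w => S w (x + t • y)) = fun w => a w + t • b w := by
    intro t
    funext w
    simp only [ha', hb', map_add, map_smul]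
  let s : Finset ℕ := Finset.range (q + (k + 1) + 1)
  let v : ℕ → ℝ := fun i => (i : ℝ)
  have hv : Set.InjOn v s := fun a _ b _ h => Nat.cast_injective h
  have hsm : ∀ T : ℝ, ContDiff ℝ ∞ (fun w => a w + T • b w) := fun T => ha.add (hb.const_smul T)
  obtain ⟨G, hG⟩ : ∃ G : ℝ → (Fin (k + 1) → ℝ) → ℝ, ∀ T u, G T u =
    (cone (fun w => a w + T • b w) u 0) ^ q *
      (fderiv ℝ (cone (fun w => a w + T • b w)) u).det := ⟨_, fun _ _ => rfl⟩
  have hGc : ∀ T, Continuous (G T) := by
    intro T
    have h1 : G T = fun u => (cone (fun w => a w + T • b w) u 0) ^ q *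
      (fderiv ℝ (cone (fun w => a w + T • b w)) u).det := funext fun u => hG T u
    rw [h1]
    exact int_cont (hsm T)
  have hGi : ∀ T, IntegrableOn (G T) (box k 1) := fun T =>
    (hGc T).continuousOn.integrableOn_compact (isCompact_box 1)
  -- pointwise polynomial
  have hP : ∀ u, ∃ P : ℝ[X], P.natDegree ≤ q + (k + 1) ∧ ∀ T, G T u = P.eval T := by
    intro u
    set A : Matrix (Fin (k + 1)) (Fin (k + 1)) ℝ :=
      Matrix.of fun i l => fderiv ℝ (cone a) u (Pi.single i 1) l with hA
    set B : Matrix (Fin (k + 1)) (Fin (k + 1)) ℝ :=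
      Matrix.of fun i l => fderiv ℝ (cone b) u (Pi.single i 1) l with hB
    refine ⟨(C (cone a u 0) + X * C (cone b u 0)) ^ q *
      ((X : ℝ[X]) • B.map C + A.map C).det, ?_, ?_⟩
    · refine natDegree_mul_le.trans (add_le_add ?_ ?_)
      · refine natDegree_pow_le.trans ?_
        have : (C (cone a u 0) + X * C (cone b u 0) : ℝ[X]).natDegree ≤ 1 := by
          refine (natDegree_add_le _ _).trans (max_le (by simp) ?_)
          refine natDegree_mul_le.trans ?_
          simp
        calc q * (C (cone a u 0) + X * C (cone b u 0) : ℝ[X]).natDegree ≤ q * 1 :=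
              Nat.mul_le_mul_left _ this
          _ = q := mul_one _
      · have := natDegree_det_X_add_C_le B A
        simpa using this
    · intro T
      have h1 : (((X : ℝ[X]) • B.map C + A.map C).det).eval T =
          (fderiv ℝ (cone (fun w => a w + T • b w)) u).det := by
        rw [fderiv_cone_add ha hb, ← NE.evdet, ← coe_evalRingHom, RingHom.map_det]
        congr 1
        ext i l
        simp [hA, hB]
        ring
      rw [eval_mul, h1, hG, cone_add_smul]
      simp only [eval_pow, eval_add, eval_mul, eval_C, eval_X, Pi.add_apply, Pi.smul_apply,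
        smul_eq_mul]
  have hL : ∀ u T, G T u = ∑ i ∈ s, G (v i) u * (Lagrange.basis s v i).eval T := by
    intro u T
    obtain ⟨P, hPd, hPe⟩ := hP u
    have h1 : P = Lagrange.interpolate s v fun i => P.eval (v i) := by
      refine Lagrange.eq_interpolate hv ?_
      refine lt_of_le_of_lt Polynomial.degree_le_natDegree ?_
      rw [Finset.card_range]
      exact_mod_cast Nat.lt_succ_of_le hPd
    rw [hPe T]
    conv_lhs => rw [h1]
    rw [Lagrange.interpolate_apply, eval_finsetSum]
    refine Finset.sum_congr rfl fun i _ => ?_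
    rw [eval_mul, eval_C, hPe]
  refine ⟨∑ i ∈ s, C (∫ u in box k 1, G (v i) u) * Lagrange.basis s v i, ?_, ?_⟩
  · refine natDegree_sum_le_of_forall_le _ _ fun i hi => ?_
    refine (natDegree_C_mul_le _ _).trans ?_
    rw [Lagrange.natDegree_basis hv hi, Finset.card_range]
    omega
  · intro T
    have h0 : W q (fun w => S w (x + T • y)) = ∫ u in box k 1, G T u := by
      rw [hab T]
      unfold W
      exact setIntegral_congr_fun (measurableSet_box 1) fun u _ => (hG T u).symm
    have h1 : ∫ u in box k 1, G T u =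
        ∫ u in box k 1, ∑ i ∈ s, G (v i) u * (Lagrange.basis s v i).eval T :=
      setIntegral_congr_fun (measurableSet_box 1) fun u _ => hL u T
    rw [h0, h1, integral_finsetSum _ (fun i _ => (hGi (v i)).mul_const _), eval_finsetSum]
    refine Finset.sum_congr rfl fun i _ => ?_
    rw [integral_mul_const, eval_mul, eval_C]

theorem W_hom {k q : ℕ} (S : (Fin k → ℝ) → ((Fin k → ℝ) →L[ℝ] (Fin (k + 1) → ℝ)))
    (hS : ContDiff ℝ ∞ S) (c : ℝ) (x : Fin k → ℝ) :
    W q (fun w => S w (c • x)) = c ^ (q + (k + 1)) * W q (fun w => S w x) := by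
  have ha : ContDiff ℝ ∞ (fun w => S w x) := eval_smooth hS x
  have e1 : (cone fun w => S w (c • x)) = fun v => c • cone (fun w => S w x) v := by
    funext v
    simp only [cone, map_smul, smul_smul, mul_comm]
  have e2 : ∀ v, fderiv ℝ (cone fun w => S w (c • x)) v =
      c • fderiv ℝ (cone fun w => S w x) v := by
    intro v
    rw [e1]
    exact ((((cone_contDiff ha).differentiable (by simp)) v).hasFDerivAt.const_smul c).fderiv
  unfold W
  rw [← integral_const_mul]
  refine setIntegral_congr_fun (measurableSet_box 1) fun v _ => ?_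
  have e3 : (c • fderiv ℝ (cone fun w => S w x) v).det =
      c ^ (k + 1) * (fderiv ℝ (cone fun w => S w x) v).det := by
    rw [← NE.evdet, ← NE.evdet]
    have : (fun i l : Fin (k + 1) => (c • fderiv ℝ (cone fun w => S w x) v) (Pi.single i 1) l) =
        c • (Matrix.of fun i l : Fin (k + 1) =>
          fderiv ℝ (cone fun w => S w x) v (Pi.single i 1) l) := by
      ext i l
      simp
    rw [this, Matrix.det_smul, Fintype.card_fin]
    rfl
  simp only [e2, e3]
  rw [e1]
  simp only [Pi.smul_apply, smul_eq_mul]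
  ring

end Pool.Agent.BAN
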