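import Mathlib
import Pool.Agent.BAN.VolC3
import Pool.Agent.BAN.VolP
import Pool.Agent.BNH.LN1
import Pool.Agent.H73.ParAlg

set_option autoImplicit false

/-!
# BAN/VolC: the linear core of Banach's hyperplane problem

If all hyperplane sections of a star body are linear images of one body by a Lipschitz lift over the
cube, then (odd dimension of the sections) they are ellipsoids.
-/

open MeasureTheory Set Filter Topology Metric
open scoped ENNReal ContDiff NNReal Polynomial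

namespace Pool.Agent.BAN

open Pool.Agent.SB (E)
open Pool.Agent.H87Star (IsGauge)
open Pool.Agent.BNH (NN clamp clamp_mem clamp_eq lip_clamp N1_inner_pos inner_NN_n1 n1)

variable {k : ℕ}

/-- The power of `f` of exponent `q + (k + 1)` is a polynomial along all lines. -/
theorem pow_poly (hk : Odd k) {F : E (k + 1) → ℝ} (hF : IsGauge F) {f : E k → ℝ} (hf : IsGauge f)
    (s : (Fin k → ℝ) → E k →L[ℝ] E (k + 1)) (C : ℝ≥0) (hs : LipschitzOnWith C s (Icc (-1) 1))
    (h1 : ∀ v ∈ Icc (-1 : Fin k → ℝ) 1, ∀ x, F (s v x) = f x)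
    (h2 : ∀ v ∈ Icc (-1 : Fin k → ℝ) 1, ∀ x, inner ℝ (NN v) (s v x) = 0)
    {q : ℕ} (hq : Even q) (hq0 : 0 < q) (x y : E k) :
    ∃ p : ℝ[X], ∀ t : ℝ, f (x + t • y) ^ (q + (k + 1)) = p.eval t := by
  classical
  -- coordinates
  let eX : (Fin k → ℝ) →L[ℝ] E k := ((EuclideanSpace.equiv (Fin k) ℝ).symm : (Fin k → ℝ) →L[ℝ] E k)
  let eY : E (k + 1) →L[ℝ] (Fin (k + 1) → ℝ) :=
    (EuclideanSpace.equiv (Fin (k + 1)) ℝ : E (k + 1) →L[ℝ] (Fin (k + 1) → ℝ))
  let eY' : (Fin (k + 1) → ℝ) →L[ℝ] E (k + 1) :=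
    ((EuclideanSpace.equiv (Fin (k + 1)) ℝ).symm : (Fin (k + 1) → ℝ) →L[ℝ] E (k + 1))
  have eYY : ∀ y, eY' (eY y) = y := fun y => rfl
  let S : (Fin k → ℝ) → ((Fin k → ℝ) →L[ℝ] (Fin (k + 1) → ℝ)) :=
    fun w => eY.comp ((s (clamp w)).comp eX)
  have hSx : ∀ w x, S w x = eY (s (clamp w) (eX x)) := fun w x => rfl
  have hsl : LipschitzWith C (fun w => s (clamp w)) := lip_clamp hs
  set L : ℝ≥0 := ‖eY‖₊ * ‖eX‖₊ * C with hL
  have hSl : LipschitzWith L S := by
    refine LipschitzWith.of_dist_le_mul fun w w' => ?_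
    have e : S w - S w' = eY.comp ((s (clamp w) - s (clamp w')).comp eX) := by
      ext x i
      simp [S]
    rw [dist_eq_norm, e]
    have h3 := hsl.dist_le_mul w w'
    rw [dist_eq_norm] at h3
    calc ‖eY.comp ((s (clamp w) - s (clamp w')).comp eX)‖
        ≤ ‖eY‖ * (‖s (clamp w) - s (clamp w')‖ * ‖eX‖) := by
          refine (ContinuousLinearMap.opNorm_comp_le _ _).trans ?_
          gcongr
          exact ContinuousLinearMap.opNorm_comp_le _ _
      _ ≤ ‖eY‖ * ((C * dist w w') * ‖eX‖) := by gcongr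
      _ = L * dist w w' := by
          rw [hL]
          push_cast
          ring
  have hSc : Continuous S := hSl.continuous
  -- smoothing
  have hmol : ∀ j : ℕ, ∃ S' : (Fin k → ℝ) → ((Fin k → ℝ) →L[ℝ] (Fin (k + 1) → ℝ)),
      ContDiff ℝ ∞ S' ∧ (∀ w, ‖S' w - S w‖ ≤ 1 / ((j : ℝ) + 1)) ∧ LipschitzWith L S' :=
    fun j => mollify hSl (by positivity)
  choose Sj hSj1 hSj2 hSj3 using hmol
  set F' : (Fin (k + 1) → ℝ) → ℝ := fun y => F (eY' y) with hF'
  set f' : (Fin k → ℝ) → ℝ := fun x => f (eX x) with hf'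
  have hF'c : Continuous F' := hF.cont.comp eY'.continuous
  have hF'0 : ∀ y, y ≠ 0 → 0 < F' y := by
    intro y hy
    refine hF.pos _ fun h => hy ?_
    exact (EuclideanSpace.equiv (Fin (k + 1)) ℝ).symm.injective (h.trans (map_zero _).symm)
  have hF'h : ∀ c : ℝ, 0 ≤ c → ∀ y, F' (c • y) = c * F' y := by
    intro c hc y
    rw [hF']
    simp only
    rw [map_smul]
    exact hF.hom c hc _
  have hf'0 : ∀ x, x ≠ 0 → 0 < f' x := by
    intro x hx
    refine hf.pos _ fun h => hx ?_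
    exact (EuclideanSpace.equiv (Fin k) ℝ).symm.injective (h.trans (map_zero _).symm)
  have hf'h : ∀ c : ℝ, 0 ≤ c → ∀ x, f' (c • x) = c * f' x := by
    intro c hc x
    rw [hf']
    simp only
    rw [map_smul]
    exact hf.hom c hc _
  have hf'z : f' 0 = 0 := by
    have h := hf'h 0 le_rfl 0
    rwa [zero_smul, zero_mul] at h
  -- normal field
  let ν : (Fin k → ℝ) → (Fin (k + 1) → ℝ) := fun w => eY (NN w)
  have hcube : ∀ {w : Fin k → ℝ}, w ∈ Icc (-1 : Fin k → ℝ) 1 → ∀ i, |w i| ≤ 1 := by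
    intro w hw i
    exact abs_le.2 ⟨hw.1 i, hw.2 i⟩
  have hin : ∀ a b : E (k + 1), eY a ⬝ᵥ eY b = inner ℝ a b := by
    intro a b
    rw [EuclideanSpace.inner_eq_star_dotProduct, star_trivial, dotProduct_comm]
    rfl
  have hν : ∀ w ∈ Icc (-1 : Fin k → ℝ) 1, 0 < ν w ⬝ᵥ N1 w := by
    intro w hw
    have h3 := N1_inner_pos (hcube hw)
    rw [← inner_NN_n1, ← hin] at h3
    exact h3
  have hνg : ∀ x, ∀ w ∈ Icc (-1 : Fin k → ℝ) 1, ν w ⬝ᵥ S w x = 0 := by
    intro x w hw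
    rw [hSx, hin, clamp_eq hw]
    exact h2 w hw _
  have hb : ∀ x, ∀ w ∈ Icc (-1 : Fin k → ℝ) 1, (∃ i, |w i| = 1) → S w x 0 = 0 := by
    intro x w hw hi
    have h3 := hνg x w hw
    have h4 : NN w = Pool.Agent.BNH.e0 k := by
      ext i
      refine Fin.cases ?_ (fun j => ?_) i
      · rw [Pool.Agent.BNH.NN_zero, Pool.Agent.BNH.al_bdry hi]; simp [Pool.Agent.BNH.e0]
      · rw [Pool.Agent.BNH.NN_succ, Pool.Agent.BNH.be_bdry hi]; simp [Pool.Agent.BNH.e0]
    rw [hSx, hin, h4, Pool.Agent.BNH.inner_e0] at h3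
    exact h3
  -- the limit for points with f' x = 1
  have hgood : ∀ x, f' x = 1 → ∃ R₀ B : ℝ, 0 ≤ B ∧ ∀ R, R₀ ≤ R → ∀ τ : ℝ, 0 < τ → τ ≤ 1 / 2 →
      ∀ᶠ j in atTop, |W q (fun w => Sj j w x) - AA F' q R τ| ≤ B * τ := by
    intro x hx
    refine lim_W hk hq hq0 hF'c hF'0 hF'h (g := fun w => S w x) ?_ (fun j w => Sj j w x) ?_
      (L := L * ‖x‖) ?_ ?_ ?_ ν hν (hνg x) (hb x)
    · exact (hSc.clm_apply continuous_const).continuousOn
    · exact fun j => (hSj1 j).clm_apply contDiff_const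
    · intro j w _
      have h3 : LipschitzWith (L * ‖x‖₊) (fun w => Sj j w x) := by
        refine LipschitzWith.of_dist_le_mul fun a b => ?_
        rw [dist_eq_norm, ← ContinuousLinearMap.sub_apply]
        have h4 := (hSj3 j).dist_le_mul a b
        rw [dist_eq_norm] at h4
        calc ‖(Sj j a - Sj j b) x‖ ≤ ‖Sj j a - Sj j b‖ * ‖x‖ := ContinuousLinearMap.le_opNorm _ _
          _ ≤ (L * dist a b) * ‖x‖ := by gcongr
          _ = _ := by push_cast; ring
      have h4 := norm_fderiv_le_of_lipschitz ℝ h3 (x₀ := w)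
      exact h4
    · intro ε hε
      have h3 : Tendsto (fun j : ℕ => 1 / ((j : ℝ) + 1) * ‖x‖) atTop (𝓝 (0 * ‖x‖)) :=
        tendsto_one_div_add_atTop_nhds_zero_nat.mul_const _
      rw [zero_mul] at h3
      filter_upwards [h3.eventually (gt_mem_nhds hε)] with j hj w _
      have h4 : Sj j w x - S w x = (Sj j w - S w) x := rfl
      rw [h4]
      calc ‖(Sj j w - S w) x‖ ≤ ‖Sj j w - S w‖ * ‖x‖ := ContinuousLinearMap.le_opNorm _ _
        _ ≤ 1 / ((j : ℝ) + 1) * ‖x‖ := by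
            gcongr
            exact hSj2 j w
        _ ≤ ε := hj.le
    · intro w hw
      have h3 : F' (S w x) = f' x := by
        rw [hF', hSx, clamp_eq hw]
        simp only
        rw [eYY, h1 w hw]
      rw [h3, hx]
  have hne : Nonempty {x : Fin k → ℝ // f' x = 1} := by
    have hk0 : 0 < k := hk.pos
    set x₀ : Fin k → ℝ := Pi.single ⟨0, hk0⟩ 1 with hx₀
    have hx0 : x₀ ≠ 0 := by
      intro h
      have := congrFun h ⟨0, hk0⟩
      rw [hx₀, Pi.single_eq_same, Pi.zero_apply] at this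
      exact one_ne_zero this
    refine ⟨⟨(f' x₀)⁻¹ • x₀, ?_⟩⟩
    rw [hf'h _ (inv_nonneg.2 (hf'0 x₀ hx0).le), inv_mul_cancel₀ (hf'0 x₀ hx0).ne']
  obtain ⟨c, hc, hlim⟩ := abs_limit
    (fun (x : {x : Fin k → ℝ // f' x = 1}) (j : ℕ) => W q (fun w => Sj j w x.1))
    (AA F' q) (fun R τ hτ hτ2 => AA_mono hq hF'c hτ hτ2)
    (fun R hR => AA_neg hq hF'c hF'h hR) (fun x => hgood x.1 x.2)
  -- all points
  have hall : ∀ x, Tendsto (fun j => W q (fun w => Sj j w x)) atTop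
      (𝓝 (c * f' x ^ (q + (k + 1)))) := by
    intro x
    by_cases hx : x = 0
    · have h3 : ∀ j, W q (fun w => Sj j w x) = 0 := by
        intro j
        have h4 := W_hom (q := q) (Sj j) (hSj1 j) 0 x
        rw [zero_smul, zero_pow (by omega), zero_mul] at h4
        rw [hx]
        exact h4
      simp_rw [h3]
      rw [hx, hf'z, zero_pow (by omega), mul_zero]
      exact tendsto_const_nhds
    · have hpos := hf'0 x hx
      have h3 : f' ((f' x)⁻¹ • x) = 1 := by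
        rw [hf'h _ (inv_nonneg.2 hpos.le), inv_mul_cancel₀ hpos.ne']
      have h4 := hlim ⟨_, h3⟩
      simp only at h4
      have h5 : ∀ j, W q (fun w => Sj j w x) =
          f' x ^ (q + (k + 1)) * W q (fun w => Sj j w ((f' x)⁻¹ • x)) := by
        intro j
        rw [← W_hom (q := q) (Sj j) (hSj1 j) (f' x) ((f' x)⁻¹ • x)]
        rw [smul_smul, mul_inv_cancel₀ hpos.ne', one_smul]
      simp_rw [h5]
      rw [mul_comm c]
      exact h4.const_mul _
  -- polynomials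
  let x' : Fin k → ℝ := fun i => x i
  let y' : Fin k → ℝ := fun i => y i
  have hline : ∀ j, ∃ p : ℝ[X], p.natDegree ≤ q + (k + 1) ∧
      ∀ t : ℝ, W q (fun w => Sj j w (x' + t • y')) = p.eval t :=
    fun j => W_line (Sj j) (hSj1 j) x' y'
  choose p hp1 hp2 using hline
  obtain ⟨r, -, hr⟩ := Pool.Agent.H73.poly_limit (q + (k + 1)) p hp1
    (fun t => c * f' (x' + t • y') ^ (q + (k + 1))) (fun t => by
      have h3 := hall (x' + t • y')
      simp_rw [hp2] at h3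
      exact h3)
  refine ⟨Polynomial.C c⁻¹ * r, fun t => ?_⟩
  rw [Polynomial.eval_mul, Polynomial.eval_C, ← hr t, ← mul_assoc, inv_mul_cancel₀ hc.ne, one_mul]
  rfl

/-- **The linear core.** -/
theorem vol_core (hk : Odd k) {F : E (k + 1) → ℝ} (hF : IsGauge F) {f : E k → ℝ} (hf : IsGauge f)
    (s : (Fin k → ℝ) → E k →L[ℝ] E (k + 1)) (C : ℝ≥0) (hs : LipschitzOnWith C s (Icc (-1) 1))
    (h1 : ∀ v ∈ Icc (-1 : Fin k → ℝ) 1, ∀ x, F (s v x) = f x)
    (h2 : ∀ v ∈ Icc (-1 : Fin k → ℝ) 1, ∀ x, inner ℝ (NN v) (s v x) = 0) :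
    ∃ b : E k →ₗ[ℝ] E k →ₗ[ℝ] ℝ, (∀ v w, b v w = b w v) ∧ ∀ v, f v ^ 2 = b v v := by
  obtain ⟨r, hr⟩ := hk
  have hk : Odd k := ⟨r, hr⟩
  refine Pool.Agent.H73.form_of_poly (m := r + 2) (by omega) hf (fun x y => ?_) (fun x y => ?_)
  · obtain ⟨p, hp⟩ := pow_poly hk hF hf s C hs h1 h2 (q := 2) (by decide) (by norm_num) x y
    refine ⟨p, fun t => ?_⟩
    rw [← hp t]
    congr 1
    omega
  · obtain ⟨p, hp⟩ := pow_poly hk hF hf s C hs h1 h2 (q := 4) (by decide) (by norm_num) x y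
    refine ⟨p, fun t => ?_⟩
    rw [← hp t]
    congr 1
    omega

end Pool.Agent.BAN
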