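import Mathlib
import Pool.Agent.BAN.TDefs
import Pool.Agent.BAN.Sur
import Pool.Agent.BAN.Cvx
import Pool.Agent.BAN.Smo
import Pool.Agent.BAN.Sym
import Pool.Agent.BAN.Dich
import Pool.Agent.BAN.Tail
import Pool.Agent.BNH.Case1
import Pool.Agent.BNH.Red

set_option autoImplicit false

/-! S13607: hyperplane sections of odd dimension `k ≥ 3`. -/

namespace Pool.Agent.BAN

open Pool.Agent.SB
open Pool.Agent.H87Star (IsGauge)

/-- All hyperplane sections of a star body in `ℝ^(k+1)`, `k ≥ 3` odd, affinely equivalent: they are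
affine balls. -/
theorem core_odd {k : ℕ} (hk3 : 3 ≤ k) (hk : Odd k) {f : E (k + 1) → ℝ} (hf : IsGauge f)
    (hfr : ∀ F F' : E k →L[ℝ] E (k + 1), Iso F → Iso F' →
      ∃ (g : E k ≃L[ℝ] E k) (c : E k), ∀ v, f (F' (g v + c)) ≤ 1 ↔ f (F v) ≤ 1)
    (F : E k →L[ℝ] E (k + 1)) (hF : Iso F) :
    ∃ (g : E k ≃ₗ[ℝ] E k) (z : E k), ∀ x, f (F x) ≤ 1 ↔ ‖g x - z‖ ≤ 1 := by
  have hh : IsGauge (fun v => f (F v)) := gauge_comp hf hF
  have hT := hasT hf hfr F hF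
  have hS := surT (by omega) hf hfr F hF
  obtain ⟨h1, h2⟩ := cvx (by omega) hf hh hS
  obtain ⟨h3, h4⟩ := cvxK (by omega) hf hh hT h1 h2
  have h5 := smo (by omega) hf hh hS
  obtain ⟨p, hp⟩ := symK0 hk (by omega) hf hfr F hF
  rcases dich (by omega) hf hh hT hS h3 h4 hp with hev | ⟨a, ha, hsa, hx⟩
  · exact Pool.Agent.BNH.case1 hk3 hk hf hfr h3 hev F hF
  · exact tail hk3 hf hh hT h1 h2 h5 h3 h4 hp ha hsa hx

theorem coreOdd : Pool.Agent.BNH.CoreOdd :=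
  fun _ hk3 hk _ hf hfr F hF => core_odd hk3 hk hf hfr F hF

end Pool.Agent.BAN
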