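import Mathlib
import Pool.Agent.BAN.TDefs
import Pool.Agent.SB.Vol
import Pool.Agent.SB.Frames

set_option autoImplicit false

/-! S13607: the even case `f (-y) = f y` has linear equivalences of sections; convex gauges are
Lipschitz. -/

namespace Pool.Agent.BAN

open Pool.Agent.SB
open Pool.Agent.H87Star (IsGauge)

/-- If `K` is symmetric about `0`, affine equivalences of central sections are linear. -/
theorem lin_frames {k n : ℕ} {f : E n → ℝ} (hf : IsGauge f) (hev : ∀ y, f (-y) = f y)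
    (hfr : ∀ F F' : E k →L[ℝ] E n, Iso F → Iso F' →
      ∃ (g : E k ≃L[ℝ] E k) (c : E k), ∀ v, f (F' (g v + c)) ≤ 1 ↔ f (F v) ≤ 1)
    (F F' : E k →L[ℝ] E n) (hF : Iso F) (hF' : Iso F') :
    ∃ g : E k ≃L[ℝ] E k, ∀ v, f (F' (g v)) = f (F v) := by
  obtain ⟨g, c, hg⟩ := hfr F F' hF hF'
  have hh' := gauge_comp hf hF'
  have hh := gauge_comp hf hF
  obtain ⟨a, b, ha, -, hb⟩ := hh'.bounds
  -- membership of the translates
  have key : ∀ m : ℕ, f (F' ((2 * m : ℝ) • c)) ≤ 1 := by
    intro m
    have h1 : ∀ w, f (F' w) ≤ 1 → f (F' ((2 : ℝ) • c + w)) ≤ 1 := by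
      intro w hw
      -- w ∈ S' ⇒ -w ∈ S' ⇒ 2c + w ∈ S'
      have h2 : f (F' (-w)) ≤ 1 := by
        rw [map_neg, hev]; exact hw
      have h3 : f (F (g.symm (-w - c))) ≤ 1 := by
        rw [← hg]
        simpa using h2
      have h4 : f (F (-(g.symm (-w - c)))) ≤ 1 := by
        rw [map_neg, hev]; exact h3
      have h5 := (hg _).2 h4
      have h6 : g (-(g.symm (-w - c))) + c = (2 : ℝ) • c + w := by
        rw [map_neg, ContinuousLinearEquiv.apply_symm_apply, two_smul]
        abel
      rwa [h6] at h5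
    induction m with
    | zero =>
      simp [hf.zero]
    | succ m ih =>
      have := h1 _ ih
      have e : (2 : ℝ) • c + (2 * (m : ℝ)) • c = (2 * ((m + 1 : ℕ) : ℝ)) • c := by
        rw [← add_smul]
        congr 1
        push_cast
        ring
      rwa [e] at this
  have hc : c = 0 := by
    by_contra hc
    have hc' : 0 < ‖c‖ := norm_pos_iff.2 hc
    obtain ⟨m, hm⟩ := exists_nat_gt (1 / (a * (2 * ‖c‖)))
    have h1 := (hb ((2 * m : ℝ) • c)).1
    have h2 := key m
    rw [norm_smul, Real.norm_of_nonneg (by positivity)] at h1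
    have h3 : a * (2 * m * ‖c‖) ≤ 1 := h1.trans h2
    rw [div_lt_iff₀ (by positivity)] at hm
    nlinarith
  subst hc
  refine ⟨g, fun v => ?_⟩
  have h1 : ∀ v, f (F' (g v)) ≤ 1 ↔ f (F v) ≤ 1 := by
    intro v
    simpa using hg v
  -- homogeneity
  have hle : ∀ v, f (F' (g v)) ≤ f (F v) := by
    intro v
    by_cases hv : v = 0
    · subst hv; simp
    · have hp : 0 < f (F v) := hh.pos v hv
      have h2 := (h1 ((f (F v))⁻¹ • v)).2 (by
        rw [map_smul, hf.hom _ (by positivity)]
        exact (inv_mul_cancel₀ hp.ne').le)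
      rw [map_smul, map_smul, hf.hom _ (by positivity), inv_mul_le_iff₀ hp, mul_one] at h2
      exact h2
  have hge : f (F v) ≤ f (F' (g v)) := by
    by_cases hv : v = 0
    · subst hv; simp
    · have hgv : g v ≠ 0 := fun h => hv (by simpa using congrArg g.symm h)
      have hp : 0 < f (F' (g v)) := hh'.pos _ hgv
      have h2 := (h1 ((f (F' (g v)))⁻¹ • v)).1 (by
        rw [map_smul, map_smul, hf.hom _ (by positivity)]
        exact (inv_mul_cancel₀ hp.ne').le)
      rw [map_smul, hf.hom _ (by positivity), inv_mul_le_iff₀ hp, mul_one] at h2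
      exact h2
  exact le_antisymm (hle v) hge

/-- A sublinear gauge is Lipschitz. -/
theorem lip_of_sub {n : ℕ} {f : E n → ℝ} (hf : IsGauge f) (h1 : Sub f) :
    ∃ L : ℝ, 0 ≤ L ∧ ∀ y y', |f y - f y'| ≤ L * ‖y - y'‖ := by
  obtain ⟨a, b, ha, hab, hb⟩ := hf.bounds
  refine ⟨|b|, abs_nonneg _, fun y y' => ?_⟩
  have key : ∀ y y' : E n, f y - f y' ≤ |b| * ‖y - y'‖ := by
    intro y y'
    have h2 := h1 (y - y') y'
    rw [sub_add_cancel] at h2
    have h3 := (hb (y - y')).2
    have h4 : b * ‖y - y'‖ ≤ |b| * ‖y - y'‖ :=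
      mul_le_mul_of_nonneg_right (le_abs_self b) (norm_nonneg _)
    linarith
  rw [abs_le]
  constructor
  · have := key y' y
    rw [norm_sub_rev] at this
    linarith
  · exact key y y'

end Pool.Agent.BAN
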