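import Mathlib
import Pool.Agent.SB.Defs

set_option autoImplicit false

/-! S13607: an isometric frame of `E n` factors through `E (k+1)`. -/

namespace Pool.Agent.BAN

open Pool.Agent.SB

theorem exists_sup {k n : ℕ} (S : Submodule ℝ (E n)) (hS : Module.finrank ℝ S = k)
    (hn : k + 1 ≤ n) : ∃ T : Submodule ℝ (E n), S ≤ T ∧ Module.finrank ℝ T = k + 1 := by
  have hlt : Module.finrank ℝ S < Module.finrank ℝ (E n) := by
    rw [hS, finrank_euclideanSpace, Fintype.card_fin]
    omega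
  have hne : S ≠ ⊤ := by
    intro h
    rw [h, finrank_top] at hlt
    exact lt_irrefl _ hlt
  obtain ⟨v, hv⟩ : ∃ v, v ∉ S := by
    by_contra hcon
    push Not at hcon
    exact hne (eq_top_iff.2 fun v _ => hcon v)
  refine ⟨S ⊔ Submodule.span ℝ {v}, le_sup_left, ?_⟩
  have h0 : S ⊓ Submodule.span ℝ {v} = ⊥ := by
    rw [eq_bot_iff]
    rintro w ⟨hw1, hw2⟩
    obtain ⟨c, rfl⟩ := Submodule.mem_span_singleton.1 hw2
    by_cases hc : c = 0
    · simp [hc]
    · exfalso
      apply hv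
      have := S.smul_mem c⁻¹ hw1
      rwa [smul_smul, inv_mul_cancel₀ hc, one_smul] at this
  have h1 := Submodule.finrank_sup_add_finrank_inf_eq S (Submodule.span ℝ {v})
  rw [h0, finrank_bot, add_zero, hS, finrank_span_singleton] at h1
  · exact h1
  · rintro rfl
    exact hv S.zero_mem

theorem factor {k n : ℕ} (hn : k + 1 ≤ n) (F : E k →L[ℝ] E n) (hF : Iso F) :
    ∃ (J : E (k + 1) →L[ℝ] E n) (F₁ : E k →L[ℝ] E (k + 1)), Iso J ∧ Iso F₁ ∧
      ∀ v, J (F₁ v) = F v := by
  have hinj : Function.Injective F := by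
    intro a b hab
    have h := hF (a - b)
    rw [map_sub, hab, sub_self, norm_zero] at h
    exact sub_eq_zero.1 (norm_eq_zero.1 h.symm)
  have hS : Module.finrank ℝ (LinearMap.range (F : E k →ₗ[ℝ] E n)) = k := by
    rw [LinearMap.finrank_range_of_inj hinj, finrank_euclideanSpace, Fintype.card_fin]
  obtain ⟨T, hST, hT⟩ := exists_sup _ hS hn
  let b : OrthonormalBasis (Fin (k + 1)) ℝ T := (stdOrthonormalBasis ℝ T).reindex (finCongr hT)
  let J : E (k + 1) →L[ℝ] E n := T.subtypeL.comp (b.repr.symm.toContinuousLinearEquiv :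
    E (k + 1) →L[ℝ] T)
  have hmem : ∀ v, F v ∈ T := fun v => hST ⟨v, rfl⟩
  let FT : E k →L[ℝ] T := F.codRestrict T hmem
  let F₁ : E k →L[ℝ] E (k + 1) := (b.repr.toContinuousLinearEquiv : T →L[ℝ] E (k + 1)).comp FT
  refine ⟨J, F₁, fun v => ?_, fun v => ?_, fun v => ?_⟩
  · show ‖((b.repr.symm v : T) : E n)‖ = ‖v‖
    exact b.repr.symm.norm_map v
  · show ‖b.repr (FT v)‖ = ‖v‖
    refine (b.repr.norm_map (FT v)).trans ?_
    exact hF v
  · show ((b.repr.symm (b.repr (FT v)) : T) : E n) = F v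
    rw [LinearIsometryEquiv.symm_apply_apply]
    rfl

end Pool.Agent.BAN
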